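import Mathlib
import Pool.Agent.WT7.Defs
import Pool.Agent.WTK.Defs
import Pool.Agent.WTK.EmbG

/-!
# [WTE-RemK] the removal lemma for `K_r`

`count_cliques`: a family of sets in which all large subsets have density at least `β` contains many cliques with one vertex in each set (induction on `r`).
`rem_few`: a graph with few labelled `r`-cliques becomes `K_r`-free by deleting few edges (`szemeredi_regularity`).
`rem_free`: a graph without `K_r(t)` becomes `K_r`-free by deleting few edges.
-/

set_option autoImplicit false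

namespace Pool.Agent.WTE

open Finset Pool.Agent.WT7 Pool.Agent.WTK
open scoped Classical

/-- labelled cliques with one vertex in each of the sets -/
noncomputable def Tr {V : Type} [Fintype V] (G : SimpleGraph V) {r : ℕ} (A : Fin r → Finset V) : Finset (Fin r → V) :=
  univ.filter (fun f => (∀ i, f i ∈ A i) ∧ ∀ i j, i ≠ j → G.Adj (f i) (f j))

theorem card_interedges_eq {V : Type} [Fintype V] (G : SimpleGraph V) (S T : Finset V) :
    (G.interedges S T).card = ∑ v ∈ S, (T.filter (G.Adj v)).card := by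
  have h : G.interedges S T = S.biUnion (fun v => (T.filter (G.Adj v)).image (fun w => (v, w))) := by
    ext ⟨a, b⟩
    rw [SimpleGraph.mem_interedges_iff, mem_biUnion]
    constructor
    · rintro ⟨h1, h2, h3⟩
      exact ⟨a, h1, mem_image.2 ⟨b, mem_filter.2 ⟨h2, h3⟩, rfl⟩⟩
    · rintro ⟨v, h1, h2⟩
      obtain ⟨w, h3, h4⟩ := mem_image.1 h2
      obtain ⟨rfl, rfl⟩ := Prod.mk.inj h4
      exact ⟨h1, (mem_filter.1 h3).1, (mem_filter.1 h3).2⟩
  rw [h, card_biUnion]
  · refine sum_congr rfl fun v _ => card_image_of_injective _ fun w w' hw => (Prod.mk.inj hw).2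
  · intro v _ v' _ hne
    rw [Function.onFun, disjoint_left]
    rintro ⟨a, b⟩ h1 h2
    obtain ⟨w, -, h3⟩ := mem_image.1 h1
    obtain ⟨w', -, h4⟩ := mem_image.1 h2
    exact hne ((Prod.mk.inj h3).1.trans (Prod.mk.inj h4).1.symm)

/-- **Counting lemma** -/
theorem count_cliques {β : ℝ} (hβ : 0 < β) (r : ℕ) : ∃ η c : ℝ, 0 < η ∧ 0 < c ∧
    ∀ {V : Type} [Fintype V] (G : SimpleGraph V) (A : Fin r → Finset V),
      (∀ i j, i ≠ j → ∀ S ⊆ A i, ∀ T ⊆ A j, η * (A i).card ≤ S.card → η * (A j).card ≤ T.card →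
        β * (S.card * T.card : ℝ) ≤ ((G.interedges S T).card : ℝ)) →
      c * ∏ i, ((A i).card : ℝ) ≤ ((Tr G A).card : ℝ) := by
  induction r with
  | zero =>
    refine ⟨1, 1, one_pos, one_pos, fun {V} _ G A _ => ?_⟩
    have h1 : (Tr G A).Nonempty := by
      refine ⟨fun i => i.elim0, ?_⟩
      simp only [Tr, mem_filter, mem_univ, true_and]
      exact ⟨fun i => i.elim0, fun i => i.elim0⟩
    have h2 : 1 ≤ (Tr G A).card := h1.card_pos
    simp only [univ_eq_empty, prod_empty, mul_one]
    exact_mod_cast h2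
  | succ r ih =>
    obtain ⟨η₀, c₀, hη₀, hc₀, ih⟩ := ih
    have hr : (0 : ℝ) < 2 * (r + 1) := by positivity
    refine ⟨min (1 / (2 * (r + 1))) (β * η₀), c₀ * β ^ r / 2, lt_min (by positivity) (by positivity), by positivity,
      fun {V} _ G A hA => ?_⟩
    set η : ℝ := min (1 / (2 * (r + 1))) (β * η₀) with hη
    have hη1 : η ≤ 1 / (2 * (r + 1)) := min_le_left _ _
    have hη2 : η ≤ β * η₀ := min_le_right _ _
    have hη3 : η ≤ 1 := by
      refine hη1.trans ?_
      rw [div_le_one hr]
      have : (0 : ℝ) ≤ r := Nat.cast_nonneg _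
      linarith
    have hη0 : 0 < η := lt_min (by positivity) (by positivity)
    -- the vertices with small degree into one of the sets
    set B : Fin r → Finset V := fun j => (A 0).filter (fun v => (((A j.succ).filter (G.Adj v)).card : ℝ) <
      β * (A j.succ).card) with hB
    have hBc : ∀ j, ((B j).card : ℝ) ≤ η * (A 0).card := by
      intro j
      by_contra hcon
      push Not at hcon
      have h1 := hA 0 j.succ (Fin.succ_ne_zero j).symm (B j) (filter_subset _ _) (A j.succ) (Subset.refl _) hcon.le (by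
        have : (0 : ℝ) ≤ (A j.succ).card := Nat.cast_nonneg _
        nlinarith)
      rw [card_interedges_eq] at h1
      have h2 : (B j).Nonempty := by
        rw [← card_pos]
        have h3 : (0 : ℝ) ≤ η * (A 0).card := by positivity
        exact_mod_cast lt_of_le_of_lt h3 hcon
      have h3 : ((∑ v ∈ B j, ((A j.succ).filter (G.Adj v)).card : ℕ) : ℝ) < ∑ _v ∈ B j, β * ((A j.succ).card : ℝ) := by
        push_cast
        exact sum_lt_sum_of_nonempty h2 fun v hv => (mem_filter.1 hv).2
      rw [sum_const, nsmul_eq_mul] at h3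
      linarith
    set Gd : Finset V := (A 0).filter (fun v => ∀ j : Fin r, β * (A j.succ).card ≤
      (((A j.succ).filter (G.Adj v)).card : ℝ)) with hGd
    have hGd1 : ((A 0).card : ℝ) / 2 ≤ Gd.card := by
      have h1 : A 0 ⊆ Gd ∪ univ.biUnion B := by
        intro v hv
        rw [mem_union, mem_biUnion]
        by_cases h : v ∈ Gd
        · exact Or.inl h
        · right
          rw [hGd, mem_filter] at h
          push Not at h
          obtain ⟨j, hj⟩ := h hv
          exact ⟨j, mem_univ _, mem_filter.2 ⟨hv, hj⟩⟩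
      have h2 : ((A 0).card : ℝ) ≤ Gd.card + ∑ j, ((B j).card : ℝ) := by
        have h3 := (card_le_card h1).trans ((card_union_le _ _).trans (Nat.add_le_add_left card_biUnion_le _))
        exact_mod_cast h3
      have h4 : ∑ j, ((B j).card : ℝ) ≤ ∑ _j : Fin r, η * (A 0).card := sum_le_sum fun j _ => hBc j
      rw [sum_const, card_univ, Fintype.card_fin, nsmul_eq_mul] at h4
      have h5 : (r : ℝ) * (η * (A 0).card) ≤ (A 0).card / 2 := by
        have h6 : (r : ℝ) * η ≤ 1 / 2 := by
          calc (r : ℝ) * η ≤ (r + 1) * (1 / (2 * (r + 1))) := by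
                apply mul_le_mul (by linarith) hη1 hη0.le (by positivity)
            _ = 1 / 2 := by field_simp
        have h7 : (0 : ℝ) ≤ (A 0).card := Nat.cast_nonneg _
        calc (r : ℝ) * (η * (A 0).card) = (r * η) * (A 0).card := by ring
          _ ≤ 1 / 2 * (A 0).card := mul_le_mul_of_nonneg_right h6 h7
          _ = (A 0).card / 2 := by ring
      linarith
    -- the cliques through a good vertex
    have hv : ∀ v ∈ Gd, c₀ * β ^ r * ∏ j : Fin r, ((A j.succ).card : ℝ) ≤
        ((Tr G (fun j : Fin r => (A j.succ).filter (G.Adj v))).card : ℝ) := by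
      intro v hv
      have hv2 := (mem_filter.1 hv).2
      have h1 := ih G (fun j : Fin r => (A j.succ).filter (G.Adj v)) (by
        intro i j hij S hS T hT hSc hTc
        refine hA i.succ j.succ (fun h => hij (Fin.succ_injective _ h)) S (hS.trans (filter_subset _ _)) T
          (hT.trans (filter_subset _ _)) ?_ ?_
        · refine le_trans ?_ hSc
          calc η * (A i.succ).card ≤ β * η₀ * (A i.succ).card := mul_le_mul_of_nonneg_right hη2 (Nat.cast_nonneg _)
            _ = η₀ * (β * (A i.succ).card) := by ring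
            _ ≤ _ := mul_le_mul_of_nonneg_left (hv2 i) hη₀.le
        · refine le_trans ?_ hTc
          calc η * (A j.succ).card ≤ β * η₀ * (A j.succ).card := mul_le_mul_of_nonneg_right hη2 (Nat.cast_nonneg _)
            _ = η₀ * (β * (A j.succ).card) := by ring
            _ ≤ _ := mul_le_mul_of_nonneg_left (hv2 j) hη₀.le)
      refine le_trans ?_ h1
      rw [mul_assoc]
      apply mul_le_mul_of_nonneg_left _ hc₀.le
      calc β ^ r * ∏ j : Fin r, ((A j.succ).card : ℝ) = ∏ j : Fin r, (β * ((A j.succ).card : ℝ)) := by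
            rw [prod_mul_distrib, prod_const, card_univ, Fintype.card_fin]
        _ ≤ _ := prod_le_prod (fun j _ => by positivity) fun j _ => hv2 j
    have hcard : ∑ v ∈ Gd, (Tr G (fun j : Fin r => (A j.succ).filter (G.Adj v))).card ≤ (Tr G A).card := by
      rw [← card_sigma]
      refine card_le_card_of_injOn (fun p => (Fin.cons p.1 p.2 : Fin (r + 1) → V)) ?_ ?_
      · rintro ⟨v, f⟩ hp
        rw [mem_coe, mem_sigma] at hp
        obtain ⟨h1, h2⟩ := hp
        simp only [Tr, mem_filter, mem_univ, true_and] at h2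
        simp only [Tr, coe_filter, mem_univ, true_and, Set.mem_ofPred_eq]
        refine ⟨fun i => ?_, fun i j => ?_⟩
        · refine Fin.cases ?_ (fun i => ?_) i
          · exact (mem_filter.1 h1).1
          · exact (h2.1 i).1
        · refine Fin.cases ?_ (fun i => ?_) i <;> refine Fin.cases ?_ (fun j => ?_) j
          · intro h
            exact absurd rfl h
          · intro _
            exact (h2.1 j).2
          · intro _
            exact (h2.1 i).2.symm
          · intro h
            exact h2.2 i j fun h' => h (by rw [h'])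
      · rintro ⟨v, f⟩ _ ⟨v', f'⟩ _ h
        have h1 : v = v' := by
          have := congrFun h 0
          simpa using this
        have h2 : f = f' := by
          funext i
          have := congrFun h i.succ
          simpa using this
        rw [h1, h2]
    have h1 : ((∑ v ∈ Gd, (Tr G (fun j : Fin r => (A j.succ).filter (G.Adj v))).card : ℕ) : ℝ) ≤ (Tr G A).card := by
      exact_mod_cast hcard
    push_cast at h1
    have h2 : ∑ _v ∈ Gd, c₀ * β ^ r * ∏ j : Fin r, ((A j.succ).card : ℝ) ≤
        ∑ v ∈ Gd, ((Tr G (fun j : Fin r => (A j.succ).filter (G.Adj v))).card : ℝ) := sum_le_sum hv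
    rw [sum_const, nsmul_eq_mul] at h2
    rw [Fin.prod_univ_succ]
    obtain ⟨Q, hQ⟩ : ∃ Q : ℝ, Q = ∏ j : Fin r, ((A j.succ).card : ℝ) := ⟨_, rfl⟩
    have hQ0 : 0 ≤ Q := by
      rw [hQ]
      exact prod_nonneg fun j _ => Nat.cast_nonneg _
    rw [← hQ] at h2 ⊢
    have h3 : (0 : ℝ) ≤ c₀ * β ^ r * Q := by positivity
    calc c₀ * β ^ r / 2 * (((A 0).card : ℝ) * Q) = (A 0).card / 2 * (c₀ * β ^ r * Q) := by ring
      _ ≤ Gd.card * (c₀ * β ^ r * Q) := mul_le_mul_of_nonneg_right hGd1 h3
      _ ≤ _ := h2.trans h1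

/-- the parts of an equipartition are large -/
theorem card_part_ge {V : Type} [Fintype V] {P : Finpartition (univ : Finset V)} {M : ℕ} (hP : P.IsEquipartition)
    (hM : P.parts.card ≤ M) {s : Finset V} (hs : s ∈ P.parts) : (Fintype.card V : ℝ) / (2 * M : ℝ) ≤ s.card := by
  rcases isEmpty_or_nonempty V with h | h
  · simp [Fintype.card_eq_zero]
  have hpos : 0 < P.parts.card := card_pos.2 ⟨_, hs⟩
  have hpos' : (0 : ℝ) < P.parts.card := by exact_mod_cast hpos
  have aux : ∀ n k : ℕ, 0 < k → k ≤ n → n < 2 * k * (n / k) := by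
    intro n k hk hn
    rw [mul_assoc, two_mul, ← add_lt_add_iff_right (n % k), add_right_comm, add_assoc,
      Nat.mod_add_div n k, add_comm, add_lt_add_iff_right]
    apply (Nat.mod_lt n hk).trans_le
    simpa using Nat.mul_le_mul_left k ((Nat.one_le_div_iff hk).2 hn)
  calc (Fintype.card V : ℝ) / (2 * M : ℝ) ≤ Fintype.card V / (2 * P.parts.card : ℝ) := by
        apply div_le_div_of_nonneg_left (Nat.cast_nonneg _) (by positivity)
        have : (P.parts.card : ℝ) ≤ M := by exact_mod_cast hM
        linarith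
    _ ≤ ((Fintype.card V / P.parts.card : ℕ) : ℝ) :=
        (div_le_iff₀' (by positivity)).2 (by
          have h1 := (aux (Fintype.card V) P.parts.card hpos (by
            have := P.card_parts_le_card
            rwa [card_univ] at this)).le
          exact_mod_cast h1)
    _ ≤ (s.card : ℝ) := by
        have h1 := hP.average_le_card_part hs
        rw [card_univ] at h1
        exact_mod_cast h1

/-- the pairs which are deleted -/
theorem unreduced_subset {V : Type} [Fintype V] (G : SimpleGraph V) (P : Finpartition (univ : Finset V)) (ε δ : ℝ) :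
    (univ : Finset (V × V)).filter (fun p => G.Adj p.1 p.2 ∧ ¬ (G.regularityReduced P ε δ).Adj p.1 p.2) ⊆
      (P.nonUniforms G ε).biUnion (fun (U, V) ↦ U ×ˢ V) ∪ P.parts.biUnion offDiag ∪
        (P.sparsePairs G δ).biUnion fun (U, V) ↦ G.interedges U V := by
  rintro ⟨x, y⟩
  simp only [mem_filter, SimpleGraph.regularityReduced_adj, not_and, not_exists,
    not_le, mem_biUnion, mem_union, mem_product, Prod.exists, mem_offDiag, and_imp,
    or_assoc, and_assoc, P.mk_mem_nonUniforms, Finpartition.mk_mem_sparsePairs, SimpleGraph.mem_interedges_iff]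
  intro _ h h'
  replace h' := h' h
  obtain ⟨U, hU, hx⟩ := P.exists_mem (mem_univ x)
  obtain ⟨W, hW, hy⟩ := P.exists_mem (mem_univ y)
  obtain rfl | hUW := eq_or_ne U W
  · exact Or.inr (Or.inl ⟨U, hU, hx, hy, G.ne_of_adj h⟩)
  by_cases h₂ : G.IsUniform ε U W
  · exact Or.inr <| Or.inr ⟨U, W, hU, hW, hUW, h' _ hU _ hW hx hy hUW h₂, hx, hy, h⟩
  · exact Or.inl ⟨U, W, hU, hW, hUW, h₂, hx, hy⟩

/-- the number of the deleted pairs -/
theorem df_reduced {V : Type} [Fintype V] [Nonempty V] {G : SimpleGraph V} {P : Finpartition (univ : Finset V)}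
    {ε ε' : ℝ} (hε : 0 < ε) (hε' : 0 < ε') (hε2 : ε' ≤ ε / 8) (hP : P.IsEquipartition) (hPε : P.IsUniform G ε')
    (hP' : 4 / ε ≤ P.parts.card) :
    (df G (G.regularityReduced P ε' (ε / 4)) : ℝ) ≤ 2 * ε * (Fintype.card V : ℝ) ^ 2 := by
  have h0 : df G (G.regularityReduced P ε' (ε / 4)) =
      ((univ : Finset (V × V)).filter (fun p => G.Adj p.1 p.2 ∧ ¬ (G.regularityReduced P ε' (ε / 4)).Adj p.1 p.2)).card := by
    rw [df, ← Set.ncard_coe_finset]
    congr 1
    ext p
    simp
  have h1 := card_le_card (unreduced_subset G P ε' (ε / 4))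
  have h2 := (h1.trans (card_union_le _ _)).trans (Nat.add_le_add_right (card_union_le _ _) _)
  rw [h0]
  have h3 := hP.sum_nonUniforms_lt univ_nonempty hε' hPε
  have h4 := hP.card_biUnion_offDiag_le hε hP'
  have h5 := hP.card_interedges_sparsePairs_le (G := G) (ε := ε / 4) (by positivity)
  rw [card_univ] at h3 h4 h5
  have h6 : (((univ : Finset (V × V)).filter (fun p => G.Adj p.1 p.2 ∧
      ¬ (G.regularityReduced P ε' (ε / 4)).Adj p.1 p.2)).card : ℝ) ≤
      (((P.nonUniforms G ε').biUnion fun (U, V) ↦ U ×ˢ V).card : ℝ) + ((P.parts.biUnion offDiag).card : ℝ) +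
        (((P.sparsePairs G (ε / 4)).biUnion fun (U, V) ↦ G.interedges U V).card : ℝ) := by exact_mod_cast h2
  have h7 : 4 * ε' * (Fintype.card V : ℝ) ^ 2 ≤ 4 * (ε / 8) * (Fintype.card V : ℝ) ^ 2 := by
    apply mul_le_mul_of_nonneg_right _ (by positivity)
    linarith
  calc _ ≤ _ := h6
    _ ≤ 4 * (ε / 8) * (Fintype.card V : ℝ) ^ 2 + ε / 2 * (Fintype.card V : ℝ) ^ 2 +
        4 * (ε / 4) * (Fintype.card V : ℝ) ^ 2 := add_le_add (add_le_add (h3.le.trans h7) h4) h5
    _ = _ := by ring

/-- **Removal lemma** for `K_r`: few labelled cliques -/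
theorem rem_few (r : ℕ) {κ : ℝ} (hκ : 0 < κ) : ∃ κ' : ℝ, 0 < κ' ∧ ∀ (V : Type) [Finite V] [Nonempty V]
    (G : SimpleGraph V), ((cq G Set.univ (Fin r)).ncard : ℝ) ≤ κ' * (Nat.card V : ℝ) ^ r →
      ∃ G' : SimpleGraph V, G' ≤ G ∧ G'.CliqueFree r ∧ (df G G' : ℝ) ≤ κ * (Nat.card V : ℝ) ^ 2 := by
  set ε : ℝ := min (κ / 2) 1 with hεdef
  have hε : 0 < ε := lt_min (by positivity) one_pos
  have hεκ : 2 * ε ≤ κ := by
    have := min_le_left (κ / 2) 1
    linarith
  have hε1 : ε ≤ 1 := min_le_right _ _
  obtain ⟨η, c, hη, hc, hcount⟩ := count_cliques (β := ε / 8) (by positivity) r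
  set ε' : ℝ := min η (ε / 8) with hε'def
  have hε' : 0 < ε' := lt_min hη (by positivity)
  set l : ℕ := ⌈4 / ε⌉₊ with hl
  set M : ℕ := SzemerediRegularity.bound ε' l with hM
  have hMpos : 0 < M := SzemerediRegularity.bound_pos _ _
  have hMr : (0 : ℝ) < M := by exact_mod_cast hMpos
  have hl1 : (0 : ℝ) < (l : ℝ) + 1 := by positivity
  refine ⟨min (1 / (2 * ((l : ℝ) + 1) ^ r)) (c * (1 / (2 * (M : ℝ))) ^ r / 2), lt_min (by positivity) (by positivity),
    fun V _ _ G hG => ?_⟩
  have := Fintype.ofFinite V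
  rw [Nat.card_eq_fintype_card] at hG ⊢
  have hn : (0 : ℝ) < Fintype.card V := by exact_mod_cast Fintype.card_pos
  have hcq : (cq G Set.univ (Fin r)).ncard = (Tr G (fun _ : Fin r => univ)).card := by
    rw [← Set.ncard_coe_finset]
    congr 1
    ext f
    simp [cq, Tr]
  rcases le_total (Fintype.card V) l with hnl | hnl
  · -- no cliques at all
    refine ⟨G, le_rfl, ?_, ?_⟩
    · by_contra hcon
      rw [SimpleGraph.not_cliqueFree_iff_top_isContained] at hcon
      obtain ⟨e⟩ := hcon
      have h1 : (Tr G (fun _ : Fin r => univ)).Nonempty := by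
        refine ⟨e, ?_⟩
        simp only [Tr, mem_filter, mem_univ, true_and, implies_true]
        intro i j hij
        exact e.toHom.map_adj (show (⊤ : SimpleGraph (Fin r)).Adj i j from hij)
      have h2 : (1 : ℝ) ≤ (Tr G (fun _ : Fin r => univ)).card := by exact_mod_cast h1.card_pos
      rw [hcq] at hG
      have h3 : (Fintype.card V : ℝ) ^ r ≤ ((l : ℝ) + 1) ^ r := by
        apply pow_le_pow_left₀ hn.le
        have : (Fintype.card V : ℝ) ≤ l := by exact_mod_cast hnl
        linarith
      have h4 : min (1 / (2 * ((l : ℝ) + 1) ^ r)) (c * (1 / (2 * (M : ℝ))) ^ r / 2) * (Fintype.card V : ℝ) ^ r ≤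
          1 / (2 * ((l : ℝ) + 1) ^ r) * ((l : ℝ) + 1) ^ r :=
        mul_le_mul (min_le_left _ _) h3 (by positivity) (by positivity)
      have h5 : 1 / (2 * ((l : ℝ) + 1) ^ r) * ((l : ℝ) + 1) ^ r = 1 / 2 := by
        field_simp
      linarith
    · have h1 : df G G = 0 := by simp [df]
      rw [h1, Nat.cast_zero]
      positivity
  · obtain ⟨P, hP1, hP2, hP3, hP4⟩ := szemeredi_regularity G hε' hnl
    have h4l : 4 / ε ≤ P.parts.card := (Nat.le_ceil _).trans (by exact_mod_cast hP2)
    refine ⟨G.regularityReduced P ε' (ε / 4), SimpleGraph.regularityReduced_le, ?_, ?_⟩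
    · by_contra hcon
      rw [SimpleGraph.not_cliqueFree_iff_top_isContained] at hcon
      obtain ⟨e⟩ := hcon
      have hadj : ∀ i j, i ≠ j → (G.regularityReduced P ε' (ε / 4)).Adj (e i) (e j) := fun i j hij =>
        e.toHom.map_adj (show (⊤ : SimpleGraph (Fin r)).Adj i j from hij)
      set A : Fin r → Finset V := fun i => P.part (e i) with hA
      have hAP : ∀ i, A i ∈ P.parts := fun i => P.part_mem.2 (mem_univ _)
      have heA : ∀ i, e i ∈ A i := fun i => P.mem_part (mem_univ _)
      have hpair : ∀ i j, i ≠ j → G.IsUniform ε' (A i) (A j) ∧ ε / 4 ≤ (G.edgeDensity (A i) (A j) : ℝ) := by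
        intro i j hij
        obtain ⟨-, U, hU, W, hW, h1, h2, -, h3, h4⟩ := hadj i j hij
        have e1 : U = A i := P.disjoint.elim hU (hAP i) (not_disjoint_iff.2 ⟨_, h1, heA i⟩)
        have e2 : W = A j := P.disjoint.elim hW (hAP j) (not_disjoint_iff.2 ⟨_, h2, heA j⟩)
        rw [← e1, ← e2]
        exact ⟨h3, h4⟩
      have h1 := hcount G A (by
        intro i j hij S hS T hT hSc hTc
        obtain ⟨u1, u2⟩ := hpair i j hij
        have e1 : ε' ≤ η := min_le_left _ _
        have e2 : ε' ≤ ε / 8 := min_le_right _ _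
        have u3 := u1 hS hT (by
          refine le_trans ?_ hSc
          rw [mul_comm]
          exact mul_le_mul_of_nonneg_right e1 (Nat.cast_nonneg _)) (by
          refine le_trans ?_ hTc
          rw [mul_comm]
          exact mul_le_mul_of_nonneg_right e1 (Nat.cast_nonneg _))
        rw [abs_lt] at u3
        have u4 : ε / 8 ≤ (G.edgeDensity S T : ℝ) := by linarith [u3.1]
        rw [SimpleGraph.edgeDensity_def] at u4
        push_cast at u4
        by_cases hz : (S.card * T.card : ℝ) = 0
        · rw [hz, mul_zero]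
          exact Nat.cast_nonneg _
        · have hz' : (0 : ℝ) < S.card * T.card := lt_of_le_of_ne (by positivity) (Ne.symm hz)
          rwa [le_div_iff₀ hz'] at u4)
      have h2 : ((Tr G A).card : ℝ) ≤ (Tr G (fun _ : Fin r => univ)).card := by
        apply Nat.cast_le.2
        apply card_le_card
        intro f hf
        simp only [Tr, mem_filter, mem_univ, true_and, implies_true] at hf ⊢
        exact hf.2
      have h3 : ((Fintype.card V : ℝ) / (2 * M)) ^ r ≤ ∏ i, ((A i).card : ℝ) := by
        have h4 : ∏ _i : Fin r, ((Fintype.card V : ℝ) / (2 * M)) ≤ ∏ i, ((A i).card : ℝ) :=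
          prod_le_prod (fun i _ => by positivity) fun i _ => card_part_ge hP1 hP3 (hAP i)
        rwa [prod_const, card_univ, Fintype.card_fin] at h4
      rw [hcq] at hG
      have h4 : c * ((Fintype.card V : ℝ) / (2 * M)) ^ r ≤ c * ∏ i, ((A i).card : ℝ) :=
        mul_le_mul_of_nonneg_left h3 hc.le
      have h5 : min (1 / (2 * ((l : ℝ) + 1) ^ r)) (c * (1 / (2 * (M : ℝ))) ^ r / 2) * (Fintype.card V : ℝ) ^ r ≤
          c * (1 / (2 * (M : ℝ))) ^ r / 2 * (Fintype.card V : ℝ) ^ r :=
        mul_le_mul_of_nonneg_right (min_le_right _ _) (by positivity)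
      have h6 : c * (1 / (2 * (M : ℝ))) ^ r / 2 * (Fintype.card V : ℝ) ^ r = c * ((Fintype.card V : ℝ) / (2 * M)) ^ r / 2 := by
        rw [div_pow, div_pow, one_pow]
        ring
      have h7 : 0 < c * ((Fintype.card V : ℝ) / (2 * M)) ^ r := by positivity
      linarith
    · refine (df_reduced hε hε' (min_le_right _ _) hP1 hP4 h4l).trans ?_
      exact mul_le_mul_of_nonneg_right hεκ (by positivity)

/-- **Removal lemma** for `K_r`: no copy of `K_r(t)` -/
theorem rem_free (r t : ℕ) {κ : ℝ} (hκ : 0 < κ) : ∃ n₀ : ℕ, ∀ (V : Type) [Finite V] (G : SimpleGraph V),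
    n₀ ≤ Nat.card V → (SimpleGraph.completeEquipartiteGraph r t).Free G →
      ∃ G' : SimpleGraph V, G' ≤ G ∧ G'.CliqueFree r ∧ (df G G' : ℝ) ≤ κ * (Nat.card V : ℝ) ^ 2 := by
  obtain ⟨κ', hκ', h⟩ := rem_few r hκ
  obtain ⟨n₀, hn₀⟩ := emb_gen (F := SimpleGraph.completeEquipartiteGraph r t) (ι := Fin r)
    (fun u => some u.1) hκ'
  refine ⟨n₀ + 1, fun V _ G hV hG => ?_⟩
  have hne : Nonempty V := (Nat.card_pos_iff.1 (by omega)).1
  apply h V G
  by_contra hcon
  push Not at hcon
  apply hG
  refine hn₀ V (by omega) G (fun _ => Classical.arbitrary V) (cq G Set.univ (Fin r)) (by simp) (by simp) (by simp) ?_ ?_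
  · intro u v i j huv hi hj Q hQ
    have h1 : u.1 ≠ v.1 := by
      rw [SimpleGraph.completeEquipartiteGraph_adj] at huv
      exact huv
    have h2 : u.1 = i := by simpa using hi
    have h3 : v.1 = j := by simpa using hj
    exact hQ.2 i j (by rw [← h2, ← h3]; exact h1)
  · rw [Nat.card_fin]
    exact hcon.le

end Pool.Agent.WTE
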