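import Pool.Agent.WTE.Defs
import Pool.Agent.WT7.FinM

/-!
# [WTE-Book] books (helper57)

`Book t`: an edge and `t` vertices adjacent to both of its ends (`K_{1,1,t}`). It is 3-chromatic with a colour-critical edge. A graph with at most
`e` vertices in triangles is `Book (e+1)`-free. `b_to_c`: if `H` is weakly `Book t`-Turan-good for all `t ≥ 1` then for large `n` every graph on
`n` vertices with at most `e` vertices in triangles has at most `ex(n, H, K₃)` copies of `H`.
-/

set_option autoImplicit false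

namespace Pool.Agent.WTE

open Pool.Agent.WT7

variable {α β V : Type}

/-- the book `K_{1,1,t}` -/
def Book (t : ℕ) : SimpleGraph (_root_.Fin 2 ⊕ _root_.Fin t) :=
  completeBipartiteGraph _ _ ⊔ SimpleGraph.edge (Sum.inl 0) (Sum.inl 1)

private theorem book_lr {t : ℕ} (i : _root_.Fin 2) (j : _root_.Fin t) : (Book t).Adj (Sum.inl i) (Sum.inr j) := by
  unfold Book
  rw [SimpleGraph.sup_adj]
  left
  simp

private theorem book_01 {t : ℕ} : (Book t).Adj (Sum.inl 0) (Sum.inl 1) := by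
  unfold Book
  rw [SimpleGraph.sup_adj]
  right
  rw [SimpleGraph.edge_adj]
  simp

private theorem book_rr {t : ℕ} (i j : _root_.Fin t) : ¬ (Book t).Adj (Sum.inr i) (Sum.inr j) := by
  unfold Book
  rw [SimpleGraph.sup_adj, SimpleGraph.edge_adj]
  simp

private theorem book_ll {t : ℕ} (i j : _root_.Fin 2) (h : (Book t).Adj (Sum.inl i) (Sum.inl j)) : i ≠ j := by
  rintro rfl
  exact (Book t).loopless.irrefl _ h

theorem book_chi {t : ℕ} (ht : 1 ≤ t) : (Book t).chromaticNumber = 3 := by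
  refine le_antisymm ?_ ?_
  · have h : (Book t).Colorable 3 := by
      refine ⟨SimpleGraph.Coloring.mk
        (fun v => (Sum.elim (fun i : _root_.Fin 2 => (i.castSucc : _root_.Fin 3)) (fun _ => Fin.last 2) v)) ?_⟩
      rintro (i | i) (j | j) hij
      · have := book_ll i j hij
        intro h
        exact this (Fin.castSucc_injective _ h)
      · exact (Fin.castSucc_lt_last i).ne
      · exact (Fin.castSucc_lt_last j).ne'
      · exact absurd hij (book_rr i j)
    exact h.chromaticNumber_le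
  · have hcl : (Book t).IsClique (({Sum.inl 0, Sum.inl 1, Sum.inr ⟨0, ht⟩} :
        Finset (_root_.Fin 2 ⊕ _root_.Fin t)) : Set (_root_.Fin 2 ⊕ _root_.Fin t)) := by
      have h3 : (Book t).IsNClique 3 {Sum.inl 0, Sum.inl 1, Sum.inr ⟨0, ht⟩} :=
        SimpleGraph.is3Clique_triple_iff.2 ⟨book_01, book_lr _ _, book_lr _ _⟩
      exact h3.1
    have h := hcl.card_le_chromaticNumber
    have hc : ({Sum.inl 0, Sum.inl 1, Sum.inr ⟨0, ht⟩} : Finset (_root_.Fin 2 ⊕ _root_.Fin t)).card = 3 := by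
      have h3 : (Book t).IsNClique 3 {Sum.inl 0, Sum.inl 1, Sum.inr ⟨0, ht⟩} :=
        SimpleGraph.is3Clique_triple_iff.2 ⟨book_01, book_lr _ _, book_lr _ _⟩
      exact h3.2
    rw [hc] at h
    exact h

theorem book_crit {t : ℕ} (ht : 1 ≤ t) : ∃ e, IsColorCritical (Book t) e := by
  refine ⟨s(Sum.inl 0, Sum.inl 1), book_01, ?_⟩
  rw [book_chi ht]
  have h : ((Book t).deleteEdges {s(Sum.inl 0, Sum.inl 1)}).Colorable 2 := by
    refine ⟨SimpleGraph.Coloring.mk
      (fun v => (Sum.elim (fun _ => (0 : _root_.Fin 2)) (fun _ => 1) v)) ?_⟩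
    rintro (i | i) (j | j) hij
    · rw [SimpleGraph.deleteEdges_adj] at hij
      exfalso
      obtain ⟨h1, h2⟩ := hij
      have h3 := book_ll i j h1
      apply h2
      rw [Set.mem_singleton_iff, Sym2.eq_iff]
      fin_cases i <;> fin_cases j
      · exact absurd rfl h3
      · exact Or.inl ⟨rfl, rfl⟩
      · exact Or.inr ⟨rfl, rfl⟩
      · exact absurd rfl h3
    · simp
    · simp
    · rw [SimpleGraph.deleteEdges_adj] at hij
      exact absurd hij.1 (book_rr i j)
  have h1 := h.chromaticNumber_le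
  refine lt_of_le_of_lt h1 ?_
  norm_num

theorem book_free [Finite V] {G : SimpleGraph V} {e : ℕ} (h : (Tri G).ncard ≤ e) : (Book (e + 1)).Free G := by
  rintro ⟨f⟩
  have h1 : (Set.range (fun i : _root_.Fin (e + 1) => f (Sum.inr i))) ⊆ Tri G := by
    rintro _ ⟨i, rfl⟩
    exact ⟨f (Sum.inl 0), f (Sum.inl 1), f.toHom.map_adj (book_lr 0 i).symm, f.toHom.map_adj (book_lr 1 i).symm,
      f.toHom.map_adj book_01⟩
  have h2 := Set.ncard_le_ncard h1 (Set.toFinite _)
  have hinj : Function.Injective (fun i : _root_.Fin (e + 1) => f (Sum.inr i)) := by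
    intro i j hij
    exact Sum.inr_injective (f.injective hij)
  rw [← Set.image_univ, Set.ncard_image_of_injective _ hinj, Set.ncard_univ, Nat.card_fin] at h2
  omega

private theorem bk_bdd [Finite α] (H : SimpleGraph α) (n : ℕ) (P : SimpleGraph (_root_.Fin n) → Prop) :
    BddAbove {m | ∃ G : SimpleGraph (_root_.Fin n), P G ∧ G.copyCount H = m} := by
  refine ⟨Nat.card (_root_.Fin n) ^ Nat.card α, ?_⟩
  rintro m ⟨G, -, rfl⟩
  have h1 := (inj_le_hom H G).trans (hom_le_pow H G)
  rw [inj_eq_aut_mul] at h1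
  exact (Nat.le_mul_of_pos_left _ (aut_pos H)).trans h1

theorem copyCount_le_ex [Finite α] (H : SimpleGraph α) (F : SimpleGraph β) {n : ℕ}
    {G : SimpleGraph (_root_.Fin n)} (hG : F.Free G) : G.copyCount H ≤ ex n H F :=
  le_csSup (bk_bdd H n _) ⟨G, hG, rfl⟩

/-- a complete 2-partite graph is triangle-free -/
theorem free_of_bip {W : Type} {G : SimpleGraph W} (hG : IsCompletePartite G 2) :
    (⊤ : SimpleGraph (_root_.Fin 3)).Free G := by
  rintro ⟨f⟩
  obtain ⟨d, -, hd⟩ := hG
  have h2 : (⊤ : SimpleGraph (_root_.Fin 3)).Colorable 2 := by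
    refine ⟨SimpleGraph.Coloring.mk (fun x => d (f x)) ?_⟩
    intro x y hxy
    exact (hd _ _).1 (f.toHom.map_adj hxy)
  have h' := h2.chromaticNumber_le
  rw [SimpleGraph.chromaticNumber_top, Fintype.card_fin] at h'
  exact absurd h' (by decide)

theorem b_to_c [Finite α] {H : SimpleGraph α} (hb : ∀ t, 1 ≤ t → WeaklyTuranGood H (Book t)) (e : ℕ) :
    ∃ n₀ : ℕ, ∀ n ≥ n₀, ∀ G : SimpleGraph (_root_.Fin n), (Tri G).ncard ≤ e →
      G.copyCount H ≤ ex n H (⊤ : SimpleGraph (_root_.Fin 3)) := by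
  obtain ⟨k, hk, n₀, hn₀⟩ := hb (e + 1) (by omega)
  have hk2 : k = 2 := by
    rw [book_chi (by omega)] at hk
    have hk' : ((3 : ℕ) : ℕ∞) = ((k + 1 : ℕ) : ℕ∞) := hk
    have h := Nat.cast_injective (R := ℕ∞) hk'
    omega
  subst hk2
  refine ⟨n₀, fun n hn G hG => ?_⟩
  obtain ⟨G₀, hG₀, hG₀'⟩ := hn₀ n hn
  calc G.copyCount H ≤ ex n H (Book (e + 1)) := copyCount_le_ex H _ (book_free hG)
    _ = G₀.copyCount H := hG₀'.symm
    _ ≤ ex n H (⊤ : SimpleGraph (_root_.Fin 3)) := copyCount_le_ex H _ (free_of_bip hG₀)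

end Pool.Agent.WTE
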