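import Pool.Agent.WTE.Defs
import Pool.Agent.WT7.FinM

/-!
# [WTE-Degen] (c) implies that `H` is bipartite

If `H` is weakly `K₃`-Turan-good and not 2-colourable then `ex n H K₃ = 0` for large `n` (complete bipartite graphs contain no copy of `H`), but `H` with
isolated vertices added has at most `|V(H)|` vertices in triangles and contains a copy of `H`.
-/

set_option autoImplicit false

namespace Pool.Agent.WTE

open Pool.Agent.WT7

variable {α : Type}

theorem col_of_c [Finite α] {H : SimpleGraph α} (hg : WeaklyTuranGood H (⊤ : SimpleGraph (_root_.Fin 3)))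
    (hc : ∀ e, ∃ n₀, ∀ n ≥ n₀, ∀ G : SimpleGraph (_root_.Fin n), (Tri G).ncard ≤ e →
      G.copyCount H ≤ ex n H (⊤ : SimpleGraph (_root_.Fin 3))) : H.Colorable 2 := by
  classical
  by_contra hH
  obtain ⟨k, hk, n₁, hn₁⟩ := hg
  have hk2 : k = 2 := by
    rw [SimpleGraph.chromaticNumber_top, Fintype.card_fin] at hk
    have h := Nat.cast_injective (R := ℕ∞) hk
    omega
  subst hk2
  have hfin := Fintype.ofFinite α
  obtain ⟨n₀, hn₀⟩ := hc (Fintype.card α)
  set n := max (max n₀ n₁) (Fintype.card α) with hn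
  have hcard : Fintype.card α ≤ Fintype.card (_root_.Fin n) := by
    rw [Fintype.card_fin, hn]
    exact le_max_right _ _
  obtain ⟨ι⟩ := Function.Embedding.nonempty_of_card_le hcard
  obtain ⟨G, ⟨d, -, hd⟩, hG'⟩ := hn₁ n ((le_max_right _ _).trans (le_max_left _ _))
  have h0 : G.copyCount H = 0 := by
    rw [SimpleGraph.copyCount_eq_zero]
    rintro ⟨f⟩
    refine hH ⟨SimpleGraph.Coloring.mk (fun x => d (f x)) ?_⟩
    intro x y hxy
    exact (hd _ _).1 (f.toHom.map_adj hxy)
  have hT : (Tri (H.map ι)).ncard ≤ Fintype.card α := by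
    have h1 : Tri (H.map ι) ⊆ Set.range ι := by
      rintro v ⟨a, b, ha, -, -⟩
      obtain ⟨x, y, -, hx, -⟩ := (SimpleGraph.map_adj ι H v a).1 ha
      exact ⟨x, hx⟩
    refine (Set.ncard_le_ncard h1 (Set.toFinite _)).trans ?_
    rw [← Set.image_univ]
    refine (Set.ncard_image_le (Set.toFinite _)).trans ?_
    rw [Set.ncard_univ, Nat.card_eq_fintype_card]
  have h2 := hn₀ n ((le_max_left _ _).trans (le_max_left _ _)) (H.map ι) hT
  rw [← hG', h0] at h2
  have h3 : 0 < (H.map ι).copyCount H := by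
    rw [SimpleGraph.copyCount_pos]
    exact ⟨(SimpleGraph.Embedding.map ι H).toCopy⟩
  omega

end Pool.Agent.WTE
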