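import Mathlib

/-!
# [WTE-Arith] the two final inequalities
-/

set_option autoImplicit false

namespace Pool.Agent.WTE

theorem arith1 {c β B T κ k c₃ κ₂ Cr e m m' d : ℝ} (hc : 0 < c) (hβ : 0 < β) (hβ1 : β ≤ 1) (hB : 0 < B)
    (hBβ : B * β ≤ c / 4) (hT : 4 * T * κ ≤ c * β / 16) (hm' : 0 ≤ m') (hm'1 : m' ≤ β * m)
    (hm'2 : β * m / 2 ≤ m') (hm : 0 < m) (hme : m ≤ e) (hk : 0 < k) (hek : e ≤ 16 * k * m)
    (hc3 : 0 ≤ c₃) (hc₃ : 1024 * c₃ * k ≤ c * β) (hd : d ≤ κ₂ * e ^ 2) (hκ₂ : B * κ₂ * (4096 * k ^ 2) ≤ c * β)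
    (hCr : 0 ≤ Cr)
    (h : m' * m * c ≤ (m + m') * (2 * c₃ * e) + (4 * T * κ * m ^ 2 + 4 * T * κ * m * m' + B * m' ^ 2 +
      B * (d + 2 * (e * Cr) + 2 * (m * Cr)))) : c * β * e ≤ 16384 * k ^ 2 * B * Cr := by
  have he : 0 < e := lt_of_lt_of_le hm hme
  have hm'm : m' ≤ m := by nlinarith
  have hcβ : 0 < c * β := mul_pos hc hβ
  have hcβ1 : c * β ≤ c := by nlinarith
  -- first move error
  have e1 : 4 * T * κ * m ^ 2 ≤ c * β / 16 * m ^ 2 := mul_le_mul_of_nonneg_right hT (by positivity)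
  have e2 : 4 * T * κ * m * m' ≤ c / 16 * (m * m') := by
    have h1 : 4 * T * κ ≤ c / 16 := by linarith
    have h2 := mul_le_mul_of_nonneg_right h1 (mul_nonneg hm.le hm')
    calc 4 * T * κ * m * m' = 4 * T * κ * (m * m') := by ring
      _ ≤ _ := h2
  have e3 : B * m' ^ 2 ≤ c / 4 * (m * m') := by
    have h1 : B * m' ≤ c / 4 * m := by
      calc B * m' ≤ B * (β * m) := mul_le_mul_of_nonneg_left hm'1 hB.le
        _ = (B * β) * m := by ring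
        _ ≤ c / 4 * m := mul_le_mul_of_nonneg_right hBβ hm.le
    have h2 := mul_le_mul_of_nonneg_right h1 hm'
    calc B * m' ^ 2 = B * m' * m' := by ring
      _ ≤ c / 4 * m * m' := h2
      _ = _ := by ring
  have e4 : (m + m') * (2 * c₃ * e) ≤ c * β / 16 * m ^ 2 := by
    have h1 : 2 * c₃ * e ≤ 32 * c₃ * k * m := by
      calc 2 * c₃ * e ≤ 2 * c₃ * (16 * k * m) := mul_le_mul_of_nonneg_left hek (by positivity)
        _ = _ := by ring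
    have h2 : (m + m') * (2 * c₃ * e) ≤ (2 * m) * (32 * c₃ * k * m) :=
      mul_le_mul (by linarith) h1 (by positivity) (by positivity)
    have h3 : (2 * m) * (32 * c₃ * k * m) = (1024 * c₃ * k) * (m ^ 2 / 16) := by ring
    have h4 := mul_le_mul_of_nonneg_right hc₃ (show 0 ≤ m ^ 2 / 16 by positivity)
    linarith
  have e5 : 11 / 32 * (c * β) * m ^ 2 ≤ 11 / 16 * c * (m * m') := by
    have h1 : m * (β * m / 2) ≤ m * m' := mul_le_mul_of_nonneg_left hm'2 hm.le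
    have h2 := mul_le_mul_of_nonneg_left h1 (show 0 ≤ 11 / 16 * c by positivity)
    calc 11 / 32 * (c * β) * m ^ 2 = 11 / 16 * c * (m * (β * m / 2)) := by ring
      _ ≤ _ := h2
  have e6 : B * (d + 2 * (e * Cr) + 2 * (m * Cr)) ≤ B * (κ₂ * e ^ 2) + 4 * B * Cr * e := by
    have h1 : m * Cr ≤ e * Cr := mul_le_mul_of_nonneg_right hme hCr
    have h2 : d + 2 * (e * Cr) + 2 * (m * Cr) ≤ κ₂ * e ^ 2 + 4 * (e * Cr) := by linarith
    have h3 := mul_le_mul_of_nonneg_left h2 hB.le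
    linarith
  have e7 : 7 / 32 * (c * β) * m ^ 2 ≤ B * (κ₂ * e ^ 2) + 4 * B * Cr * e := by nlinarith
  -- multiply by 256 k²
  have e8 : e ^ 2 ≤ 256 * k ^ 2 * m ^ 2 := by
    have h1 : e ^ 2 ≤ (16 * k * m) ^ 2 := pow_le_pow_left₀ he.le hek 2
    calc e ^ 2 ≤ (16 * k * m) ^ 2 := h1
      _ = _ := by ring
  have e9 : 7 / 32 * (c * β) * e ^ 2 ≤ 256 * k ^ 2 * (B * (κ₂ * e ^ 2) + 4 * B * Cr * e) := by
    have h1 := mul_le_mul_of_nonneg_left e8 (show 0 ≤ 7 / 32 * (c * β) by positivity)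
    have h2 := mul_le_mul_of_nonneg_left e7 (show 0 ≤ 256 * k ^ 2 by positivity)
    calc 7 / 32 * (c * β) * e ^ 2 ≤ 7 / 32 * (c * β) * (256 * k ^ 2 * m ^ 2) := h1
      _ = 256 * k ^ 2 * (7 / 32 * (c * β) * m ^ 2) := by ring
      _ ≤ _ := h2
  have e10 : 256 * k ^ 2 * (B * (κ₂ * e ^ 2)) ≤ c * β / 16 * e ^ 2 := by
    have h1 := mul_le_mul_of_nonneg_right hκ₂ (show 0 ≤ e ^ 2 / 16 by positivity)
    calc 256 * k ^ 2 * (B * (κ₂ * e ^ 2)) = B * κ₂ * (4096 * k ^ 2) * (e ^ 2 / 16) := by ring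
      _ ≤ c * β * (e ^ 2 / 16) := h1
      _ = _ := by ring
  have e11 : c * β / 16 * e ^ 2 ≤ 1024 * k ^ 2 * B * Cr * e := by
    have h0 : 0 ≤ c * β * e ^ 2 := by positivity
    nlinarith
  have e12 : (c * β * e) * e ≤ (16384 * k ^ 2 * B * Cr) * e := by nlinarith
  exact le_of_mul_le_mul_right e12 he

theorem arith2 {c₃ B κ₂ Cr e m d : ℝ} (hc₃ : 0 < c₃) (hB : 0 < B) (he : 0 < e) (hm : 0 ≤ m)
    (hm1 : 2 * B * m ≤ c₃ * e) (hm2 : c₃ * e ≤ 2 * B * (m + 1)) (hd : d ≤ κ₂ * e ^ 2)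
    (hκ₂ : 8 * B ^ 2 * κ₂ ≤ c₃ ^ 2) (h : m * (c₃ * e) ≤ B * (d + e * Cr + m ^ 2)) :
    c₃ ^ 2 * e ≤ 8 * B * (c₃ / 2 + B * Cr) := by
  have h1 : m * (c₃ * e / 2) ≤ B * (κ₂ * e ^ 2 + e * Cr) := by
    have h2 : B * m ≤ c₃ * e / 2 := by linarith
    have h3 := mul_le_mul_of_nonneg_left h2 hm
    have h4 := mul_le_mul_of_nonneg_left hd hB.le
    nlinarith
  have h2 : (c₃ * e - 2 * B) * (c₃ * e / 2) ≤ 2 * B * (B * (κ₂ * e ^ 2 + e * Cr)) := by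
    have h3 : (c₃ * e - 2 * B) * (c₃ * e / 2) ≤ (2 * B * m) * (c₃ * e / 2) :=
      mul_le_mul_of_nonneg_right (by linarith) (by positivity)
    have h4 := mul_le_mul_of_nonneg_left h1 (show 0 ≤ 2 * B by positivity)
    linarith
  have h3 : 2 * B * (B * (κ₂ * e ^ 2)) ≤ c₃ ^ 2 * e ^ 2 / 4 := by
    have h4 := mul_le_mul_of_nonneg_right hκ₂ (show 0 ≤ e ^ 2 / 4 by positivity)
    nlinarith
  have h4 : (c₃ ^ 2 * e) * e ≤ (8 * B * (c₃ / 2 + B * Cr)) * e := by nlinarith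
  exact le_of_mul_le_mul_right h4 he

end Pool.Agent.WTE
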