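import Pool.Agent.WTE.Defs

/-!
# [WTE-Cnt] counting maps through a prescribed tuple
-/

set_option autoImplicit false

namespace Pool.Agent.WTE

open Pool.Agent.WT7

variable {α β V : Type}

private theorem cnt_one [Finite α] [Finite V] (k : ℕ) (ι : Fin k → α) (hι : Function.Injective ι) (R : Set (Fin k → V)) :
    Set.ncard {f : α → V | f ∘ ι ∈ R} ≤ R.ncard * Nat.card V ^ (Nat.card α - k) := by
  classical
  have hcard : Nat.card {z : α // z ∉ Set.range ι} = Nat.card α - k := by
    have h1 := Set.ncard_add_ncard_compl (Set.range ι)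
    rw [← Set.image_univ, Set.ncard_image_of_injective _ hι, Set.ncard_univ, Nat.card_fin] at h1
    have h2 : Nat.card {z : α // z ∉ Set.range ι} = ((Set.range ι)ᶜ).ncard := by
      rw [← Nat.card_coe_set_eq]
      rfl
    rw [Set.image_univ] at h1
    omega
  have h := Set.ncard_le_ncard_of_injOn (s := {f : α → V | f ∘ ι ∈ R})
    (t := R ×ˢ (Set.univ : Set ({z : α // z ∉ Set.range ι} → V)))
    (fun f => (f ∘ ι, fun z => f z.1)) (fun f hf => ⟨hf, Set.mem_univ _⟩) (by
      intro f _ g _ hfg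
      simp only [Prod.mk.injEq] at hfg
      obtain ⟨h1, h3⟩ := hfg
      funext z
      by_cases hz : z ∈ Set.range ι
      · obtain ⟨i, rfl⟩ := hz
        exact congrFun h1 i
      · exact congrFun h3 ⟨z, hz⟩) (Set.toFinite _)
  rwa [Set.ncard_prod, Set.ncard_univ, Nat.card_fun, hcard] at h

/-- the maps through a tuple of `R` -/
theorem cntk [Finite α] [Finite V] (k : ℕ) (R : Set (Fin k → V)) :
    Set.ncard {f : α → V | ∃ ι : Fin k → α, Function.Injective ι ∧ f ∘ ι ∈ R} ≤
      Nat.card α ^ k * (R.ncard * Nat.card V ^ (Nat.card α - k)) := by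
  classical
  have := Fintype.ofFinite α
  have h1 : {f : α → V | ∃ ι : Fin k → α, Function.Injective ι ∧ f ∘ ι ∈ R} ⊆
      ⋃ ι : Fin k → α, {f : α → V | Function.Injective ι ∧ f ∘ ι ∈ R} := by
    rintro f ⟨ι, h⟩
    exact Set.mem_iUnion.2 ⟨ι, h⟩
  refine (Set.ncard_le_ncard h1 (Set.toFinite _)).trans ?_
  refine (Set.ncard_iUnion_le_of_fintype _).trans ?_
  have h2 : ∀ ι ∈ (Finset.univ : Finset (Fin k → α)),
      Set.ncard {f : α → V | Function.Injective ι ∧ f ∘ ι ∈ R} ≤ R.ncard * Nat.card V ^ (Nat.card α - k) := by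
    intro ι _
    by_cases hι : Function.Injective ι
    · refine (Set.ncard_le_ncard ?_ (Set.toFinite _)).trans (cnt_one k ι hι R)
      exact fun f hf => hf.2
    · have : {f : α → V | Function.Injective ι ∧ f ∘ ι ∈ R} = ∅ := by
        ext f
        simp [hι]
      rw [this, Set.ncard_empty]
      exact Nat.zero_le _
  refine (Finset.sum_le_card_nsmul _ _ _ h2).trans (le_of_eq ?_)
  rw [Finset.card_univ, Fintype.card_fun, Fintype.card_fin, smul_eq_mul, Nat.card_eq_fintype_card (α := α)]

/-- labelled copies through two vertices -/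
theorem two_le [Finite α] [Finite V] (H : SimpleGraph α) (G : SimpleGraph V) {v w : V} (hvw : v ≠ w) :
    Set.ncard {f : α → V | IsInj H G f ∧ (∃ x, f x = v) ∧ ∃ y, f y = w} ≤
      Nat.card α ^ 2 * Nat.card V ^ (Nat.card α - 2) := by
  have h := cntk (α := α) 2 ({![v, w]} : Set (Fin 2 → V))
  rw [Set.ncard_singleton, one_mul] at h
  refine (Set.ncard_le_ncard ?_ (Set.toFinite _)).trans h
  rintro f ⟨hf, ⟨x, hx⟩, y, hy⟩
  have hxy : x ≠ y := by
    rintro rfl
    exact hvw (hx.symm.trans hy)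
  refine ⟨![x, y], ?_, ?_⟩
  · intro i j hij
    fin_cases i <;> fin_cases j <;> simp_all
  · rw [Set.mem_singleton_iff]
    funext i
    fin_cases i <;> simp [hx, hy]

/-- comparison of `dg` in two graphs: the pairs which are lost do not contain `v` -/
theorem dg_cmp [Finite α] [Finite V] (H : SimpleGraph α) (G G' : SimpleGraph V) (v : V)
    (hR : ∀ a b, G.Adj a b → ¬ G'.Adj a b → a ≠ v ∧ b ≠ v) (T : Set (α → V))
    (hT : ∀ f, IsInj H G f → (∃ x, f x = v) → IsInj H G' f → f ∈ T) :
    (Nat.card V : ℝ) * dg H G v ≤ (Nat.card V : ℝ) * T.ncard +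
      (Nat.card α : ℝ) ^ 3 * ((df G G' : ℝ) * (Nat.card V : ℝ) ^ (Nat.card α - 2)) := by
  classical
  set R : Set (Fin 3 → V) := {g | g 0 = v ∧ G.Adj (g 1) (g 2) ∧ ¬ G'.Adj (g 1) (g 2)} with hRdef
  have hRc : R.ncard ≤ df G G' := by
    unfold df
    refine Set.ncard_le_ncard_of_injOn (fun g => (g 1, g 2)) ?_ ?_ (Set.toFinite _)
    · rintro g ⟨-, h1, h2⟩
      exact ⟨h1, h2⟩
    · rintro g ⟨h1, -, -⟩ g' ⟨h1', -, -⟩ hgg
      simp only [Prod.mk.injEq] at hgg
      funext i
      fin_cases i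
      · exact h1.trans h1'.symm
      · exact hgg.1
      · exact hgg.2
  set Bd : Set (α → V) := {f : α → V | ∃ ι : Fin 3 → α, Function.Injective ι ∧ f ∘ ι ∈ R} with hBd
  have h1 : dg H G v ≤ T.ncard + Bd.ncard := by
    unfold dg
    refine (Set.ncard_le_ncard ?_ (Set.toFinite _)).trans (Set.ncard_union_le _ _)
    rintro f ⟨hf, x, hx⟩
    by_cases hf' : IsInj H G' f
    · exact Or.inl (hT f hf ⟨x, hx⟩ hf')
    · right
      have : ¬ IsHom H G' f := fun h => hf' ⟨hf.1, h⟩
      unfold IsHom at this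
      push Not at this
      obtain ⟨a, b, hab, hn⟩ := this
      have hG := hf.2 a b hab
      obtain ⟨ha, hb⟩ := hR _ _ hG hn
      have hxa : x ≠ a := by
        rintro rfl
        exact ha hx
      have hxb : x ≠ b := by
        rintro rfl
        exact hb hx
      have hab' : a ≠ b := hab.ne
      refine ⟨![x, a, b], ?_, ?_⟩
      · intro i j hij
        fin_cases i <;> fin_cases j <;> simp_all
      · refine ⟨?_, ?_, ?_⟩
        · simp [hx]
        · simpa using hG
        · simpa using hn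
  have h2 : (Nat.card V) * Bd.ncard ≤ Nat.card α ^ 3 * (df G G' * Nat.card V ^ (Nat.card α - 2)) := by
    by_cases h3 : 3 ≤ Nat.card α
    · have h4 := cntk (α := α) 3 R
      have h5 : Nat.card V ^ (Nat.card α - 2) = Nat.card V * Nat.card V ^ (Nat.card α - 3) := by
        rw [← pow_succ']
        congr 1
        omega
      rw [h5]
      calc Nat.card V * Bd.ncard ≤ Nat.card V * (Nat.card α ^ 3 * (R.ncard * Nat.card V ^ (Nat.card α - 3))) :=
            Nat.mul_le_mul_left _ h4
        _ ≤ Nat.card V * (Nat.card α ^ 3 * (df G G' * Nat.card V ^ (Nat.card α - 3))) :=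
            Nat.mul_le_mul_left _ (Nat.mul_le_mul_left _ (Nat.mul_le_mul_right _ hRc))
        _ = _ := by ring
    · have h4 : Bd = ∅ := by
        rw [Set.eq_empty_iff_forall_notMem]
        rintro f ⟨ι, hι, -⟩
        have := Fintype.ofFinite α
        have h5 := Fintype.card_le_of_injective ι hι
        rw [Fintype.card_fin, ← Nat.card_eq_fintype_card] at h5
        exact h3 h5
      rw [h4, Set.ncard_empty, Nat.mul_zero]
      exact Nat.zero_le _
  have h3 : Nat.card V * dg H G v ≤ Nat.card V * T.ncard + Nat.card α ^ 3 * (df G G' * Nat.card V ^ (Nat.card α - 2)) := by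
    calc Nat.card V * dg H G v ≤ Nat.card V * (T.ncard + Bd.ncard) := Nat.mul_le_mul_left _ h1
      _ = Nat.card V * T.ncard + Nat.card V * Bd.ncard := by ring
      _ ≤ _ := Nat.add_le_add_left h2 _
  exact_mod_cast h3

end Pool.Agent.WTE
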