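import Pool.Agent.WTE.Defs
import Pool.Agent.WT7.Pig

/-!
# [WTE-CodC] constant codegrees

`t = Nat.card β`, `n = |V|`. Let `X = N(a) ∩ N(b)` have more than `C ≥ (2 / c₀)^t t` elements. Every `x ∈ X` has at least `c₀ n` neighbours. `pig` (`A = univ`, `N = n`, `δ = c₀`, `B = {a, b}`):
`P` of size `t` without `a, b`, `X' ⊆ X` complete to `P`, `|X'| ≥ (c₀/2)^t |X| ≥ t`. `Q = X'`, `embCrt`.
-/

set_option autoImplicit false

namespace Pool.Agent.WTE

open Pool.Agent.WT7

variable {α β V : Type}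

private lemma crt_inj [Finite β] [Nonempty β] {P : Set V} (h : Nat.card β ≤ P.ncard) :
    ∃ f : β → V, Function.Injective f ∧ ∀ x, f x ∈ P := by
  classical
  have hpos : 0 < Nat.card β := Nat.card_pos
  have hfin : P.Finite := Set.finite_of_ncard_pos (by omega)
  have : Fintype β := Fintype.ofFinite β
  have : Fintype P := hfin.fintype
  have hc : Fintype.card β ≤ Fintype.card P := by
    rw [← Nat.card_eq_fintype_card, ← Nat.card_eq_fintype_card, Nat.card_coe_set_eq]
    exact h
  obtain ⟨g⟩ := Function.Embedding.nonempty_of_card_le hc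
  exact ⟨fun x => (g x : V), fun x y hxy => g.injective (Subtype.ext hxy), fun x => (g x).2⟩

private lemma crt_of {F : SimpleGraph β} {u v : β} {c : β → Bool} (hF : Crt F u v c) {G : SimpleGraph V}
    (φ : β → V) (hi : Function.Injective φ) (huv : G.Adj (φ u) (φ v))
    (h : ∀ x y, F.Adj x y → c x = true → c y = false → G.Adj (φ x) (φ y)) : F.IsContained G := by
  refine ⟨⟨⟨φ, ?_⟩, hi⟩⟩
  intro x y hxy
  rcases hF.col x y hxy with hc | ⟨rfl, rfl⟩ | ⟨rfl, rfl⟩
  · cases hx : c x with
    | true =>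
      refine h x y hxy hx ?_
      rw [hx] at hc
      cases hy : c y with
      | true => exact absurd hy.symm hc
      | false => rfl
    | false =>
      refine (h y x hxy.symm ?_ hx).symm
      rw [hx] at hc
      cases hy : c y with
      | true => rfl
      | false => exact absurd hy.symm hc
  · exact huv
  · exact huv.symm

/-- `u ↦ a`, `v ↦ b`, the other `true` vertices into `P`, the `false` vertices into `Q` -/
theorem embCrt [Finite β] {F : SimpleGraph β} {u v : β} {c : β → Bool} (hF : Crt F u v c) {G : SimpleGraph V} {a b : V}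
    {P Q : Set V} (hP : Nat.card β ≤ P.ncard) (hQ : Nat.card β ≤ Q.ncard) (hPQ : Disjoint P Q) (h : Full G P Q)
    (hab : G.Adj a b) (haP : a ∉ P) (hbP : b ∉ P) (haQ : ∀ q ∈ Q, G.Adj a q) (hbQ : ∀ q ∈ Q, G.Adj b q) :
    F.IsContained G := by
  classical
  have : Nonempty β := ⟨u⟩
  obtain ⟨p, hp, hpP⟩ := crt_inj hP
  obtain ⟨q, hq, hqQ⟩ := crt_inj hQ
  have huv : u ≠ v := hF.adj.ne
  have hpq : ∀ y z, p y ≠ q z := fun y z e => Set.disjoint_left.mp hPQ (hpP y) (e ▸ hqQ z)
  have hap : ∀ y, a ≠ p y := fun y e => haP (e ▸ hpP y)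
  have hbp : ∀ y, b ≠ p y := fun y e => hbP (e ▸ hpP y)
  have haq : ∀ y, a ≠ q y := fun y => (haQ _ (hqQ y)).ne
  have hbq : ∀ y, b ≠ q y := fun y => (hbQ _ (hqQ y)).ne
  have hφ : ∃ φ : β → V, ∀ y, φ y = if y = u then a else if y = v then b else
      if c y = true then p y else q y := ⟨_, fun y => rfl⟩
  obtain ⟨φ, hφ⟩ := hφ
  refine crt_of hF φ ?_ ?_ ?_
  · intro y z e
    rw [hφ, hφ] at e
    have hne := hab.ne
    by_cases y1 : y = u <;> by_cases z1 : z = u <;> by_cases y2 : y = v <;> by_cases z2 : z = v <;>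
      by_cases y3 : c y = true <;> by_cases z3 : c z = true <;>
      simp only [y1, y2, y3, z1, z2, z3, if_true, if_false, huv, huv.symm] at e ⊢ <;>
      first
        | exact absurd e hne
        | exact absurd e.symm hne
        | exact absurd e (hap _)
        | exact absurd e.symm (hap _)
        | exact absurd e (hbp _)
        | exact absurd e.symm (hbp _)
        | exact absurd e (haq _)
        | exact absurd e.symm (haq _)
        | exact absurd e (hbq _)
        | exact absurd e.symm (hbq _)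
        | exact absurd e (hpq _ _)
        | exact absurd e.symm (hpq _ _)
        | exact hp e
        | exact hq e
  · rw [hφ u, hφ v, if_pos rfl, if_neg huv.symm, if_pos rfl]
    exact hab
  · intro y z _ hy hz
    have hzu : z ≠ u := by
      rintro rfl
      rw [hF.cu] at hz
      exact absurd hz (by simp)
    have hzv : z ≠ v := by
      rintro rfl
      rw [hF.cv] at hz
      exact absurd hz (by simp)
    have hφz : φ z = q z := by
      rw [hφ, if_neg hzu, if_neg hzv, if_neg (by rw [hz]; simp)]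
    rw [hφz, hφ y]
    split_ifs with h1 h2
    · exact haQ _ (hqQ z)
    · exact hbQ _ (hqQ z)
    · exact h _ (hpP y) _ (hqQ z)

/-- (D) constant codegrees -/
theorem codConst [Finite β] {F : SimpleGraph β} {u v : β} {c : β → Bool} (hF : Crt F u v c) {c₀ : ℝ} (hc₀ : 0 < c₀) :
    ∃ C n₀ : ℕ, ∀ (V : Type) [Finite V], n₀ ≤ Nat.card V → ∀ G : SimpleGraph V, F.Free G →
      (∀ x, c₀ * (Nat.card V : ℝ) ≤ ((G.neighborSet x).ncard : ℝ)) → Cod G C := by
  have hpos : 0 < (c₀ / 2) ^ Nat.card β := by positivity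
  obtain ⟨C, hC⟩ := exists_nat_ge ((Nat.card β : ℝ) / (c₀ / 2) ^ Nat.card β)
  obtain ⟨n₀, hn₀⟩ := exists_nat_ge ((2 + (Nat.card β : ℝ)) / (c₀ / 2))
  refine ⟨C, n₀, fun V _ hV G hG hdeg a b hab => ?_⟩
  by_contra hcon
  push Not at hcon
  have hV' : (n₀ : ℝ) ≤ (Nat.card V : ℝ) := by exact_mod_cast hV
  have h1 : 2 + (Nat.card β : ℝ) ≤ c₀ / 2 * (Nat.card V : ℝ) := by
    have h2 := hn₀.trans hV'
    rw [div_le_iff₀ (by linarith)] at h2
    linarith
  have hX₀ : (G.neighborSet a ∩ G.neighborSet b).Nonempty := by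
    rw [← Set.ncard_pos (Set.toFinite _)]
    omega
  have htwo : (({a, b} : Set V).ncard : ℝ) ≤ 2 := by
    have h := Set.ncard_insert_le a ({b} : Set V)
    rw [Set.ncard_singleton] at h
    exact_mod_cast h
  obtain ⟨P, hP1, hP2, X', hX'1, hX'2, hX'3⟩ := pig (fun x y => G.Adj x y) (Nat.card V) hc₀
    (Nat.card β) (G.neighborSet a ∩ G.neighborSet b) Set.univ {a, b} (by rw [Set.ncard_univ])
    (by linarith) hX₀ (fun x _ => by
      have h3 : {y | y ∈ (Set.univ : Set V) ∧ G.Adj x y} = G.neighborSet x := by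
        ext y
        simp [SimpleGraph.mem_neighborSet]
      rw [h3]
      exact hdeg x)
  refine hG (embCrt hF (a := a) (b := b) (P := P) (Q := X') hP2.ge ?_ ?_ ?_ hab ?_ ?_ ?_ ?_)
  · have hc1 : (C : ℝ) ≤ ((G.neighborSet a ∩ G.neighborSet b).ncard : ℝ) := by exact_mod_cast hcon.le
    have h4 : (Nat.card β : ℝ) ≤ (X'.ncard : ℝ) := by
      rw [div_le_iff₀ hpos] at hC
      calc (Nat.card β : ℝ) ≤ C * (c₀ / 2) ^ Nat.card β := hC
        _ = (c₀ / 2) ^ Nat.card β * C := by ring
        _ ≤ (c₀ / 2) ^ Nat.card β * ((G.neighborSet a ∩ G.neighborSet b).ncard : ℝ) :=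
            mul_le_mul_of_nonneg_left hc1 hpos.le
        _ ≤ X'.ncard := hX'2
    exact_mod_cast h4
  · rw [Set.disjoint_left]
    intro z hz1 hz2
    exact G.loopless.irrefl z (hX'3 z hz2 z hz1)
  · intro p hp q hq
    exact (hX'3 q hq p hp).symm
  · intro h
    exact (hP1 h).2 (by simp)
  · intro h
    exact (hP1 h).2 (by simp)
  · intro q hq
    exact (hX'1 hq).1
  · intro q hq
    exact (hX'1 hq).2

end Pool.Agent.WTE
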