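import Pool.Agent.WTE.Twin

/-!
# [WTE-Gain] `y` gains many copies if many vertices which are not adjacent to `y` are moved to clones of a neighbour `x` of `y`
-/

set_option autoImplicit false

namespace Pool.Agent.WTE

open Pool.Agent.WT7

variable {α β V : Type}

/-- the maps of `dense` -/
def DS (χ : α → Bool) (a₀ b₀ : α) (G : SimpleGraph V) (A B : Set V) (y : V) : Set ({z // z ≠ a₀ ∧ z ≠ b₀} → V) :=
  {g | Function.Injective g ∧ (∀ z, g z ≠ y) ∧ (∀ z, χ z.1 = true → g z ∈ A) ∧ (∀ z, χ z.1 = false → g z ∈ B) ∧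
    ∀ z z', χ z.1 = true → χ z'.1 = false → G.Adj (g z) (g z')}

theorem gain [Finite α] [Finite V] (H : SimpleGraph α) (χ : α → Bool) (hχ : ∀ x y, H.Adj x y → χ x ≠ χ y)
    (a₀ b₀ : α) (hab : H.Adj a₀ b₀) (h₀ : χ a₀ = true) (G : SimpleGraph V) (M : Set V) (x y : V) (K : ℕ)
    (hK : ∀ w ∈ M, (symmDiff (G.neighborSet w) (G.neighborSet x)).ncard ≤ K) (hx : ∀ w ∈ M, ¬ G.Adj w x)
    (hyM : y ∉ M) (hy : ∀ w ∈ M, ¬ G.Adj w y) (hxy : G.Adj x y) :
    (Nat.card V : ℝ) * (dg H G y + M.ncard * (DS χ a₀ b₀ G (G.neighborSet y) (G.neighborSet x) y).ncard) ≤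
      (Nat.card V : ℝ) * dg H (Mv G M (G.neighborSet x)) y +
        (Nat.card α : ℝ) ^ 3 * (2 * (M.ncard * K : ℝ) * (Nat.card V : ℝ) ^ (Nat.card α - 2)) := by
  classical
  set G' := Mv G M (G.neighborSet x) with hG'
  set S := DS χ a₀ b₀ G (G.neighborSet y) (G.neighborSet x) y with hS
  set T1 : Set (α → V) := {f | IsInj H G f ∧ (∃ z, f z = y) ∧ IsInj H G' f} with hT1
  set T2 : Set (α → V) := {f | IsInj H G' f ∧ f a₀ ∈ M ∧ f b₀ = y} with hT2
  have hb₀ : χ b₀ = false := by
    have := hχ _ _ hab
    rw [h₀] at this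
    simpa using this.symm
  have hne : a₀ ≠ b₀ := hab.ne
  have h1 := dg_cmp H G G' y (lost_ne hyM hy) T1 (fun f hf hz hf' => ⟨hf, hz, hf'⟩)
  have h2 : T1.ncard + T2.ncard ≤ dg H G' y := by
    unfold dg
    rw [← Set.ncard_union_eq]
    · refine Set.ncard_le_ncard ?_ (Set.toFinite _)
      rintro f (⟨-, hz, hf⟩ | ⟨hf, -, hz⟩)
      · exact ⟨hf, hz⟩
      · exact ⟨hf, b₀, hz⟩
    · rw [Set.disjoint_left]
      rintro f ⟨hf, -, -⟩ ⟨-, h3, h4⟩
      have h5 := hf.2 a₀ b₀ hab
      rw [h4] at h5
      exact hy _ h3 h5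
  have h3 : M.ncard * S.ncard ≤ T2.ncard := by
    rw [← Set.ncard_prod]
    refine Set.ncard_le_ncard_of_injOn
      (fun p z => if h : z = a₀ then p.1 else if h' : z = b₀ then y else p.2 ⟨z, h, h'⟩) ?_ ?_ (Set.toFinite _)
    · rintro ⟨w, g⟩ ⟨hw, hg1, hg2, hg3, hg4, hg5⟩
      simp only at hw hg1 hg2 hg3 hg4 hg5 ⊢
      have hgM : ∀ z, g z ∉ M := by
        intro z hz
        rcases hc : χ z.1 with _ | _
        · exact hx _ hz (hg4 z hc).symm
        · exact hy _ hz (hg3 z hc).symm
      have hdir : ∀ u v, H.Adj u v → χ u = true → χ v = false →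
          G'.Adj (if h : u = a₀ then w else if h' : u = b₀ then y else g ⟨u, h, h'⟩)
            (if h : v = a₀ then w else if h' : v = b₀ then y else g ⟨v, h, h'⟩) := by
        intro u v huv hu hv
        have hub : u ≠ b₀ := by
          rintro rfl
          rw [hu] at hb₀
          exact absurd hb₀ (by simp)
        have hva : v ≠ a₀ := by
          rintro rfl
          rw [hv] at h₀
          exact absurd h₀ (by simp)
        rw [dif_neg hva]
        by_cases hua : u = a₀
        · rw [dif_pos hua]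
          by_cases hvb : v = b₀
          · rw [dif_pos hvb]
            exact (mv_in hw).2 ⟨hyM, hxy⟩
          · rw [dif_neg hvb]
            exact (mv_in hw).2 ⟨hgM _, hg4 _ hv⟩
        · rw [dif_neg hua, dif_neg hub]
          by_cases hvb : v = b₀
          · rw [dif_pos hvb]
            exact (mv_out (hgM _) hyM).2 (hg3 _ hu).symm
          · rw [dif_neg hvb]
            exact (mv_out (hgM _) (hgM _)).2 (hg5 _ _ hu hv)
      refine ⟨⟨?_, ?_⟩, ?_, ?_⟩
      · intro u v huv
        simp only at huv
        by_cases hua : u = a₀ <;> by_cases hva : v = a₀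
        · rw [hua, hva]
        · exfalso
          rw [dif_pos hua, dif_neg hva] at huv
          by_cases hvb : v = b₀
          · rw [dif_pos hvb] at huv
            exact hyM (huv ▸ hw)
          · rw [dif_neg hvb] at huv
            exact hgM _ (huv ▸ hw)
        · exfalso
          rw [dif_neg hua, dif_pos hva] at huv
          by_cases hub : u = b₀
          · rw [dif_pos hub] at huv
            exact hyM (huv.symm ▸ hw)
          · rw [dif_neg hub] at huv
            exact hgM _ (huv.symm ▸ hw)
        · rw [dif_neg hua, dif_neg hva] at huv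
          by_cases hub : u = b₀ <;> by_cases hvb : v = b₀
          · rw [hub, hvb]
          · rw [dif_pos hub, dif_neg hvb] at huv
            exact absurd huv.symm (hg2 _)
          · rw [dif_neg hub, dif_pos hvb] at huv
            exact absurd huv (hg2 _)
          · rw [dif_neg hub, dif_neg hvb] at huv
            exact congrArg Subtype.val (hg1 huv)
      · intro u v huv
        have hne' := hχ u v huv
        rcases hu : χ u with _ | _
        · rcases hv : χ v with _ | _
          · rw [hu, hv] at hne'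
            exact absurd rfl hne'
          · exact (hdir v u huv.symm hv hu).symm
        · rcases hv : χ v with _ | _
          · exact hdir u v huv hu hv
          · rw [hu, hv] at hne'
            exact absurd rfl hne'
      · simp only [dif_pos]
        exact hw
      · simp only [dif_pos, dif_neg hne.symm]
    · rintro ⟨w, g⟩ ⟨hw, -⟩ ⟨w', g'⟩ ⟨hw', -⟩ heq
      have h4 := congrFun heq a₀
      simp only [dif_pos] at h4
      have h5 : g = g' := by
        funext z
        have h6 := congrFun heq z.1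
        simp only [dif_neg z.2.1, dif_neg z.2.2] at h6
        exact h6
      rw [h4, h5]
  have h4 : (T1.ncard : ℝ) + M.ncard * S.ncard ≤ dg H G' y := by
    have : T1.ncard + M.ncard * S.ncard ≤ dg H G' y := by omega
    exact_mod_cast this
  have h5 : ((df G G' : ℕ) : ℝ) ≤ 2 * (M.ncard * K : ℝ) := by
    exact_mod_cast (df_mv_le G M x K hK hx).1
  have h6 : (0 : ℝ) ≤ (Nat.card V : ℝ) ^ (Nat.card α - 2) := by positivity
  have h7 : (0 : ℝ) ≤ (Nat.card α : ℝ) ^ 3 := by positivity
  have h8 := mul_le_mul_of_nonneg_left (mul_le_mul_of_nonneg_right h5 h6) h7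
  have h9 := mul_le_mul_of_nonneg_left h4 (Nat.cast_nonneg (α := ℝ) (Nat.card V))
  rw [mul_add] at h9
  rw [mul_add]
  linarith

end Pool.Agent.WTE
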