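import Pool.Agent.WTE.Extr
import Pool.Agent.WTE.Gain

/-!
# [WTE-Core] the two moves, and the low vertices
-/

set_option autoImplicit false

namespace Pool.Agent.WTE

open Pool.Agent.WT7

variable {α β V : Type}

/-- the inequality from the two moves -/
theorem core [Finite α] [Finite V] (H : SimpleGraph α) (χ : α → Bool) (hχ : ∀ x y, H.Adj x y → χ x ≠ χ y)
    (a₀ b₀ : α) (hab : H.Adj a₀ b₀) (h₀ : χ a₀ = true) (G G' : SimpleGraph V) (hcf : G'.CliqueFree 3)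
    {C : ℕ} (hC : Cod G C) (x y : V) (hxy : G.Adj x y) (M M' : Set V) (hdis : Disjoint M M')
    (hxM : x ∉ M) (hyM : y ∉ M) (hyM' : y ∉ M') (hMx : ∀ w ∈ M, ¬ G.Adj w x) (hMx' : ∀ w ∈ M', ¬ G.Adj w x)
    (hMy : ∀ w ∈ M, ¬ G.Adj w y) (K : ℕ)
    (hK : ∀ w ∈ M, (symmDiff (G.neighborSet w) (G.neighborSet x)).ncard ≤ K) {κ : ℝ} (hκ : (K : ℝ) ≤ κ * Nat.card V)
    (hκ0 : 0 ≤ κ) {Δ : ℝ} (hΔ : ∀ v w, (dg H G v : ℝ) ≤ dg H G w + Δ) {c : ℝ}
    (hc : c * (Nat.card V : ℝ) ^ (Nat.card α - 2) ≤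
      ((DS χ a₀ b₀ G (G.neighborSet y) (G.neighborSet x) y).ncard : ℝ))
    (hinj : a3 H (Nat.card V) ≤ inj H G) :
    (M'.ncard : ℝ) * M.ncard * (c * (Nat.card V : ℝ) ^ (Nat.card α - 2)) ≤
      ((M.ncard : ℝ) + M'.ncard) * Δ +
      (4 * (Nat.card α : ℝ) ^ 3 * κ * (M.ncard : ℝ) ^ 2 + 4 * (Nat.card α : ℝ) ^ 3 * κ * M.ncard * M'.ncard +
        (Nat.card α : ℝ) ^ 2 * (M'.ncard : ℝ) ^ 2 +
        (Nat.card α : ℝ) ^ 2 * ((df G G' : ℝ) + 2 * ((Tri G).ncard * C) + 2 * (M.ncard * C))) *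
        (Nat.card V : ℝ) ^ (Nat.card α - 2) := by
  classical
  have hV : Nonempty V := ⟨x⟩
  have hn : (0 : ℝ) < (Nat.card V : ℝ) := by exact_mod_cast Nat.card_pos
  set P : ℝ := (Nat.card V : ℝ) ^ (Nat.card α - 2) with hP
  have hP0 : 0 ≤ P := by positivity
  set T : ℝ := (Nat.card α : ℝ) ^ 3 with hT
  have hT0 : 0 ≤ T := by positivity
  set B : ℝ := (Nat.card α : ℝ) ^ 2 with hB
  have hB0 : 0 ≤ B := by positivity
  set m : ℝ := (M.ncard : ℝ) with hm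
  have hm0 : 0 ≤ m := by positivity
  set m' : ℝ := (M'.ncard : ℝ) with hm'
  have hm'0 : 0 ≤ m' := by positivity
  obtain ⟨v₁, hv₁⟩ : ∃ v₁, ∀ v, dg H G v ≤ dg H G v₁ := Finite.exists_max (dg H G)
  set D : ℝ := (dg H G v₁ : ℝ) with hD
  set G1 := Mv G M (G.neighborSet x) with hG1
  set G2 := Mv G1 M' (G1.neighborSet y) with hG2
  -- first move
  have h1 := move_twin H G M x hxM K hκ hK hMx (dg H G v₁) (fun w _ => hv₁ w)
  have h1' : D ≤ dg H G x + Δ := hΔ v₁ x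
  -- second move
  have h2 : ∀ w ∈ M', (dg H G1 w : ℝ) ≤ D + 2 * T * κ * m * P := by
    intro w hw
    have h3 := dg_le_mv H G M x w K hK hMx (fun h => Set.disjoint_left.1 hdis h hw) (fun h => hMx' w hw h.symm)
    have h4 := div_aux hn hT0 hP0 le_rfl hm0 (Nat.cast_nonneg K) hκ h3
    have h5 : (dg H G w : ℝ) ≤ (dg H G v₁ : ℝ) := by exact_mod_cast hv₁ w
    rw [← hD] at h5
    linarith
  have hd0 : 0 ≤ D + 2 * T * κ * m * P := by positivity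
  have h3 := move H G1 M' y hyM' ⌊D + 2 * T * κ * m * P⌋₊ (fun w hw => Nat.le_floor (h2 w hw))
  have h3' : (inj H G1 : ℝ) + m' * dg H G1 y ≤ inj H G2 + m' * (D + 2 * T * κ * m * P) + B * (m' ^ 2 * P) := by
    have h4 : ((inj H G1 + M'.ncard * dg H G1 y : ℕ) : ℝ) ≤ ((inj H G2 + M'.ncard * ⌊D + 2 * T * κ * m * P⌋₊ +
      Nat.card α ^ 2 * (M'.ncard ^ 2 * Nat.card V ^ (Nat.card α - 2)) : ℕ) : ℝ) := by exact_mod_cast h3
    push_cast at h4
    have h5 := mul_le_mul_of_nonneg_left (Nat.floor_le hd0) hm'0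
    linarith
  -- gain
  have h4 := gain H χ hχ a₀ b₀ hab h₀ G M x y K hK hMx hyM hMy hxy
  have h4' := div_aux hn hT0 hP0 le_rfl hm0 (Nat.cast_nonneg K) hκ h4
  have h4'' : (dg H G y : ℝ) + m * (c * P) ≤ dg H G1 y + 2 * T * κ * m * P := by
    have h5 := mul_le_mul_of_nonneg_left hc hm0
    linarith
  have h4d : D ≤ dg H G y + Δ := hΔ v₁ y
  -- upper bound
  obtain ⟨Γ1, hΓ1, hd1⟩ := up1 G G' hcf M x
  obtain ⟨Γ2, hΓ2, hd2⟩ := up1 G1 Γ1 hΓ1 M' y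
  have h6 := inj_le_add_df H G2 Γ2
  have h7 := inj_le_a3 H hΓ2
  have h8 : df G2 Γ2 ≤ df G G' + 2 * ((Tri G).ncard * C) + 2 * (M.ncard * C) := by
    have h9 := pe_mv hC M x y hxy hyM
    rw [← hG1] at h9 hd1
    rw [← hG2] at hd2
    have h10 := pe_tri hC x
    have h11 := pe_tri hC y
    omega
  have h9 : (inj H G2 : ℝ) ≤ a3 H (Nat.card V) + B * (((df G G' : ℝ) + 2 * ((Tri G).ncard * C) + 2 * (m * C)) * P) := by
    have h10 : ((inj H G2 : ℕ) : ℝ) ≤ ((a3 H (Nat.card V) + Nat.card α ^ 2 *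
        ((df G G' + 2 * ((Tri G).ncard * C) + 2 * (M.ncard * C)) * Nat.card V ^ (Nat.card α - 2)) : ℕ) : ℝ) := by
      have h11 := Nat.mul_le_mul_left (Nat.card α ^ 2) (Nat.mul_le_mul_right (Nat.card V ^ (Nat.card α - 2)) h8)
      have h12 : inj H G2 ≤ a3 H (Nat.card V) + Nat.card α ^ 2 *
        ((df G G' + 2 * ((Tri G).ncard * C) + 2 * (M.ncard * C)) * Nat.card V ^ (Nat.card α - 2)) := by omega
      exact_mod_cast h12
    push_cast at h10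
    exact h10
  have h10 : (a3 H (Nat.card V) : ℝ) ≤ inj H G := by exact_mod_cast hinj
  have h11 := mul_le_mul_of_nonneg_left h1' hm0
  have h12 := mul_le_mul_of_nonneg_left h4d hm'0
  have h13 := mul_le_mul_of_nonneg_left h4'' hm'0
  have e1 : m' * m * (c * P) = m' * (m * (c * P)) := by ring
  rw [e1]
  nlinarith [h1, h3', h9, h10, h11, h12, h13]

/-- if all the vertices outside of `Tri G` have small `dg`, then this inequality holds -/
theorem low [Finite α] [Finite V] [Nonempty V] (H : SimpleGraph α) (G G' : SimpleGraph V) (hcf : G'.CliqueFree 3)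
    {C : ℕ} (hC : Cod G C) (hinj : a3 H (Nat.card V) ≤ inj H G) (v₁ : V) {s : ℝ} (hs : 0 < s)
    (hlow : ∀ v, v ∉ Tri G → (dg H G v : ℝ) + s * (Nat.card V : ℝ) ^ (Nat.card α - 2) ≤ dg H G v₁) (m : ℕ)
    (hm : m + (Tri G).ncard ≤ Nat.card V) :
    (m : ℝ) * s ≤ (Nat.card α : ℝ) ^ 2 * ((df G G' : ℝ) + (Tri G).ncard * C + (m : ℝ) ^ 2) := by
  classical
  have hn : (0 : ℝ) < (Nat.card V : ℝ) := by exact_mod_cast Nat.card_pos
  set P : ℝ := (Nat.card V : ℝ) ^ (Nat.card α - 2) with hP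
  have hP0 : 0 < P := by positivity
  obtain ⟨M, hM1, hM2⟩ : ∃ M : Set V, M ⊆ (Tri G)ᶜ ∧ M.ncard = m := by
    have h1 : m ≤ ((Tri G)ᶜ).ncard := by
      have := Set.ncard_add_ncard_compl (Tri G)
      omega
    exact Set.exists_subset_card_eq h1
  rcases Nat.eq_zero_or_pos m with hm0 | hm0
  · rw [hm0]
    simp only [Nat.cast_zero, zero_mul]
    positivity
  have hv₁ : v₁ ∉ M := by
    intro h
    have h1 := hlow v₁ (hM1 h)
    have : 0 < s * P := mul_pos hs hP0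
    linarith
  have hMne : M.Nonempty := by
    rw [← Set.ncard_pos (Set.toFinite _), hM2]
    exact hm0
  obtain ⟨w₀, hw₀⟩ := hMne
  have hd0 : 0 ≤ (dg H G v₁ : ℝ) - s * P := by
    have h1 := hlow w₀ (hM1 hw₀)
    have : (0 : ℝ) ≤ dg H G w₀ := Nat.cast_nonneg _
    linarith
  have h1 := move H G M v₁ hv₁ ⌊(dg H G v₁ : ℝ) - s * P⌋₊ (fun w hw => by
    refine Nat.le_floor ?_
    have := hlow w (hM1 hw)
    linarith)
  obtain ⟨Γ, hΓ, hd⟩ := up1 G G' hcf M v₁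
  have h2 := inj_le_add_df H (Mv G M (G.neighborSet v₁)) Γ
  have h3 := inj_le_a3 H hΓ
  have h4 := pe_tri hC v₁
  have h5 : df (Mv G M (G.neighborSet v₁)) Γ ≤ df G G' + (Tri G).ncard * C := by omega
  have h6 := Nat.mul_le_mul_left (Nat.card α ^ 2) (Nat.mul_le_mul_right (Nat.card V ^ (Nat.card α - 2)) h5)
  have h7 : inj H G + M.ncard * dg H G v₁ ≤ a3 H (Nat.card V) +
      Nat.card α ^ 2 * ((df G G' + (Tri G).ncard * C) * Nat.card V ^ (Nat.card α - 2)) +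
      M.ncard * ⌊(dg H G v₁ : ℝ) - s * P⌋₊ + Nat.card α ^ 2 * (M.ncard ^ 2 * Nat.card V ^ (Nat.card α - 2)) := by
    omega
  have h8 : ((inj H G + M.ncard * dg H G v₁ : ℕ) : ℝ) ≤ ((a3 H (Nat.card V) +
      Nat.card α ^ 2 * ((df G G' + (Tri G).ncard * C) * Nat.card V ^ (Nat.card α - 2)) +
      M.ncard * ⌊(dg H G v₁ : ℝ) - s * P⌋₊ +
      Nat.card α ^ 2 * (M.ncard ^ 2 * Nat.card V ^ (Nat.card α - 2)) : ℕ) : ℝ) := by exact_mod_cast h7
  push_cast at h8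
  rw [hM2] at h8
  have h9 := mul_le_mul_of_nonneg_left (Nat.floor_le hd0) (Nat.cast_nonneg (α := ℝ) m)
  have h10 : (a3 H (Nat.card V) : ℝ) ≤ inj H G := by exact_mod_cast hinj
  have h11 : (m : ℝ) * s * P ≤ (Nat.card α : ℝ) ^ 2 * ((df G G' : ℝ) + (Tri G).ncard * C + (m : ℝ) ^ 2) * P := by
    nlinarith [h8, h9, h10]
  exact le_of_mul_le_mul_right h11 hP0

end Pool.Agent.WTE
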