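import Pool.Agent.WT7.MainInj

/-!
# WTE: an additive error `C n^(h-2)` for all three-chromatic `F` with a colour-critical edge (MP_aeb998_co, helper1; builds on WT7 of helper7)

Goal (Fin.lean). Let `H` be bipartite, `h = |V(H)|`, and let `F` be any 3-chromatic graph with a colour-critical edge. Then there is a constant `C` such that for all
`n` every `F`-free graph on `n` vertices has at most `ex(n, H, K₃) + C n^(h-2)` copies of `H`.

Overview (`H` without isolated vertices). `e = |Tri G|` is the number of the vertices in triangles.
* (CodC) An `F`-free graph with minimum degree `≥ c₀ n` is in the class `Cod G C`: every edge has at most `C` common neighbours. So by progressive induction it is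
  enough to bound `bC H C n`, the maximum of `inj H G` over `Cod G C`; again by progressive induction it is enough to bound `inj H G` for a maximiser `G` in which all
  `dg v ≥ (π h - ε) n^(h-1)`. Let `e` be large and `inj H G > a3 H n`.
* (RemTri) `G` can be made triangle-free by deleting at most `κ e²` edges (`Tri G` has `e` vertices and `O(e²)` triangles).
* (Low) At most `β e` vertices have `dg v ≤ max dg - c e n^(h-2)` (move them to clones of the best vertex). The vertices outside of `Tri G` can be cloned within the
  class, so all `dg` are `≥ dg v - h² n^(h-2)` for all `v ∉ Tri G`. Hence all `dg` differ by at most `2 c e n^(h-2)`.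
* (Sampling, with PropP of WT7) A set `X ⊆ Tri G` with `|X| ≥ e / K` such that the neighbourhoods of the vertices of `X` are almost equal.
* (Gain) Let `x y z` be a triangle, `x ∈ X`. As `|N(y) ∩ N(z)| ≤ C` we may assume that `y` is not adjacent to about half of `X`. Move `m` of these vertices to clones of `x`:
  nothing is lost, and `y` gains `c m n^(h-2)`, as `e(N(x), N(y)) ≥ τ n²`. Then move `m' = β m` of them to clones of `y`. The new graph has
  `c m m' n^(h-2)` more copies and is triangle-free after `o(e²)` deletions: contradiction, so `e` is bounded.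
-/

set_option autoImplicit false

namespace Pool.Agent.WTE

open Pool.Agent.WT7

variable {α β V : Type}

/-- every edge of `G` has at most `C` common neighbours -/
def Cod (G : SimpleGraph V) (C : ℕ) : Prop :=
  ∀ a b, G.Adj a b → (G.neighborSet a ∩ G.neighborSet b).ncard ≤ C

/-- the vertices in triangles -/
def Tri (G : SimpleGraph V) : Set V := {v | ∃ a b, G.Adj v a ∧ G.Adj v b ∧ G.Adj a b}

/-- maximum of `inj H G` over the graphs on `n` vertices in which every edge has at most `C` common neighbours -/
noncomputable def bC (H : SimpleGraph α) (C n : ℕ) : ℕ :=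
  sSup {m | ∃ G : SimpleGraph (Fin n), Cod G C ∧ inj H G = m}

/-- `G` after moving the vertices of `M`: they are attached to `S \ M` -/
def Mv (G : SimpleGraph V) (M S : Set V) : SimpleGraph V where
  Adj a b := (a ∉ M ∧ b ∉ M ∧ G.Adj a b) ∨ (a ∈ M ∧ b ∉ M ∧ b ∈ S) ∨ (a ∉ M ∧ b ∈ M ∧ a ∈ S)
  symm := ⟨by
    intro a b h
    rcases h with h | h | h
    · exact Or.inl ⟨h.2.1, h.1, h.2.2.symm⟩
    · exact Or.inr (Or.inr ⟨h.2.1, h.1, h.2.2⟩)
    · exact Or.inr (Or.inl ⟨h.2.1, h.1, h.2.2⟩)⟩
  loopless := ⟨by
    intro a h
    rcases h with h | h | h
    · exact h.2.2.ne rfl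
    · exact h.2.1 h.1
    · exact h.1 h.2.1⟩

/-- `c` is a proper 2-colouring of `F` minus the edge `u v`, and `u` and `v` have the same colour -/
structure Crt (F : SimpleGraph β) (u v : β) (c : β → Bool) : Prop where
  adj : F.Adj u v
  cu : c u = true
  cv : c v = true
  col : ∀ x y, F.Adj x y → c x ≠ c y ∨ (x = u ∧ y = v) ∨ (x = v ∧ y = u)

end Pool.Agent.WTE
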