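import Pool.Agent.WTE.Defs

/-!
# WTE (A): many copies in a dense pair
-/

set_option autoImplicit false

namespace Pool.Agent.WTE

open Pool.Agent.WT7

variable {α β V : Type}

private lemma power_mean {ι : Type*} (s : Finset ι) (f : ι → ℝ) (hf : ∀ i ∈ s, 0 ≤ f i) {N S : ℝ} (hN : 0 < N)
    (hs : (s.card : ℝ) ≤ N) (hS : 0 ≤ S) (h : S ≤ ∑ i ∈ s, f i) (q : ℕ) :
    S ^ (q + 1) / N ^ q ≤ ∑ i ∈ s, f i ^ (q + 1) := by
  rcases s.eq_empty_or_nonempty with rfl | hne
  · simp only [Finset.sum_empty] at h ⊢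
    have : S = 0 := le_antisymm h hS
    rw [this]
    simp
  have h1 := pow_sum_div_card_le_sum_pow (s := s) (f := f) (n := q) hf
  refine le_trans ?_ h1
  have hc : (0 : ℝ) < s.card := by exact_mod_cast hne.card_pos
  have h2 : S ^ (q + 1) ≤ (∑ i ∈ s, f i) ^ (q + 1) := pow_le_pow_left₀ hS h _
  have h3 : (s.card : ℝ) ^ q ≤ N ^ q := pow_le_pow_left₀ hc.le hs _
  exact div_le_div₀ (pow_nonneg (hS.trans h) _) h2 (by positivity) h3

private lemma pairs_count (P Q : Type) [Fintype P] [Fintype Q] [Fintype V] (G : SimpleGraph V) (A B : Set V) {τ : ℝ}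
    (hτ : 0 < τ) (hτ1 : τ ≤ 1) (hV : 0 < Fintype.card V) (h : τ * (Fintype.card V : ℝ) ^ 2 ≤ pe G A B) :
    τ ^ ((Fintype.card P + 1) * Fintype.card Q + Fintype.card P) *
      (Fintype.card V : ℝ) ^ (Fintype.card P + Fintype.card Q) ≤
        (({x : (P → V) × (Q → V) | (∀ z, x.1 z ∈ A) ∧ (∀ z, x.2 z ∈ B) ∧ ∀ z z', G.Adj (x.1 z) (x.2 z')}.ncard : ℕ) : ℝ) := by
  classical
  obtain ⟨n, hn⟩ : ∃ n : ℝ, n = (Fintype.card V : ℝ) := ⟨_, rfl⟩
  rw [← hn] at h ⊢
  have hn0 : 0 < n := by rw [hn]; exact_mod_cast hV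
  have hn1 : 1 ≤ n := by rw [hn]; exact_mod_cast hV
  -- the degrees
  have hpe : (pe G A B : ℝ) = ∑ b ∈ B.toFinset, ((A.toFinset.filter (fun a => G.Adj a b)).card : ℝ) := by
    unfold pe
    have h1 : {p : V × V | p.1 ∈ A ∧ p.2 ∈ B ∧ G.Adj p.1 p.2} =
        ↑((A.toFinset ×ˢ B.toFinset).filter (fun p : V × V => G.Adj p.1 p.2)) := by
      ext p
      simp [and_assoc]
    rw [h1, Set.ncard_coe_finset, Finset.card_filter, Finset.sum_product_right]
    push_cast
    refine Finset.sum_congr rfl fun b _ => ?_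
    rw [Finset.card_filter]
    push_cast
    rfl
  have hAn : ((A.toFinset).card : ℝ) ≤ n := by
    rw [hn]; exact_mod_cast Finset.card_le_univ _
  have hBn : ((B.toFinset).card : ℝ) ≤ n := by
    rw [hn]; exact_mod_cast Finset.card_le_univ _
  have hAl : τ * n ≤ ((A.toFinset).card : ℝ) := by
    have h1 : (pe G A B : ℝ) ≤ (A.toFinset.card : ℝ) * n := by
      rw [hpe]
      refine (Finset.sum_le_card_nsmul _ _ (A.toFinset.card : ℝ) (fun b _ => ?_)).trans ?_
      · exact_mod_cast Finset.card_le_card (Finset.filter_subset _ _)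
      · rw [nsmul_eq_mul, mul_comm]
        exact mul_le_mul_of_nonneg_left hBn (Nat.cast_nonneg _)
    have h2 : τ * n * n ≤ (A.toFinset.card : ℝ) * n := by
      refine le_trans (le_of_eq ?_) (h.trans h1)
      ring
    exact le_of_mul_le_mul_right h2 hn0
  have hBl : τ * n ≤ ((B.toFinset).card : ℝ) := by
    have h1 : (pe G A B : ℝ) ≤ (B.toFinset.card : ℝ) * n := by
      rw [hpe]
      refine (Finset.sum_le_card_nsmul _ _ n (fun b _ => ?_)).trans ?_
      · refine le_trans ?_ hAn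
        exact_mod_cast Finset.card_le_card (Finset.filter_subset _ _)
      · rw [nsmul_eq_mul]
    have h2 : τ * n * n ≤ (B.toFinset.card : ℝ) * n := by
      refine le_trans (le_of_eq ?_) (h.trans h1)
      ring
    exact le_of_mul_le_mul_right h2 hn0
  -- the maps
  let GA : Finset (P → V) := Fintype.piFinset (fun _ : P => A.toFinset)
  let K : (P → V) → Finset V := fun g => B.toFinset.filter (fun b => ∀ z, G.Adj (g z) b)
  have hGA : (GA.card : ℝ) = (A.toFinset.card : ℝ) ^ Fintype.card P := by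
    rw [Fintype.card_piFinset, Finset.prod_const, Finset.card_univ]
    push_cast
    rfl
  have hGAn : (GA.card : ℝ) ≤ n ^ Fintype.card P := by
    rw [hGA]
    exact pow_le_pow_left₀ (Nat.cast_nonneg _) hAn _
  have e1 : (({x : (P → V) × (Q → V) | (∀ z, x.1 z ∈ A) ∧ (∀ z, x.2 z ∈ B) ∧ ∀ z z', G.Adj (x.1 z) (x.2 z')}.ncard : ℕ) : ℝ) =
      ∑ g ∈ GA, ((K g).card : ℝ) ^ Fintype.card Q := by
    have h1 : {x : (P → V) × (Q → V) | (∀ z, x.1 z ∈ A) ∧ (∀ z, x.2 z ∈ B) ∧ ∀ z z', G.Adj (x.1 z) (x.2 z')} =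
        ↑((GA ×ˢ (Finset.univ : Finset (Q → V))).filter (fun x : (P → V) × (Q → V) =>
          x.2 ∈ Fintype.piFinset (fun _ : Q => K x.1))) := by
      ext x
      simp only [Set.mem_setOf_eq, Finset.coe_filter, Finset.mem_product, Finset.mem_univ, and_true,
        Fintype.mem_piFinset, Finset.mem_filter, Set.mem_toFinset, GA, K]
      constructor
      · rintro ⟨a1, a2, a3⟩
        exact ⟨a1, fun z => ⟨a2 z, fun z' => a3 z' z⟩⟩
      · rintro ⟨a1, a2⟩
        exact ⟨a1, fun z => (a2 z).1, fun z z' => (a2 z').2 z⟩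
    rw [h1, Set.ncard_coe_finset, Finset.card_filter, Finset.sum_product]
    push_cast
    refine Finset.sum_congr rfl fun g _ => ?_
    rw [Finset.sum_boole]
    have h2 : (Finset.univ.filter (fun f : Q → V => f ∈ Fintype.piFinset (fun _ : Q => K g))) =
        Fintype.piFinset (fun _ : Q => K g) := by
      ext f
      simp
    rw [h2, Fintype.card_piFinset, Finset.prod_const, Finset.card_univ]
    push_cast
    rfl
  have e2 : τ ^ (Fintype.card P + 1) * n ^ (Fintype.card P + 1) ≤ ∑ g ∈ GA, ((K g).card : ℝ) := by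
    have h1 : (∑ g ∈ GA, ((K g).card : ℝ)) =
        ∑ b ∈ B.toFinset, ((A.toFinset.filter (fun a => G.Adj a b)).card : ℝ) ^ Fintype.card P := by
      have h2 : ∀ g : P → V, ((K g).card : ℝ) = ∑ b ∈ B.toFinset, if ∀ z, G.Adj (g z) b then (1 : ℝ) else 0 := by
        intro g
        rw [Finset.sum_boole]
      simp only [h2]
      rw [Finset.sum_comm]
      refine Finset.sum_congr rfl fun b _ => ?_
      rw [Finset.sum_boole]
      have h3 : GA.filter (fun g : P → V => ∀ z, G.Adj (g z) b) =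
          Fintype.piFinset (fun _ : P => A.toFinset.filter (fun a => G.Adj a b)) := by
        ext g
        simp only [Finset.mem_filter, Fintype.mem_piFinset, GA]
        exact ⟨fun h z => ⟨h.1 z, h.2 z⟩, fun h => ⟨fun z => (h z).1, fun z => (h z).2⟩⟩
      rw [h3, Fintype.card_piFinset, Finset.prod_const, Finset.card_univ]
      push_cast
      rfl
    rw [h1]
    rcases hp : Fintype.card P with _ | p
    · simp only [pow_zero, Finset.sum_const, nsmul_eq_mul, mul_one, Nat.zero_add, pow_one]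
      exact hBl
    · have h4 := power_mean B.toFinset (fun b => ((A.toFinset.filter (fun a => G.Adj a b)).card : ℝ))
        (fun b _ => Nat.cast_nonneg _) hn0 hBn (by positivity) (h.trans (le_of_eq hpe)) p
      refine le_trans ?_ h4
      rw [le_div_iff₀ (by positivity)]
      have h5 : (τ * n ^ 2) ^ (p + 1) = τ ^ (p + 1) * (n ^ (p + 1 + 1) * n ^ p) := by
        rw [mul_pow, ← pow_mul, ← pow_add]
        congr 2
        ring
      rw [h5]
      have h6 : τ ^ (p + 1 + 1) ≤ τ ^ (p + 1) := pow_le_pow_of_le_one hτ.le hτ1 (Nat.le_succ _)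
      have h7 : 0 ≤ n ^ (p + 1 + 1) * n ^ p := by positivity
      calc τ ^ (p + 1 + 1) * n ^ (p + 1 + 1) * n ^ p = τ ^ (p + 1 + 1) * (n ^ (p + 1 + 1) * n ^ p) := by ring
        _ ≤ _ := mul_le_mul_of_nonneg_right h6 h7
  rw [e1]
  rcases hq : Fintype.card Q with _ | q
  · simp only [pow_zero, Finset.sum_const, nsmul_eq_mul, mul_one, Nat.mul_zero, Nat.zero_add, Nat.add_zero]
    rw [hGA, ← mul_pow]
    exact pow_le_pow_left₀ (by positivity) hAl _
  · have h4 := power_mean GA (fun g => ((K g).card : ℝ)) (fun g _ => Nat.cast_nonneg _)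
      (N := n ^ Fintype.card P) (by positivity) hGAn (by positivity) e2 q
    refine le_trans ?_ h4
    rw [le_div_iff₀ (by positivity)]
    have h5 : (τ ^ (Fintype.card P + 1) * n ^ (Fintype.card P + 1)) ^ (q + 1) =
        τ ^ ((Fintype.card P + 1) * (q + 1)) * (n ^ (Fintype.card P + (q + 1)) * (n ^ Fintype.card P) ^ q) := by
      rw [mul_pow, ← pow_mul, ← pow_mul, ← pow_mul, ← pow_add]
      congr 2
      ring
    rw [h5]
    have h6 : τ ^ ((Fintype.card P + 1) * (q + 1) + Fintype.card P) ≤ τ ^ ((Fintype.card P + 1) * (q + 1)) :=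
      pow_le_pow_of_le_one hτ.le hτ1 (Nat.le_add_right _ _)
    have h7 : 0 ≤ n ^ (Fintype.card P + (q + 1)) * (n ^ Fintype.card P) ^ q := by positivity
    rw [mul_assoc]
    exact mul_le_mul_of_nonneg_right h6 h7

private lemma noninj (S : Type) [Finite S] [Finite V] :
    (({f : S → V | ¬ Function.Injective f}.ncard : ℕ)) ≤ Nat.card S ^ 2 * Nat.card V ^ (Nat.card S - 1) := by
  classical
  have := Fintype.ofFinite S
  have := Fintype.ofFinite V
  have h1 := hom_le_inj_add (⊥ : SimpleGraph S) (⊤ : SimpleGraph V)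
  have h2 : hom (⊥ : SimpleGraph S) (⊤ : SimpleGraph V) = (Set.univ : Set (S → V)).ncard := by
    unfold hom
    congr 1
    ext f
    simp [IsHom]
  have h3 : inj (⊥ : SimpleGraph S) (⊤ : SimpleGraph V) = {f : S → V | Function.Injective f}.ncard := by
    unfold inj
    congr 1
    ext f
    simp [IsInj, IsHom]
  have h4 : (Set.univ : Set (S → V)).ncard =
      {f : S → V | Function.Injective f}.ncard + {f : S → V | ¬ Function.Injective f}.ncard := by
    rw [← Set.ncard_union_eq]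
    · congr 1
      ext f
      simp [em]
    · rw [Set.disjoint_left]
      intro f hf hf'
      exact hf' hf
  rw [h2, h3, h4] at h1
  omega

private lemma through (S : Type) [Finite S] [Finite V] (y : V) :
    (({f : S → V | ∃ z, f z = y}.ncard : ℕ)) ≤ Nat.card S * Nat.card V ^ (Nat.card S - 1) := by
  classical
  have := Fintype.ofFinite S
  have := Fintype.ofFinite V
  have h1 : {f : S → V | ∃ z, f z = y} ⊆ ↑((Finset.univ : Finset S).biUnion
      (fun z => Finset.univ.filter (fun f : S → V => f z = y))) := by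
    rintro f ⟨z, hz⟩
    simp only [Finset.coe_biUnion, Set.mem_iUnion]
    exact ⟨z, by simp, by simpa using hz⟩
  have h2 : ∀ z : S, (Finset.univ.filter (fun f : S → V => f z = y)).card ≤ Fintype.card V ^ (Fintype.card S - 1) := by
    intro z
    have h3 : Fintype.card ({w : S // w ≠ z} → V) = Fintype.card V ^ (Fintype.card S - 1) := by
      rw [Fintype.card_fun, Fintype.card_subtype_compl, Fintype.card_subtype_eq]
    rw [← h3, ← Finset.card_univ]
    refine Finset.card_le_card_of_injOn (fun f w => f w.1) (fun f _ => Finset.mem_univ _) ?_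
    intro f hf g hg hfg
    have hf' : f z = y := (Finset.mem_filter.1 hf).2
    have hg' : g z = y := (Finset.mem_filter.1 hg).2
    funext w
    by_cases hw : w = z
    · rw [hw, hf', hg']
    · exact congrFun hfg ⟨w, hw⟩
  refine (Set.ncard_le_ncard h1 (Set.toFinite _)).trans ?_
  rw [Set.ncard_coe_finset]
  refine Finset.card_biUnion_le.trans ?_
  refine (Finset.sum_le_card_nsmul _ _ _ (fun z _ => h2 z)).trans ?_
  rw [smul_eq_mul, Finset.card_univ, Nat.card_eq_fintype_card, Nat.card_eq_fintype_card]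

/-- (A) many copies in a dense pair -/
theorem dense [Finite α] (χ : α → Bool) (a₀ b₀ : α) {τ : ℝ} (hτ : 0 < τ) :
    ∃ c : ℝ, 0 < c ∧ ∃ n₀ : ℕ, ∀ (V : Type) [Finite V], n₀ ≤ Nat.card V → ∀ (G : SimpleGraph V) (A B : Set V) (y : V),
      τ * (Nat.card V : ℝ) ^ 2 ≤ pe G A B → c * (Nat.card V : ℝ) ^ (Nat.card α - 2) ≤
        ((Set.ncard {g : {z // z ≠ a₀ ∧ z ≠ b₀} → V | Function.Injective g ∧ (∀ z, g z ≠ y) ∧
          (∀ z, χ z.1 = true → g z ∈ A) ∧ (∀ z, χ z.1 = false → g z ∈ B) ∧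
          ∀ z z', χ z.1 = true → χ z'.1 = false → G.Adj (g z) (g z')} : ℕ) : ℝ) := by
  classical
  have := Fintype.ofFinite α
  obtain ⟨t, ht⟩ : ∃ t, t = min τ 1 := ⟨_, rfl⟩
  have t0 : 0 < t := by rw [ht]; exact lt_min hτ one_pos
  have t1 : t ≤ 1 := by rw [ht]; exact min_le_right _ _
  have tτ : t ≤ τ := by rw [ht]; exact min_le_left _ _
  let S := {z : α // z ≠ a₀ ∧ z ≠ b₀}
  let P := {z : S // χ z.1 = true}
  let Q := {z : S // ¬ χ z.1 = true}
  obtain ⟨s, hs⟩ : ∃ s, s = Fintype.card S := ⟨_, rfl⟩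
  obtain ⟨c₁, hc₁⟩ : ∃ c₁ : ℝ, c₁ = t ^ ((Fintype.card P + 1) * Fintype.card Q + Fintype.card P) := ⟨_, rfl⟩
  have c₁0 : 0 < c₁ := by rw [hc₁]; positivity
  have hPQ : Fintype.card P + Fintype.card Q = s := by
    rw [hs, ← Fintype.card_sum]
    exact Fintype.card_congr (Equiv.sumCompl (fun z : S => χ z.1 = true))
  have hsα : Nat.card α - 2 ≤ s := by
    rw [hs, Nat.card_eq_fintype_card]
    have h1 : Fintype.card S = (Finset.univ.filter (fun z : α => z ≠ a₀ ∧ z ≠ b₀)).card := Fintype.card_subtype _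
    have h2 : Fintype.card α ≤ (Finset.univ.filter (fun z : α => z ≠ a₀ ∧ z ≠ b₀)).card + 2 := by
      have h3 : (Finset.univ : Finset α) ⊆ Finset.univ.filter (fun z : α => z ≠ a₀ ∧ z ≠ b₀) ∪ {a₀, b₀} := by
        intro z _
        simp only [Finset.mem_union, Finset.mem_filter, Finset.mem_univ, true_and, Finset.mem_insert,
          Finset.mem_singleton]
        tauto
      have h4 := (Finset.card_le_card h3).trans (Finset.card_union_le _ _)
      have h5 : ({a₀, b₀} : Finset α).card ≤ 2 := Finset.card_le_two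
      rw [Finset.card_univ] at h4
      omega
    omega
  obtain ⟨n₀, hn₀⟩ := exists_nat_gt (2 * ((s : ℝ) ^ 2 + s) / c₁)
  refine ⟨c₁ / 2, by positivity, n₀ + 1, ?_⟩
  intro V _ hV G A B y hpe
  have := Fintype.ofFinite V
  obtain ⟨n, hn⟩ : ∃ n : ℝ, n = (Nat.card V : ℝ) := ⟨_, rfl⟩
  have hnF : n = (Fintype.card V : ℝ) := by rw [hn, Nat.card_eq_fintype_card]
  have hVpos : 0 < Fintype.card V := by rw [← Nat.card_eq_fintype_card]; omega
  have hn1 : 1 ≤ n := by rw [hnF]; exact_mod_cast hVpos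
  have hn0 : 0 < n := by linarith
  rw [← hn] at hpe ⊢
  -- all maps
  let M : Set (S → V) := {g | (∀ z, χ z.1 = true → g z ∈ A) ∧ (∀ z, χ z.1 = false → g z ∈ B) ∧
    ∀ z z', χ z.1 = true → χ z'.1 = false → G.Adj (g z) (g z')}
  have e1 : c₁ * n ^ s ≤ (M.ncard : ℝ) := by
    have h1 := pairs_count P Q G A B t0 t1 hVpos (by
      rw [← hnF]
      exact (mul_le_mul_of_nonneg_right tτ (by positivity)).trans hpe)
    rw [hPQ, ← hc₁, ← hnF] at h1
    refine h1.trans ?_
    have h2 : ({x : (P → V) × (Q → V) | (∀ z, x.1 z ∈ A) ∧ (∀ z, x.2 z ∈ B) ∧ ∀ z z', G.Adj (x.1 z) (x.2 z')}.ncard : ℕ) ≤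
        M.ncard := by
      refine Set.ncard_le_ncard_of_injOn
        (fun x z => if h : χ z.1 = true then x.1 ⟨z, h⟩ else x.2 ⟨z, h⟩) ?_ ?_ (Set.toFinite _)
      · rintro ⟨g, f⟩ ⟨h2, h3, h4⟩
        refine ⟨?_, ?_, ?_⟩
        · intro z hz
          simp only [hz, dite_true]
          exact h2 _
        · intro z hz
          have hz' : ¬ χ z.1 = true := by rw [hz]; simp
          simp only [hz', dite_false]
          exact h3 _
        · intro z z' hz hz'
          have hz2 : ¬ χ z'.1 = true := by rw [hz']; simp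
          simp only [hz, hz2, dite_true, dite_false]
          exact h4 _ _
      · rintro ⟨g, f⟩ _ ⟨g', f'⟩ _ h
        refine Prod.ext ?_ ?_
        · funext z
          have := congrFun h z.1
          simpa [z.2] using this
        · funext z
          have := congrFun h z.1
          simpa [z.2] using this
    exact_mod_cast h2
  obtain ⟨N, hN⟩ : ∃ N : Set (S → V), N = {g : S → V | Function.Injective g ∧ (∀ z, g z ≠ y) ∧
          (∀ z, χ z.1 = true → g z ∈ A) ∧ (∀ z, χ z.1 = false → g z ∈ B) ∧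
          ∀ z z', χ z.1 = true → χ z'.1 = false → G.Adj (g z) (g z')} := ⟨_, rfl⟩
  have e2 : (M.ncard : ℝ) ≤ N.ncard + ((s : ℝ) ^ 2 + s) * n ^ (s - 1) := by
    have h1 : M ⊆ N ∪ ({f : S → V | ¬ Function.Injective f} ∪ {f : S → V | ∃ z, f z = y}) := by
      intro f hf
      by_cases h1 : Function.Injective f
      · by_cases h2 : ∃ z, f z = y
        · exact Or.inr (Or.inr h2)
        · left
          rw [hN]
          exact ⟨h1, fun z hz => h2 ⟨z, hz⟩, hf⟩
      · exact Or.inr (Or.inl h1)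
    have h2 := (Set.ncard_le_ncard h1 (Set.toFinite _)).trans ((Set.ncard_union_le _ _).trans
      (Nat.add_le_add_left (Set.ncard_union_le _ _) _))
    have h3 := noninj (V := V) S
    have h4 := through (V := V) S y
    have hSs : Nat.card S = s := by rw [hs, Nat.card_eq_fintype_card]
    rw [hSs] at h3 h4
    have h5 : (M.ncard : ℝ) ≤ N.ncard + ((s : ℝ) ^ 2 * (Nat.card V : ℝ) ^ (s - 1) + s * (Nat.card V : ℝ) ^ (s - 1)) := by
      exact_mod_cast h2.trans (Nat.add_le_add_left (Nat.add_le_add h3 h4) _)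
    rw [← hn] at h5
    linarith
  have e3 : ((s : ℝ) ^ 2 + s) * n ^ (s - 1) ≤ c₁ / 2 * n ^ s := by
    rcases hs0 : s with _ | m
    · simp
      positivity
    · rw [Nat.add_sub_cancel]
      have h1 : (n₀ : ℝ) ≤ n := by
        rw [hn]
        have : n₀ ≤ Nat.card V := by omega
        exact_mod_cast this
      rw [div_lt_iff₀ c₁0, hs0] at hn₀
      have h2 : (((m + 1 : ℕ) : ℝ) ^ 2 + ((m + 1 : ℕ) : ℝ)) ≤ c₁ / 2 * n := by nlinarith
      calc (((m + 1 : ℕ) : ℝ) ^ 2 + ((m + 1 : ℕ) : ℝ)) * n ^ m ≤ c₁ / 2 * n * n ^ m :=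
            mul_le_mul_of_nonneg_right h2 (by positivity)
        _ = c₁ / 2 * n ^ (m + 1) := by ring
  have e4 : c₁ / 2 * n ^ (Nat.card α - 2) ≤ c₁ / 2 * n ^ s :=
    mul_le_mul_of_nonneg_left (pow_le_pow_right₀ hn1 hsα) (by positivity)
  rw [← hN]
  linarith

end Pool.Agent.WTE
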