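import Pool.Agent.WTE.ProgX

/-!
# [WTE-EC] exact results without stability (helper93)

Let `H` be bipartite, without isolated vertices, `h = |V(H)|`, and let `π(K)` be the supremum of the homomorphism densities of `K` in triangle-free graphs. Suppose
`∑ u, π(H - u) < 3 h π(H)`. Then `FewTri H` (`fewTri_num`).

`three_dg`: let `x y z` be a triangle in a graph in which the ends of every edge have at most `C` common neighbours. A labelled copy of `H` with `u` at `x` gives a copy of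
`H - u`, in which the neighbours of `u` are in `N(x)`. As `N(x)`, `N(y)`, `N(z)` are almost disjoint, `dg x + dg y + dg z ≤ ∑ u, inj (H - u) G + O(n^(h-2))`.
By `removal`, `inj (H - u) G ≤ (π(H - u) + o(1)) n^(h-1)`. So a graph in the class `Cod` in which all `dg` are at least `(π(H) h - ε) n^(h-1)` is triangle-free, and the
claim follows by progressive induction (`progX`).
-/

set_option autoImplicit false

namespace Pool.Agent.WTE

open Pool.Agent.WT7

variable {α β V : Type}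

/-- the copies of `H - u` with the neighbours of `u` in `N(x)` -/
private def Su (H : SimpleGraph α) (G : SimpleGraph V) (u : α) (x : V) : Set (({w | w ≠ u} : Set α) → V) :=
  {g | IsInj (H.induce {w | w ≠ u}) G g ∧ ∀ w, H.Adj u w.1 → G.Adj x (g w)}

private theorem dg_le_sum [Fintype α] [Finite V] (H : SimpleGraph α) (G : SimpleGraph V) (x : V) :
    dg H G x ≤ ∑ u : α, (Su H G u x).ncard := by
  classical
  have := Fintype.ofFinite V
  have h1 : {f : α → V | IsInj H G f ∧ ∃ a, f a = x} ⊆ ⋃ u : α, {f : α → V | IsInj H G f ∧ f u = x} := by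
    rintro f ⟨hf, a, ha⟩
    exact Set.mem_iUnion.2 ⟨a, hf, ha⟩
  unfold dg
  refine (Set.ncard_le_ncard h1 (Set.toFinite _)).trans ((Set.ncard_iUnion_le_of_fintype _).trans ?_)
  refine Finset.sum_le_sum fun u _ => ?_
  refine Set.ncard_le_ncard_of_injOn (fun f w => f w.1) ?_ ?_ (Set.toFinite _)
  · rintro f ⟨hf, hfu⟩
    refine ⟨⟨fun w w' hww => Subtype.ext (hf.1 hww), fun w w' hww => hf.2 _ _ hww⟩, fun w hw => ?_⟩
    have h2 := hf.2 _ _ hw
    rwa [hfu] at h2
  · rintro f ⟨hf, hfu⟩ f' ⟨hf', hfu'⟩ h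
    funext w
    by_cases hw : w = u
    · rw [hw, hfu, hfu']
    · exact congrFun h ⟨w, hw⟩

private theorem Su_inter [Fintype α] [Finite V] {H : SimpleGraph α} (hI : NoIso H) {G : SimpleGraph V} {C : ℕ} (u : α)
    {x y : V} (hC : (G.neighborSet x ∩ G.neighborSet y).ncard ≤ C) :
    (Su H G u x ∩ Su H G u y).ncard ≤ Nat.card α * (C * Nat.card V ^ (Nat.card α - 2)) := by
  classical
  obtain ⟨w₀, hw₀⟩ := hI u
  have hw₀u : w₀ ≠ u := hw₀.ne'
  set R : Set (Fin 1 → V) := {r | r 0 ∈ G.neighborSet x ∩ G.neighborSet y} with hR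
  have hRc : R.ncard ≤ C := by
    refine le_trans ?_ hC
    refine Set.ncard_le_ncard_of_injOn (fun r => r 0) (fun r hr => hr) ?_ (Set.toFinite _)
    intro r _ r' _ h
    funext i
    rw [Subsingleton.elim i 0]
    exact h
  have hcard : Nat.card ({w | w ≠ u} : Set α) = Nat.card α - 1 := by
    rw [Nat.card_coe_set_eq]
    have h1 := Set.ncard_add_ncard_compl ({u} : Set α)
    rw [Set.ncard_singleton] at h1
    have h2 : ({u} : Set α)ᶜ = {w | w ≠ u} := by
      ext w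
      simp
    rw [h2] at h1
    omega
  have h1 := cntk (α := ({w | w ≠ u} : Set α)) 1 R
  rw [hcard, pow_one] at h1
  refine (Set.ncard_le_ncard ?_ (Set.toFinite _)).trans (h1.trans ?_)
  · rintro g ⟨⟨-, hg⟩, ⟨-, hg'⟩⟩
    refine ⟨fun _ => ⟨w₀, hw₀u⟩, fun i j _ => Subsingleton.elim _ _, ?_, ?_⟩
    · exact hg ⟨w₀, hw₀u⟩ hw₀
    · exact hg' ⟨w₀, hw₀u⟩ hw₀
  · have h2 : Nat.card α - 1 - 1 = Nat.card α - 2 := by omega
    rw [h2]
    exact Nat.mul_le_mul (Nat.sub_le _ _) (Nat.mul_le_mul_right _ hRc)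

private theorem three_sets {T : Type} [Finite T] (X Y Z U : Set T) (hX : X ⊆ U) (hY : Y ⊆ U) (hZ : Z ⊆ U) {m : ℕ}
    (hXY : (X ∩ Y).ncard ≤ m) (hXZ : (X ∩ Z).ncard ≤ m) (hYZ : (Y ∩ Z).ncard ≤ m) :
    X.ncard + Y.ncard + Z.ncard ≤ U.ncard + 3 * m := by
  have h1 := Set.ncard_union_add_ncard_inter X Y (Set.toFinite _) (Set.toFinite _)
  have h2 := Set.ncard_union_add_ncard_inter (X ∪ Y) Z (Set.toFinite _) (Set.toFinite _)
  have h3 : ((X ∪ Y) ∩ Z).ncard ≤ (X ∩ Z).ncard + (Y ∩ Z).ncard := by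
    rw [Set.union_inter_distrib_right]
    exact Set.ncard_union_le _ _
  have h4 : ((X ∪ Y) ∪ Z).ncard ≤ U.ncard :=
    Set.ncard_le_ncard (Set.union_subset (Set.union_subset hX hY) hZ) (Set.toFinite _)
  omega

/-- the labelled copies through the vertices of a triangle -/
theorem three_dg [Fintype α] [Finite V] {H : SimpleGraph α} (hI : NoIso H) {G : SimpleGraph V} {C : ℕ} (hC : Cod G C)
    {x y z : V} (hxy : G.Adj x y) (hxz : G.Adj x z) (hyz : G.Adj y z) :
    dg H G x + dg H G y + dg H G z ≤ (∑ u : α, inj (H.induce {w | w ≠ u}) G) +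
      3 * (Nat.card α * (Nat.card α * (C * Nat.card V ^ (Nat.card α - 2)))) := by
  classical
  have h1 := dg_le_sum H G x
  have h2 := dg_le_sum H G y
  have h3 := dg_le_sum H G z
  have h4 : ∀ u : α, (Su H G u x).ncard + (Su H G u y).ncard + (Su H G u z).ncard ≤
      inj (H.induce {w | w ≠ u}) G + 3 * (Nat.card α * (C * Nat.card V ^ (Nat.card α - 2))) := by
    intro u
    exact three_sets _ _ _ {g | IsInj (H.induce {w | w ≠ u}) G g} (fun g hg => hg.1) (fun g hg => hg.1)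
      (fun g hg => hg.1) (Su_inter hI u (hC x y hxy)) (Su_inter hI u (hC x z hxz)) (Su_inter hI u (hC y z hyz))
  have h5 := Finset.sum_le_sum fun u (_ : u ∈ (Finset.univ : Finset α)) => h4 u
  rw [Finset.sum_add_distrib, Finset.sum_add_distrib, Finset.sum_add_distrib] at h5
  have h6 : ∑ _u : α, 3 * (Nat.card α * (C * Nat.card V ^ (Nat.card α - 2))) =
      3 * (Nat.card α * (Nat.card α * (C * Nat.card V ^ (Nat.card α - 2)))) := by
    rw [Finset.sum_const, Finset.card_univ, smul_eq_mul, Nat.card_eq_fintype_card (α := α)]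
    ring
  rw [h6] at h5
  omega

/-- copies in almost triangle-free graphs -/
theorem inj_le_pi {γ : Type} [Finite γ] [Finite V] [Nonempty V] (K : SimpleGraph γ) {G G' : SimpleGraph V}
    (hcf : G'.CliqueFree 3) {τ : ℝ} (hτ : 0 ≤ τ) (hd : (df G G' : ℝ) ≤ τ * (Nat.card V : ℝ) ^ 2) :
    (inj K G : ℝ) ≤ (pi3 K + (Nat.card γ : ℝ) ^ 2 * τ) * (Nat.card V : ℝ) ^ Nat.card γ := by
  classical
  have hn : (0 : ℝ) < (Nat.card V : ℝ) := by exact_mod_cast Nat.card_pos
  have h1 : (inj K G' : ℝ) ≤ pi3 K * (Nat.card V : ℝ) ^ Nat.card γ := by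
    refine le_trans ?_ (hom_le_pi K hcf)
    exact_mod_cast inj_le_hom K G'
  have h0 : (0 : ℝ) ≤ (Nat.card γ : ℝ) ^ 2 * τ * (Nat.card V : ℝ) ^ Nat.card γ := by positivity
  by_cases hγ : 2 ≤ Nat.card γ
  · have h2 : (inj K G : ℝ) ≤ inj K G' + (Nat.card γ : ℝ) ^ 2 * ((df G G' : ℝ) * (Nat.card V : ℝ) ^ (Nat.card γ - 2)) := by
      exact_mod_cast inj_le_add_df K G G'
    have h3 : (df G G' : ℝ) * (Nat.card V : ℝ) ^ (Nat.card γ - 2) ≤ τ * (Nat.card V : ℝ) ^ Nat.card γ := by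
      calc (df G G' : ℝ) * (Nat.card V : ℝ) ^ (Nat.card γ - 2) ≤
            τ * (Nat.card V : ℝ) ^ 2 * (Nat.card V : ℝ) ^ (Nat.card γ - 2) :=
            mul_le_mul_of_nonneg_right hd (by positivity)
        _ = τ * (Nat.card V : ℝ) ^ Nat.card γ := by
            rw [mul_assoc, ← pow_add]
            congr 2
            omega
    have h4 := mul_le_mul_of_nonneg_left h3 (by positivity : (0 : ℝ) ≤ (Nat.card γ : ℝ) ^ 2)
    calc (inj K G : ℝ) ≤ _ := h2
      _ ≤ pi3 K * (Nat.card V : ℝ) ^ Nat.card γ + (Nat.card γ : ℝ) ^ 2 * (τ * (Nat.card V : ℝ) ^ Nat.card γ) :=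
          add_le_add h1 h4
      _ = _ := by ring
  · have hs : Subsingleton γ := by
      rw [← Finite.card_le_one_iff_subsingleton]
      omega
    have h2 : inj K G ≤ inj K G' := by
      unfold inj
      refine Set.ncard_le_ncard ?_ (Set.toFinite _)
      rintro f ⟨hf, -⟩
      refine ⟨hf, fun a b hab => ?_⟩
      rw [Subsingleton.elim a b] at hab
      exact absurd hab (K.loopless.irrefl _)
    have h3 : (inj K G : ℝ) ≤ inj K G' := by exact_mod_cast h2
    rw [add_mul]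
    linarith

/-- graphs of the class `Cod` in which all `dg` are large are triangle-free -/
theorem cf_of_dg [Fintype α] [Nonempty α] {H : SimpleGraph α} (hI : NoIso H)
    (hnum : ∑ u : α, pi3 (H.induce {w | w ≠ u}) < 3 * Nat.card α * pi3 H) (C : ℕ) :
    ∃ ε : ℝ, 0 < ε ∧ ∃ n₀ : ℕ, ∀ (V : Type) [Finite V], n₀ ≤ Nat.card V → ∀ G : SimpleGraph V, Cod G C →
      (∀ x, (pi3 H * Nat.card α - ε) * (Nat.card V : ℝ) ^ (Nat.card α - 1) ≤ dg H G x) → G.CliqueFree 3 := by
  classical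
  set g : ℝ := 3 * Nat.card α * pi3 H - ∑ u : α, pi3 (H.induce {w | w ≠ u}) with hg
  have hg0 : 0 < g := by rw [hg]; linarith
  have hh2 := two_le_card hI
  have hh : (0 : ℝ) < (Nat.card α : ℝ) := by exact_mod_cast (by omega : 0 < Nat.card α)
  set τ : ℝ := g / (4 * (Nat.card α : ℝ) ^ 3) with hτ
  have hτ0 : 0 < τ := by positivity
  obtain ⟨κ', hκ', hrem⟩ := removal hτ0
  obtain ⟨n₁, hn₁⟩ := exists_nat_ge ((C : ℝ) / κ')
  obtain ⟨n₂, hn₂⟩ := exists_nat_ge (12 * (Nat.card α : ℝ) ^ 2 * C / g)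
  refine ⟨g / 12, by positivity, n₁ + n₂ + 1, ?_⟩
  intro V _ hn G hC hdg
  have hV : Nonempty V := Finite.card_pos_iff.1 (by omega)
  have hN : (0 : ℝ) < (Nat.card V : ℝ) := by exact_mod_cast Nat.card_pos
  have hN1 : (C : ℝ) ≤ κ' * Nat.card V := by
    have h1 : (n₁ : ℝ) ≤ (Nat.card V : ℝ) := by exact_mod_cast (by omega : n₁ ≤ Nat.card V)
    have h2 := hn₁.trans h1
    rw [div_le_iff₀ hκ'] at h2
    linarith
  have hN2 : 12 * (Nat.card α : ℝ) ^ 2 * C ≤ g * Nat.card V := by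
    have h1 : (n₂ : ℝ) ≤ (Nat.card V : ℝ) := by exact_mod_cast (by omega : n₂ ≤ Nat.card V)
    have h2 := hn₂.trans h1
    rw [div_le_iff₀ hg0] at h2
    linarith
  obtain ⟨G', hle, hcf', hdf⟩ := hrem V G (by
    intro x
    have h1 : pe G (G.neighborSet x) (G.neighborSet x) ≤ Nat.card V * C := by
      unfold pe
      refine (pairs_le _ (G.neighborSet x) C (fun p hp => hp.1) ?_).trans ?_
      · intro w hw
        refine (Set.ncard_le_ncard ?_ (Set.toFinite _)).trans (hC x w hw)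
        rintro b ⟨-, h2, h3⟩
        exact ⟨h2, h3⟩
      · refine Nat.mul_le_mul_right _ ?_
        refine (Set.ncard_le_ncard (Set.subset_univ _) (Set.toFinite _)).trans (le_of_eq (Set.ncard_univ _))
    have h2 : (pe G (G.neighborSet x) (G.neighborSet x) : ℝ) ≤ Nat.card V * C := by exact_mod_cast h1
    calc (pe G (G.neighborSet x) (G.neighborSet x) : ℝ) ≤ Nat.card V * C := h2
      _ ≤ Nat.card V * (κ' * Nat.card V) := mul_le_mul_of_nonneg_left hN1 hN.le
      _ = κ' * (Nat.card V : ℝ) ^ 2 := by ring)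
  by_contra hcon
  rw [SimpleGraph.CliqueFree] at hcon
  push Not at hcon
  obtain ⟨s, hs⟩ := hcon
  rw [SimpleGraph.is3Clique_iff] at hs
  obtain ⟨x, y, z, hxy, hxz, hyz, -⟩ := hs
  have h1 := three_dg hI hC hxy hxz hyz
  have h2 : (dg H G x : ℝ) + dg H G y + dg H G z ≤ (∑ u : α, (inj (H.induce {w | w ≠ u}) G : ℝ)) +
      3 * (Nat.card α * (Nat.card α * (C * (Nat.card V : ℝ) ^ (Nat.card α - 2)))) := by exact_mod_cast h1
  have hcard : ∀ u : α, Nat.card ({w | w ≠ u} : Set α) = Nat.card α - 1 := by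
    intro u
    rw [Nat.card_coe_set_eq]
    have h1 := Set.ncard_add_ncard_compl ({u} : Set α)
    rw [Set.ncard_singleton] at h1
    have h2 : ({u} : Set α)ᶜ = {w | w ≠ u} := by
      ext w
      simp
    rw [h2] at h1
    omega
  set P : ℝ := (Nat.card V : ℝ) ^ (Nat.card α - 1) with hP
  have hP0 : 0 < P := by positivity
  have h3 : ∀ u : α, (inj (H.induce {w | w ≠ u}) G : ℝ) ≤
      (pi3 (H.induce {w | w ≠ u}) + (Nat.card α : ℝ) ^ 2 * τ) * P := by
    intro u
    have h4 := inj_le_pi (H.induce {w | w ≠ u}) hcf' hτ0.le hdf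
    rw [hcard u, ← hP] at h4
    refine h4.trans (mul_le_mul_of_nonneg_right ?_ hP0.le)
    have h5 : ((Nat.card α - 1 : ℕ) : ℝ) ^ 2 ≤ (Nat.card α : ℝ) ^ 2 :=
      pow_le_pow_left₀ (Nat.cast_nonneg _) (by exact_mod_cast Nat.sub_le _ _) 2
    have h6 := mul_le_mul_of_nonneg_right h5 hτ0.le
    linarith
  have h4 := Finset.sum_le_sum fun u (_ : u ∈ (Finset.univ : Finset α)) => h3 u
  rw [← Finset.sum_mul, Finset.sum_add_distrib, Finset.sum_const, Finset.card_univ, nsmul_eq_mul,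
    ← Nat.card_eq_fintype_card] at h4
  have h5 : (Nat.card α : ℝ) * ((Nat.card α : ℝ) ^ 2 * τ) = g / 4 := by
    rw [hτ]
    field_simp
  rw [h5] at h4
  have h6 : 3 * ((Nat.card α : ℝ) * (Nat.card α * (C * (Nat.card V : ℝ) ^ (Nat.card α - 2)))) ≤ g / 4 * P := by
    have h7 : P = (Nat.card V : ℝ) * (Nat.card V : ℝ) ^ (Nat.card α - 2) := by
      rw [hP, ← pow_succ']
      congr 1
      omega
    rw [h7]
    have h8 : (0 : ℝ) ≤ (Nat.card V : ℝ) ^ (Nat.card α - 2) := by positivity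
    have h9 := mul_le_mul_of_nonneg_right hN2 h8
    calc 3 * ((Nat.card α : ℝ) * (Nat.card α * (C * (Nat.card V : ℝ) ^ (Nat.card α - 2))))
        = (12 * (Nat.card α : ℝ) ^ 2 * C * (Nat.card V : ℝ) ^ (Nat.card α - 2)) / 4 := by ring
      _ ≤ (g * Nat.card V * (Nat.card V : ℝ) ^ (Nat.card α - 2)) / 4 := by linarith
      _ = _ := by ring
  have h7 := hdg x
  have h8 := hdg y
  have h9 := hdg z
  have h10 : 3 * ((pi3 H * Nat.card α - g / 12) * P) ≤ (∑ u : α, pi3 (H.induce {w | w ≠ u}) + g / 4) * P + g / 4 * P := by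
    linarith
  have h11 : (3 * Nat.card α * pi3 H - ∑ u : α, pi3 (H.induce {w | w ≠ u})) * P ≤ 3 / 4 * g * P := by
    linarith
  rw [← hg] at h11
  have h12 : 0 < g * P := mul_pos hg0 hP0
  linarith

/-- a graph with few vertices in triangles is in the class `Cod` -/
theorem cod_of_tri [Finite V] {G : SimpleGraph V} {e : ℕ} (h : (Tri G).ncard ≤ e) : Cod G e := by
  intro a b hab
  refine le_trans (Set.ncard_le_ncard ?_ (Set.toFinite _)) h
  rintro w ⟨hw1, hw2⟩
  exact ⟨a, b, SimpleGraph.Adj.symm hw1, SimpleGraph.Adj.symm hw2, hab⟩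

theorem exactC_num [Fintype α] [Nonempty α] {H : SimpleGraph α} (hI : NoIso H)
    (hnum : ∑ u : α, pi3 (H.induce {w | w ≠ u}) < 3 * Nat.card α * pi3 H) (C : ℕ) :
    ∃ n₀ : ℕ, ∀ n ≥ n₀, bC H C n ≤ a3 H n := by
  obtain ⟨ε, hε, n₁, hE⟩ := cf_of_dg hI hnum C
  refine progX H (f := bC H C) hε (n₁ := n₁) ?_
  intro n hn hlt
  obtain ⟨G, hG, hGb⟩ := exists_bC H C (n + 1)
  by_contra hcon
  have hall : ∀ x, (pi3 H * Nat.card α - ε) * ((Nat.card (Fin (n + 1)) : ℕ) : ℝ) ^ (Nat.card α - 1) ≤ dg H G x := by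
    intro x
    by_contra hx
    refine hcon ⟨dg H G x, ?_, ?_⟩
    · have h1 := bC_step H hG x
      rw [Nat.card_fin, Nat.add_sub_cancel, hGb] at h1
      exact h1
    · rw [Nat.card_fin] at hx
      push_cast at hx
      exact not_le.1 hx
  have h1 := hE (Fin (n + 1)) (by rw [Nat.card_fin]; omega) G hG hall
  have h2 := inj_le_a3 H h1
  rw [Nat.card_fin, hGb] at h2
  omega

theorem fewTri_num [Fintype α] [Nonempty α] {H : SimpleGraph α} (hI : NoIso H)
    (hnum : ∑ u : α, pi3 (H.induce {w | w ≠ u}) < 3 * Nat.card α * pi3 H) : FewTri H := by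
  intro e
  obtain ⟨n₀, hn₀⟩ := exactC_num hI hnum e
  refine ⟨n₀, fun n hn G hG => ?_⟩
  have h1 := inj_le_bC H (cod_of_tri hG)
  rw [Nat.card_fin] at h1
  exact h1.trans (hn₀ n hn)

end Pool.Agent.WTE
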