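import Pool.Agent.WTE.EC

/-!
# [WTE-ECFin] unlabelled copies (helper93)
-/

set_option autoImplicit false

namespace Pool.Agent.WTE

open Pool.Agent.WT7

variable {α β V : Type}

/-- `FewTri` in terms of unlabelled copies -/
theorem copy_of_fewTri [Finite α] {H : SimpleGraph α} (hc : FewTri H) : ∀ e : ℕ, ∃ n₀ : ℕ, ∀ n ≥ n₀,
    ∀ G : SimpleGraph (_root_.Fin n), (Tri G).ncard ≤ e →
      G.copyCount H ≤ ex n H (⊤ : SimpleGraph (_root_.Fin 3)) := by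
  intro e
  obtain ⟨n₀, hn₀⟩ := hc e
  refine ⟨n₀, fun n hn G hG => ?_⟩
  obtain ⟨G₁, hG₁, hG₁'⟩ := exists_a3 H n
  have h1 := hn₀ n hn G hG
  rw [← hG₁', inj_eq_aut_mul, inj_eq_aut_mul] at h1
  exact (Nat.le_of_mul_le_mul_left h1 (aut_pos H)).trans (le_ex H _ (top3_free.2 hG₁))

theorem ex_le_of_fewTri [Finite α] {H : SimpleGraph α} (hH : H.Colorable 2) (hc : FewTri H) [Finite β]
    {F : SimpleGraph β} (hF : F.chromaticNumber = 3) (he : ∃ e, IsColorCritical F e) :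
    ∃ n₀ : ℕ, ∀ n ≥ n₀, ex n H F ≤ ex n H (⊤ : SimpleGraph (_root_.Fin 3)) := by
  obtain ⟨e, he⟩ := he
  induction e with
  | _ u v =>
    obtain ⟨c, hcr⟩ := exists_crt hF he
    have hF' : F ≠ ⊥ := by
      rintro rfl
      exact hcr.adj
    obtain ⟨n₁, hn₁⟩ := exactAll hH hc hcr
    refine ⟨n₁, fun n hn => ?_⟩
    obtain ⟨G₂, hG₂, hG₂'⟩ := exists_ex H hF' n
    obtain ⟨G₁, hG₁, hG₁'⟩ := exists_a3 H n
    have h1 := inj_le_bF H F hG₂
    rw [Nat.card_fin] at h1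
    have h2 := h1.trans (hn₁ n hn)
    rw [← hG₁', inj_eq_aut_mul, inj_eq_aut_mul] at h2
    have h3 := Nat.le_of_mul_le_mul_left h2 (aut_pos H)
    rw [← hG₂']
    exact h3.trans (le_ex H _ (top3_free.2 hG₁))

end Pool.Agent.WTE
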