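import Pool.Agent.WTE.Up

/-!
# [WTE-Extr] the class `Cod`, its extremal number `bC`, extremality
-/

set_option autoImplicit false

namespace Pool.Agent.WTE

open Pool.Agent.WT7

variable {α β V : Type}

theorem cod_bot (C : ℕ) : Cod (⊥ : SimpleGraph V) C := fun a b h => absurd h (by simp)

theorem cod_comap {W : Type} [Finite V] [Finite W] {G : SimpleGraph V} {C : ℕ} (hC : Cod G C) (e : W → V)
    (he : Function.Injective e) : Cod (G.comap e) C := by
  intro a b hab
  refine le_trans ?_ (hC (e a) (e b) hab)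
  refine Set.ncard_le_ncard_of_injOn e ?_ he.injOn (Set.toFinite _)
  rintro c ⟨h1, h2⟩
  exact ⟨h1, h2⟩

private theorem extr_bdd [Finite α] (H : SimpleGraph α) (n : ℕ) (P : SimpleGraph (Fin n) → Prop) :
    BddAbove {m | ∃ G : SimpleGraph (Fin n), P G ∧ inj H G = m} := by
  refine ⟨Nat.card (Fin n) ^ Nat.card α, ?_⟩
  rintro m ⟨G, -, rfl⟩
  exact (inj_le_hom H G).trans (hom_le_pow H G)

theorem inj_le_bC [Finite α] [Finite V] (H : SimpleGraph α) {C : ℕ} {G : SimpleGraph V} (hG : Cod G C) :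
    inj H G ≤ bC H C (Nat.card V) := by
  have h1 : inj H G ≤ inj H (G.comap (Finite.equivFin V).symm) := by
    refine inj_le_of_emb H (Finite.equivFin V) (Finite.equivFin V).injective ?_
    intro a b hab
    rw [SimpleGraph.comap_adj, Equiv.symm_apply_apply, Equiv.symm_apply_apply]
    exact hab
  refine h1.trans ?_
  unfold bC
  exact le_csSup (extr_bdd H _ _) ⟨_, cod_comap hG _ (Finite.equivFin V).symm.injective, rfl⟩

theorem exists_bC [Finite α] (H : SimpleGraph α) (C n : ℕ) :
    ∃ G : SimpleGraph (Fin n), Cod G C ∧ inj H G = bC H C n := by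
  have h := Nat.sSup_mem (s := {m | ∃ G : SimpleGraph (Fin n), Cod G C ∧ inj H G = m})
    ⟨_, ⊥, cod_bot C, rfl⟩ (extr_bdd H n _)
  exact h

theorem bC_step [Finite α] [Finite V] (H : SimpleGraph α) {C : ℕ} {G : SimpleGraph V} (hG : Cod G C) (v : V) :
    inj H G ≤ bC H C (Nat.card V - 1) + dg H G v := by
  have h1 := inj_le_bC H (cod_comap hG (Subtype.val : {x : V | x ≠ v} → V) Subtype.val_injective)
  have h2 : Nat.card {x : V | x ≠ v} = Nat.card V - 1 := by
    have h3 : {x : V | x ≠ v} = Set.univ \ {v} := by ext; simp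
    rw [Nat.card_coe_set_eq, h3, Set.ncard_sdiff_singleton_of_mem (Set.mem_univ v), Set.ncard_univ]
  rw [h2] at h1
  exact (inj_le_del H G v).trans (Nat.add_le_add_right h1 _)

/-- a vertex which is in no triangle can be cloned -/
theorem cod_mv [Finite V] {G : SimpleGraph V} {C : ℕ} (hC : Cod G C) {v : V} (hv : v ∉ Tri G) (y : V) :
    Cod (Mv G {y} (G.neighborSet v)) C := by
  have hno : ∀ a b, G.Adj v a → G.Adj v b → ¬ G.Adj a b := fun a b h1 h2 h3 => hv ⟨a, b, h1, h2, h3⟩
  have hy : y ∈ ({y} : Set V) := rfl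
  have key : ∀ b, (Mv G {y} (G.neighborSet v)).Adj y b →
      ((Mv G {y} (G.neighborSet v)).neighborSet y ∩ (Mv G {y} (G.neighborSet v)).neighborSet b).ncard ≤ C := by
    intro b hb
    have h1 := (mv_in hy).1 hb
    have : (Mv G {y} (G.neighborSet v)).neighborSet y ∩ (Mv G {y} (G.neighborSet v)).neighborSet b = ∅ := by
      rw [Set.eq_empty_iff_forall_notMem]
      rintro c ⟨h2, h3⟩
      have h4 := (mv_in hy).1 (show (Mv G {y} (G.neighborSet v)).Adj y c from h2)
      exact hno b c h1.2 h4.2 ((mv_out h1.1 h4.1).1 h3)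
    rw [this, Set.ncard_empty]
    exact Nat.zero_le _
  intro a b hab
  by_cases ha : a = y
  · subst ha
    exact key b hab
  · by_cases hb : b = y
    · subst hb
      rw [Set.inter_comm]
      exact key a hab.symm
    · have ha' : a ∉ ({y} : Set V) := ha
      have hb' : b ∉ ({y} : Set V) := hb
      have hab' : G.Adj a b := (mv_out ha' hb').1 hab
      refine (Set.ncard_le_ncard ?_ (Set.toFinite _)).trans (hC a b hab')
      rintro c ⟨h2, h3⟩
      by_cases hc : c = y
      · subst hc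
        have h4 := (mv_in' hy).1 (show (Mv G {c} (G.neighborSet v)).Adj a c from h2)
        have h5 := (mv_in' hy).1 (show (Mv G {c} (G.neighborSet v)).Adj b c from h3)
        exact absurd hab' (hno a b h4.2 h5.2)
      · exact ⟨(mv_out ha' hc).1 h2, (mv_out hb' hc).1 h3⟩

/-- in a maximiser all vertices have at least the `dg` of the vertices in no triangle, up to `h² n^(h-2)` -/
theorem extremal [Finite α] [Finite V] (H : SimpleGraph α) {G : SimpleGraph V} {C : ℕ} (hC : Cod G C)
    (hmax : bC H C (Nat.card V) ≤ inj H G) {v : V} (hv : v ∉ Tri G) (y : V) :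
    dg H G v ≤ dg H G y + Nat.card α ^ 2 * Nat.card V ^ (Nat.card α - 2) := by
  by_cases hvy : v = y
  · subst hvy
    omega
  have h1 := move H G {y} v hvy (dg H G y) (by
    intro w hw
    rw [Set.mem_singleton_iff.1 hw])
  have h2 := (inj_le_bC H (cod_mv hC hv y)).trans hmax
  rw [Set.ncard_singleton] at h1
  simp only [one_mul, one_pow] at h1
  omega

/-- all vertices in triangles: the error is at most the number of pairs in `Tri G` -/
theorem inj_le_tri [Finite α] [Finite V] (H : SimpleGraph α) (G : SimpleGraph V) :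
    inj H G ≤ a3 H (Nat.card V) + Nat.card α ^ 2 * ((Tri G).ncard ^ 2 * Nat.card V ^ (Nat.card α - 2)) := by
  classical
  let G' : SimpleGraph V :=
    { Adj := fun a b => G.Adj a b ∧ ¬ (a ∈ Tri G ∧ b ∈ Tri G)
      symm := ⟨fun a b h => ⟨h.1.symm, fun h' => h.2 ⟨h'.2, h'.1⟩⟩⟩
      loopless := ⟨fun a h => G.loopless.irrefl _ h.1⟩ }
  have hcf : G'.CliqueFree 3 := by
    intro s hs
    rw [SimpleGraph.is3Clique_iff] at hs
    obtain ⟨a, b, c, hab, hac, hbc, -⟩ := hs
    exact hab.2 ⟨⟨b, c, hab.1, hac.1, hbc.1⟩, ⟨a, c, hab.1.symm, hbc.1, hac.1⟩⟩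
  have hdf : df G G' ≤ (Tri G).ncard ^ 2 := by
    rw [pow_two, ← Set.ncard_prod]
    unfold df
    refine Set.ncard_le_ncard ?_ (Set.toFinite _)
    rintro ⟨a, b⟩ ⟨h1, h2⟩
    by_contra h3
    exact h2 ⟨h1, fun h4 => h3 ⟨h4.1, h4.2⟩⟩
  have h1 := inj_le_add_df H G G'
  have h2 := inj_le_a3 H hcf
  have h3 := Nat.mul_le_mul_left (Nat.card α ^ 2) (Nat.mul_le_mul_right (Nat.card V ^ (Nat.card α - 2)) hdf)
  omega

end Pool.Agent.WTE
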