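import Pool.Agent.WTE.Defs
import Pool.Agent.WT7.FinM

/-!
# [WTE-Fin] (E) the final layer: isolated vertices of `H`, unlabelled copies, the critical edge (helper57)

`MainSt F`: the statement for `H` without isolated vertices, for labelled copies. `all_of`: all bipartite `H` (`inj_iso`).
`ex_of`: `ex n H F ≤ ex n H K₃ + K n^(h-2)`. `good_of`: if `H` is weakly `K₃`-Turan-good then for large `n` a complete bipartite graph has at
least `ex n H F - K n^(h-2)` copies of `H`.
-/

set_option autoImplicit false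

namespace Pool.Agent.WTE

open Pool.Agent.WT7

variable {α β V : Type}

/-- the statement for labelled copies and `H` without isolated vertices -/
def MainSt (F : SimpleGraph β) : Prop :=
  ∀ (α : Type) [Finite α] [Nonempty α] (H : SimpleGraph α), H.Colorable 2 → NoIso H →
    ∃ K : ℕ, ∀ n, bF H F n ≤ a3 H n + K * n ^ (Nat.card α - 2)

private theorem fn_empty {γ : Type} [IsEmpty γ] (K : SimpleGraph γ) (G G₁ : SimpleGraph V) :
    inj K G ≤ inj K G₁ := by
  unfold inj
  have h : {f : γ → V | IsInj K G f} = {f : γ → V | IsInj K G₁ f} := by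
    ext f
    constructor
    · intro hf
      exact ⟨hf.1, fun x => isEmptyElim x⟩
    · intro hf
      exact ⟨hf.1, fun x => isEmptyElim x⟩
  rw [h]

theorem all_of {F : SimpleGraph β} (hFe : ∃ a b, F.Adj a b) (hmain : MainSt F) [Finite α] {H : SimpleGraph α}
    (hH : H.Colorable 2) : ∃ K : ℕ, ∀ n, bF H F n ≤ a3 H n + K * n ^ (Nat.card α - 2) := by
  classical
  rcases Set.eq_empty_or_nonempty {x | ∃ y, H.Adj x y} with hS | ⟨x₀, hx₀⟩
  · refine ⟨0, fun n => ?_⟩
    obtain ⟨G, -, hG⟩ := exists_bF H hFe n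
    have hbot : (⊥ : SimpleGraph (Fin n)).CliqueFree 3 := SimpleGraph.cliqueFree_bot (by norm_num)
    have h1 : inj H G ≤ inj H (⊥ : SimpleGraph (Fin n)) := by
      rw [inj_iso H G, inj_iso H (⊥ : SimpleGraph (Fin n))]
      refine Nat.mul_le_mul_right _ ?_
      have : IsEmpty ↥{x | ∃ y, H.Adj x y} := by
        rw [hS]
        infer_instance
      exact fn_empty _ _ _
    have h2 := inj_le_a3 H hbot
    rw [Nat.card_fin] at h2
    rw [← hG]
    exact (h1.trans h2).trans (Nat.le_add_right _ _)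
  · have hne : Nonempty ↥{x | ∃ y, H.Adj x y} := ⟨⟨x₀, hx₀⟩⟩
    have hH' : (H.induce {x | ∃ y, H.Adj x y}).Colorable 2 := by
      obtain ⟨C⟩ := hH
      exact ⟨C.comp (SimpleGraph.Embedding.induce _).toHom⟩
    have hI : NoIso (H.induce {x | ∃ y, H.Adj x y}) := by
      rintro ⟨x, y, hxy⟩
      exact ⟨⟨y, x, hxy.symm⟩, hxy⟩
    obtain ⟨K, hK⟩ := hmain _ _ hH' hI
    set s : ℕ := ({x | ∃ y, H.Adj x y} : Set α).ncard with hs
    have hcs : Nat.card ↥{x | ∃ y, H.Adj x y} = s := Nat.card_coe_set_eq _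
    have hs2 : 2 ≤ s := by
      obtain ⟨y₀, hxy⟩ := hx₀
      have hsub : ({x₀, y₀} : Set α) ⊆ {x | ∃ y, H.Adj x y} := by
        rintro z (rfl | rfl)
        · exact ⟨y₀, hxy⟩
        · exact ⟨x₀, hxy.symm⟩
      have h1 := Set.ncard_le_ncard hsub (Set.toFinite _)
      rw [Set.ncard_pair hxy.ne] at h1
      exact h1
    have hsh : s ≤ Nat.card α := by
      have h1 := Set.ncard_le_ncard (Set.subset_univ {x | ∃ y, H.Adj x y}) (Set.toFinite _)
      rw [Set.ncard_univ] at h1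
      exact h1
    refine ⟨K, fun n => ?_⟩
    obtain ⟨G, hGF, hG⟩ := exists_bF H hFe n
    obtain ⟨G₁, hG₁f, hG₁⟩ := exists_a3 (H.induce {x | ∃ y, H.Adj x y}) n
    have h1 := inj_le_bF (H.induce {x | ∃ y, H.Adj x y}) F hGF
    rw [Nat.card_fin] at h1
    have h2 := h1.trans (hK n)
    rw [← hG₁, hcs] at h2
    have h4 := inj_le_a3 H hG₁f
    rw [Nat.card_fin] at h4
    rw [← hG]
    have h5 := inj_iso H G
    have h6 := inj_iso H G₁
    rw [Nat.card_fin, ← hs] at h5 h6
    rw [h5]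
    set q := (n - s).descFactorial (Nat.card α - s) with hq
    have h7 : q ≤ n ^ (Nat.card α - s) :=
      (Nat.descFactorial_le_pow _ _).trans (Nat.pow_le_pow_left (Nat.sub_le _ _) _)
    calc inj (H.induce {x | ∃ y, H.Adj x y}) G * q
        ≤ (inj (H.induce {x | ∃ y, H.Adj x y}) G₁ + K * n ^ (s - 2)) * q := Nat.mul_le_mul_right _ h2
      _ = inj H G₁ + K * n ^ (s - 2) * q := by rw [h6, add_mul]
      _ ≤ a3 H n + K * n ^ (s - 2) * n ^ (Nat.card α - s) := Nat.add_le_add h4 (Nat.mul_le_mul_left _ h7)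
      _ = a3 H n + K * n ^ (Nat.card α - 2) := by
          rw [mul_assoc, ← pow_add]
          congr 3
          omega

theorem exists_crt {F : SimpleGraph β} (hF : F.chromaticNumber = 3) {u v : β}
    (he : IsColorCritical F s(u, v)) : ∃ c : β → Bool, Crt F u v c := by
  classical
  obtain ⟨he1, he2⟩ := he
  have hadj : F.Adj u v := he1
  have h2 : ¬ F.Colorable 2 := by
    intro h
    have h' := SimpleGraph.chromaticNumber_le_iff_colorable.2 h
    rw [hF] at h'
    exact absurd h' (by decide)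
  have h3 : (F.deleteEdges {s(u, v)}).Colorable 2 := by
    rw [hF] at he2
    refine SimpleGraph.chromaticNumber_le_iff_colorable.1 ?_
    refine Order.le_of_lt_add_one ?_
    have h4 : ((2 : ℕ) : ℕ∞) + 1 = 3 := by norm_num
    rw [h4]
    exact he2
  obtain ⟨C⟩ := h3
  have hC : ∀ x y, F.Adj x y → s(x, y) ≠ s(u, v) → C x ≠ C y := by
    intro x y hxy hne
    refine C.valid ?_
    rw [SimpleGraph.deleteEdges_adj]
    exact ⟨hxy, fun h => hne (Set.mem_singleton_iff.1 h)⟩
  have huv : C v = C u := by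
    by_contra hne
    refine h2 ⟨SimpleGraph.Coloring.mk C ?_⟩
    intro x y hxy
    by_cases h : s(x, y) = s(u, v)
    · rcases Sym2.eq_iff.1 h with ⟨rfl, rfl⟩ | ⟨rfl, rfl⟩
      · exact fun h' => hne h'.symm
      · exact hne
    · exact hC x y hxy h
  refine ⟨fun x => decide (C x = C u), hadj, by simp, by simp [huv], ?_⟩
  intro x y hxy
  by_cases h : s(x, y) = s(u, v)
  · right
    rcases Sym2.eq_iff.1 h with h | h
    · exact Or.inl h
    · exact Or.inr h
  · left
    have h5 := hC x y hxy h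
    intro h6
    have h7 : (C x = C u) ↔ (C y = C u) := decide_eq_decide.1 h6
    by_cases h8 : C x = C u
    · exact h5 (h8.trans (h7.1 h8).symm)
    · have h9 : C y ≠ C u := fun h => h8 (h7.2 h)
      omega

private theorem fn_bdd [Finite α] (H : SimpleGraph α) (n : ℕ) (P : SimpleGraph (_root_.Fin n) → Prop) :
    BddAbove {m | ∃ G : SimpleGraph (_root_.Fin n), P G ∧ G.copyCount H = m} := by
  refine ⟨Nat.card (_root_.Fin n) ^ Nat.card α, ?_⟩
  rintro m ⟨G, -, rfl⟩
  have h1 := (inj_le_hom H G).trans (hom_le_pow H G)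
  rw [inj_eq_aut_mul] at h1
  exact (Nat.le_mul_of_pos_left _ (aut_pos H)).trans h1

private theorem fn_le_ex [Finite α] (H : SimpleGraph α) (F : SimpleGraph β) {n : ℕ}
    {G : SimpleGraph (_root_.Fin n)} (hG : F.Free G) : G.copyCount H ≤ ex n H F :=
  le_csSup (fn_bdd H n _) ⟨G, hG, rfl⟩

theorem ex_of [Finite α] {H : SimpleGraph α} {F : SimpleGraph β} (hFe : ∃ a b, F.Adj a b) {K : ℕ}
    (hall : ∀ n, bF H F n ≤ a3 H n + K * n ^ (Nat.card α - 2)) (n : ℕ) :
    ex n H F ≤ ex n H (⊤ : SimpleGraph (_root_.Fin 3)) + K * n ^ (Nat.card α - 2) := by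
  have hF' : F ≠ ⊥ := by
    rintro rfl
    obtain ⟨a, b, hab⟩ := hFe
    exact hab
  obtain ⟨G, hGF, hG⟩ := Nat.sSup_mem (s := {m | ∃ G : SimpleGraph (_root_.Fin n), F.Free G ∧ G.copyCount H = m})
    ⟨_, ⊥, SimpleGraph.free_bot hF', rfl⟩ (fn_bdd H n _)
  obtain ⟨G₁, hG₁, hG₁'⟩ := exists_a3 H n
  have h1 := inj_le_bF H F hGF
  rw [Nat.card_fin] at h1
  have h2 : inj H G ≤ inj H G₁ + K * n ^ (Nat.card α - 2) := by
    rw [hG₁']
    exact h1.trans (hall n)
  rw [inj_eq_aut_mul, inj_eq_aut_mul] at h2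
  have ha := aut_pos H
  have h3 : G.copyCount H ≤ G₁.copyCount H + K * n ^ (Nat.card α - 2) := by
    refine Nat.le_of_mul_le_mul_left (h2.trans ?_) ha
    rw [mul_add]
    exact Nat.add_le_add_left (Nat.le_mul_of_pos_left _ ha) _
  have h4 : (⊤ : SimpleGraph (_root_.Fin 3)).Free G₁ := by
    have h5 := SimpleGraph.cliqueFree_iff.1 hG₁
    rintro ⟨f⟩
    exact h5.elim f
  have h5 : ex n H F = G.copyCount H := hG.symm
  rw [h5]
  exact h3.trans (Nat.add_le_add_right (fn_le_ex H _ h4) _)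

theorem good_of [Finite α] {H : SimpleGraph α} {F : SimpleGraph β} (hF : F.chromaticNumber = 3) {K : ℕ}
    (hex : ∀ n, ex n H F ≤ ex n H (⊤ : SimpleGraph (_root_.Fin 3)) + K * n ^ (Nat.card α - 2))
    (hg : WeaklyTuranGood H (⊤ : SimpleGraph (_root_.Fin 3))) :
    ∃ n₀ : ℕ, ∀ n ≥ n₀, ∃ G : SimpleGraph (_root_.Fin n), IsCompletePartite G 2 ∧ F.Free G ∧
      ex n H F ≤ G.copyCount H + K * n ^ (Nat.card α - 2) := by
  obtain ⟨k, hk, n₀, hn₀⟩ := hg
  have hk2 : k = 2 := by
    rw [SimpleGraph.chromaticNumber_top, Fintype.card_fin] at hk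
    have h := Nat.cast_injective (R := ℕ∞) hk
    omega
  subst hk2
  refine ⟨n₀, fun n hn => ?_⟩
  obtain ⟨G, hG, hG'⟩ := hn₀ n hn
  refine ⟨G, hG, ?_, ?_⟩
  · rintro ⟨f⟩
    obtain ⟨d, -, hd⟩ := hG
    have h2 : F.Colorable 2 := by
      refine ⟨SimpleGraph.Coloring.mk (fun x => d (f x)) ?_⟩
      intro x y hxy
      exact (hd _ _).1 (f.toHom.map_adj hxy)
    have h' := SimpleGraph.chromaticNumber_le_iff_colorable.2 h2
    rw [hF] at h'
    exact absurd h' (by decide)
  · rw [hG']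
    exact hex n

/-- the final statement from the main theorem for labelled copies -/
theorem final_of [Finite α] {H : SimpleGraph α} (hH : H.Colorable 2) {F : SimpleGraph β}
    (hF : F.chromaticNumber = 3) {u v : β} (he : IsColorCritical F s(u, v))
    (hmain : ∀ c : β → Bool, Crt F u v c → MainSt F) :
    ∃ K : ℕ, (∀ n, ex n H F ≤ ex n H (⊤ : SimpleGraph (_root_.Fin 3)) + K * n ^ (Nat.card α - 2)) ∧
      (WeaklyTuranGood H (⊤ : SimpleGraph (_root_.Fin 3)) → ∃ n₀ : ℕ, ∀ n ≥ n₀, ∃ G : SimpleGraph (_root_.Fin n),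
        IsCompletePartite G 2 ∧ F.Free G ∧ ex n H F ≤ G.copyCount H + K * n ^ (Nat.card α - 2)) := by
  obtain ⟨c, hc⟩ := exists_crt hF he
  have hFe : ∃ a b, F.Adj a b := ⟨u, v, hc.adj⟩
  obtain ⟨K, hK⟩ := all_of hFe (hmain c hc) hH
  have hex := fun n => ex_of hFe hK n
  exact ⟨K, hex, fun hg => good_of hF hex hg⟩

end Pool.Agent.WTE
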