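import Pool.Agent.WTE.Defs
import Pool.Agent.WT7.Rem

/-!
# [WTE-RemTri] removal inside `Tri G`

`removal` (WT7) for `G₁ = G.induce (Tri G)`: `pe G₁ N(x) N(x) ≤ e C ≤ κ' e²` if `e = |Tri G| ≥ C / κ'`. This gives `G₂ ≤ G₁`. `G'` = the pairs adjacent in `G` which are adjacent in `G₂` if both
vertices are in `Tri G`. All triangles of `G` are in `Tri G`.
-/

set_option autoImplicit false

namespace Pool.Agent.WTE

open Pool.Agent.WT7

variable {α β V : Type}

private lemma pe_nbr [Finite V] (G : SimpleGraph V) (C : ℕ) (hC : Cod G C) (x : V) :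
    pe G (G.neighborSet x) (G.neighborSet x) ≤ Nat.card V * C := by
  classical
  have : Fintype V := Fintype.ofFinite V
  have h1 : pe G (G.neighborSet x) (G.neighborSet x) =
      ((Finset.univ : Finset (V × V)).filter (fun p => G.Adj x p.1 ∧ G.Adj x p.2 ∧ G.Adj p.1 p.2)).card := by
    unfold pe
    rw [← Set.ncard_coe_finset]
    congr 1
    ext p
    simp
  rw [h1, Nat.card_eq_fintype_card]
  have h2 : ((Finset.univ : Finset (V × V)).filter (fun p => G.Adj x p.1 ∧ G.Adj x p.2 ∧ G.Adj p.1 p.2)).card ≤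
      C * (Finset.univ : Finset V).card := by
    refine Finset.card_le_mul_card_image_of_maps_to (f := Prod.fst) (fun p _ => Finset.mem_univ _) C ?_
    intro a _
    by_cases ha : G.Adj x a
    · have h3 := hC x a ha
      have h4 : (((Finset.univ : Finset (V × V)).filter (fun p => G.Adj x p.1 ∧ G.Adj x p.2 ∧ G.Adj p.1 p.2)).filter
          (fun p => p.1 = a)).card ≤ (G.neighborSet x ∩ G.neighborSet a).ncard := by
        rw [← Set.ncard_coe_finset]
        refine Set.ncard_le_ncard_of_injOn (fun p : V × V => p.2) ?_ ?_ (Set.toFinite _)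
        · intro p hp
          simp only [Finset.coe_filter, Finset.mem_filter, Finset.mem_univ, true_and, Set.mem_ofPred_eq] at hp
          obtain ⟨⟨h5, h6, h7⟩, h8⟩ := hp
          exact ⟨h6, h8 ▸ h7⟩
        · intro p hp p' hp' h
          simp only [Finset.coe_filter, Finset.mem_filter, Finset.mem_univ, true_and, Set.mem_ofPred_eq] at hp hp'
          exact Prod.ext (hp.2.trans hp'.2.symm) h
      exact h4.trans h3
    · have h4 : (((Finset.univ : Finset (V × V)).filter (fun p => G.Adj x p.1 ∧ G.Adj x p.2 ∧ G.Adj p.1 p.2)).filter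
          (fun p => p.1 = a)) = ∅ := by
        ext p
        simp only [Finset.mem_filter, Finset.mem_univ, true_and, Finset.notMem_empty, iff_false]
        rintro ⟨⟨h5, -, -⟩, h8⟩
        exact ha (h8 ▸ h5)
      rw [h4]
      simp
  rw [Finset.card_univ] at h2
  rw [mul_comm]
  exact h2

/-- (C) removal inside `Tri G` -/
theorem remTri {κ : ℝ} (hκ : 0 < κ) (C : ℕ) : ∃ e₀ : ℕ, ∀ (V : Type) [Finite V] (G : SimpleGraph V), Cod G C →
    e₀ ≤ (Tri G).ncard →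
      ∃ G' : SimpleGraph V, G' ≤ G ∧ G'.CliqueFree 3 ∧ (df G G' : ℝ) ≤ κ * ((Tri G).ncard : ℝ) ^ 2 := by
  obtain ⟨κ', hκ', hrem⟩ := removal hκ
  obtain ⟨m, hm⟩ := exists_nat_ge ((C : ℝ) / κ')
  refine ⟨m + 1, fun V _ G hC he => ?_⟩
  have hcard : Nat.card (Tri G) = (Tri G).ncard := Nat.card_coe_set_eq _
  have hne : Nonempty (Tri G) := by
    have h1 : 0 < (Tri G).ncard := by omega
    exact ((Set.ncard_pos (Set.toFinite _)).1 h1).to_subtype
  obtain ⟨G₁, hG₁⟩ : ∃ G₁ : SimpleGraph (Tri G), G₁ = G.induce (Tri G) := ⟨_, rfl⟩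
  have hadj : ∀ a b : Tri G, G₁.Adj a b ↔ G.Adj a b := by
    intro a b
    rw [hG₁]
    exact SimpleGraph.induce_adj
  have hC₁ : Cod G₁ C := by
    intro a b hab
    refine le_trans ?_ (hC a b ((hadj a b).1 hab))
    refine Set.ncard_le_ncard_of_injOn (fun z : Tri G => (z : V)) ?_ (Subtype.val_injective.injOn) (Set.toFinite _)
    intro z hz
    exact ⟨(hadj a z).1 hz.1, (hadj b z).1 hz.2⟩
  obtain ⟨G₂, hG₂, hfree, hdf⟩ := hrem (Tri G) G₁ (by
    intro x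
    have h1 := pe_nbr G₁ C hC₁ x
    have h2 : (pe G₁ (G₁.neighborSet x) (G₁.neighborSet x) : ℝ) ≤ (Nat.card (Tri G) : ℝ) * C := by exact_mod_cast h1
    refine h2.trans ?_
    have h3 : (m : ℝ) ≤ (Nat.card (Tri G) : ℝ) := by
      rw [hcard]
      have : m ≤ (Tri G).ncard := by omega
      exact_mod_cast this
    have h4 := hm.trans h3
    rw [div_le_iff₀ hκ'] at h4
    have h5 : (0 : ℝ) ≤ (Nat.card (Tri G) : ℝ) := Nat.cast_nonneg _
    calc (Nat.card (Tri G) : ℝ) * C ≤ (Nat.card (Tri G) : ℝ) * ((Nat.card (Tri G) : ℝ) * κ') :=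
          mul_le_mul_of_nonneg_left h4 h5
      _ = κ' * (Nat.card (Tri G) : ℝ) ^ 2 := by ring)
  obtain ⟨G', hG'⟩ : ∃ G' : SimpleGraph V, ∀ a b, G'.Adj a b ↔
      G.Adj a b ∧ ∀ (ha : a ∈ Tri G) (hb : b ∈ Tri G), G₂.Adj ⟨a, ha⟩ ⟨b, hb⟩ :=
    ⟨{ Adj := fun a b => G.Adj a b ∧ ∀ (ha : a ∈ Tri G) (hb : b ∈ Tri G), G₂.Adj ⟨a, ha⟩ ⟨b, hb⟩
       symm := ⟨fun a b h => ⟨h.1.symm, fun hb ha => (h.2 ha hb).symm⟩⟩
       loopless := ⟨fun a h => h.1.ne rfl⟩ }, fun a b => Iff.rfl⟩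
  refine ⟨G', fun a b h => ((hG' a b).1 h).1, ?_, ?_⟩
  · classical
    intro s hs
    rw [SimpleGraph.is3Clique_iff] at hs
    obtain ⟨a, b, w, hab, haw, hbw, -⟩ := hs
    rw [hG'] at hab haw hbw
    have ha : a ∈ Tri G := ⟨b, w, hab.1, haw.1, hbw.1⟩
    have hb : b ∈ Tri G := ⟨a, w, hab.1.symm, hbw.1, haw.1⟩
    have hw : w ∈ Tri G := ⟨a, b, haw.1.symm, hbw.1.symm, hab.1⟩
    refine hfree {⟨a, ha⟩, ⟨b, hb⟩, ⟨w, hw⟩} ?_
    rw [SimpleGraph.is3Clique_iff]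
    exact ⟨⟨a, ha⟩, ⟨b, hb⟩, ⟨w, hw⟩, hab.2 ha hb, haw.2 ha hw, hbw.2 hb hw, rfl⟩
  · rw [hcard] at hdf
    refine le_trans ?_ hdf
    have h1 : df G G' ≤ df G₁ G₂ := by
      unfold df
      have hsub : {p : V × V | G.Adj p.1 p.2 ∧ ¬ G'.Adj p.1 p.2} ⊆
          (fun p : Tri G × Tri G => ((p.1 : V), (p.2 : V))) '' {p : Tri G × Tri G | G₁.Adj p.1 p.2 ∧ ¬ G₂.Adj p.1 p.2} := by
        rintro ⟨a, b⟩ ⟨h2, h3⟩
        rw [hG'] at h3
        simp only at h2 h3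
        push Not at h3
        obtain ⟨ha, hb, h4⟩ := h3 h2
        exact ⟨(⟨a, ha⟩, ⟨b, hb⟩), ⟨(hadj _ _).2 h2, h4⟩, rfl⟩
      exact (Set.ncard_le_ncard hsub (Set.toFinite _)).trans (Set.ncard_image_le (Set.toFinite _))
    exact_mod_cast h1

end Pool.Agent.WTE
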