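import Pool.Agent.WTE.Defs

/-!
# [WTE-Sampling] vertices with almost equal neighbourhoods (helper93)

A random sequence `S` of `s` vertices: for most `y` the neighbourhood of `y` is up to few vertices the set of the `v` which have no common neighbour with `y` in `S`, so it is
determined by the trace of `N(y)` on `S` (`2^s` possibilities).
-/

set_option autoImplicit false

namespace Pool.Agent.WTE

open Pool.Agent.WT7

variable {α β V : Type}

open Classical in
private theorem samp_one [Fintype V] (s : ℕ) (A : Finset V) (i : Fin s) :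
    Fintype.card V * (Finset.univ.filter fun S : Fin s → V => S i ∈ A).card ≤ A.card * Fintype.card V ^ s := by
  have h := Finset.card_le_card_of_injOn
    (s := (Finset.univ : Finset V) ×ˢ (Finset.univ.filter fun S : Fin s → V => S i ∈ A))
    (t := A ×ˢ (Finset.univ : Finset (Fin s → V)))
    (fun p => (p.2 i, Function.update p.2 i p.1)) (by
      intro p hp
      simp at hp ⊢
      exact hp) (by
      rintro ⟨w, S⟩ _ ⟨w', S'⟩ _ h
      simp only [Prod.mk.injEq] at h
      obtain ⟨h1, h2⟩ := h
      have hw : w = w' := by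
        have := congrFun h2 i
        simpa using this
      subst hw
      refine Prod.ext rfl ?_
      funext j
      by_cases hj : j = i
      · subst hj
        exact h1
      · have := congrFun h2 j
        simpa [Function.update_of_ne hj] using this)
  simpa [Finset.card_product] using h

open Classical in
private theorem samp_hit [Fintype V] (s : ℕ) (A : Finset V) :
    Fintype.card V * (Finset.univ.filter fun S : Fin s → V => ∃ i, S i ∈ A).card ≤
      s * A.card * Fintype.card V ^ s := by
  have h1 : (Finset.univ.filter fun S : Fin s → V => ∃ i, S i ∈ A)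
      ⊆ Finset.univ.biUnion (fun i : Fin s => Finset.univ.filter fun S : Fin s → V => S i ∈ A) := by
    intro S hS
    simp at hS ⊢
    exact hS
  calc Fintype.card V * (Finset.univ.filter fun S : Fin s → V => ∃ i, S i ∈ A).card
      ≤ Fintype.card V * ∑ i : Fin s, (Finset.univ.filter fun S : Fin s → V => S i ∈ A).card :=
        Nat.mul_le_mul_left _ ((Finset.card_le_card h1).trans Finset.card_biUnion_le)
    _ = ∑ i : Fin s, Fintype.card V * (Finset.univ.filter fun S : Fin s → V => S i ∈ A).card := by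
        rw [Finset.mul_sum]
    _ ≤ ∑ _i : Fin s, A.card * Fintype.card V ^ s := Finset.sum_le_sum fun i _ => samp_one s A i
    _ = s * A.card * Fintype.card V ^ s := by simp [mul_assoc]

open Classical in
private theorem samp_miss [Fintype V] (s : ℕ) (A : Finset V) :
    (Finset.univ.filter fun S : Fin s → V => ∀ i, S i ∉ A).card = (Fintype.card V - A.card) ^ s := by
  have : (Finset.univ.filter fun S : Fin s → V => ∀ i, S i ∉ A) = Fintype.piFinset (fun _ : Fin s => Aᶜ) := by
    ext S
    simp
  rw [this, Fintype.card_piFinset]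
  simp [Finset.card_compl]

/-- `v` and `y` have a common neighbour in `S` -/
private def Pr (G : SimpleGraph V) {s : ℕ} (S : Fin s → V) (y v : V) : Prop := ∃ i, G.Adj y (S i) ∧ G.Adj v (S i)

open Classical in
/-- number of the bad `S` for a pair `y v` -/
private theorem samp_pair [Fintype V] (G : SimpleGraph V) {C s : ℕ} {ρ δ : ℝ} (hρ : 0 < ρ)
    (hn : 0 < Fintype.card V) (hC : Cod G C) (hs : (1 - δ) ^ s ≤ ρ) (hsC : (s : ℝ) * C ≤ ρ * Fintype.card V) (y v : V) :
    ((Finset.univ.filter fun S : Fin s → V => ¬ (G.Adj y v ↔ ¬ Pr G S y v)).card : ℝ) ≤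
      ρ * (Fintype.card V : ℝ) ^ s + (if v ∈ Z G y (δ * Fintype.card V) then (Fintype.card V : ℝ) ^ s else 0) := by
  set n := Fintype.card V with hnd
  have hn' : (0 : ℝ) < n := by exact_mod_cast hn
  have hns : (0 : ℝ) ≤ (n : ℝ) ^ s := by positivity
  set A : Finset V := (G.neighborSet y ∩ G.neighborSet v).toFinset with hA
  have hAc : A.card = (G.neighborSet y ∩ G.neighborSet v).ncard := by
    rw [hA, Set.ncard_eq_toFinset_card']
  have hP : ∀ S : Fin s → V, Pr G S y v ↔ ∃ i, S i ∈ A := by
    intro S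
    simp [Pr, hA]
  by_cases hyv : G.Adj y v
  · have e : (Finset.univ.filter fun S : Fin s → V => ¬ (G.Adj y v ↔ ¬ Pr G S y v))
        = Finset.univ.filter fun S : Fin s → V => ∃ i, S i ∈ A := by
      apply Finset.filter_congr
      intro S _
      rw [hP S]
      simp [hyv]
    rw [e]
    have h1 := samp_hit s A
    have h2 : A.card ≤ C := by
      rw [hAc]
      exact hC y v hyv
    have h3 : n * (Finset.univ.filter fun S : Fin s → V => ∃ i, S i ∈ A).card ≤ s * C * n ^ s :=
      h1.trans (Nat.mul_le_mul_right _ (Nat.mul_le_mul_left _ h2))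
    have h4 : (n : ℝ) * ((Finset.univ.filter fun S : Fin s → V => ∃ i, S i ∈ A).card : ℝ) ≤ n * (ρ * n ^ s) := by
      have h5 : (n : ℝ) * ((Finset.univ.filter fun S : Fin s → V => ∃ i, S i ∈ A).card : ℝ) ≤ s * C * n ^ s := by
        exact_mod_cast h3
      refine h5.trans ?_
      calc (s : ℝ) * C * n ^ s ≤ ρ * n * n ^ s := mul_le_mul_of_nonneg_right hsC hns
        _ = n * (ρ * n ^ s) := by ring
    have h6 := le_of_mul_le_mul_left h4 hn'
    have h7 : (0 : ℝ) ≤ (if v ∈ Z G y (δ * n) then (n : ℝ) ^ s else 0) := by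
      split_ifs
      · exact hns
      · exact le_rfl
    linarith
  · by_cases hv : v ∈ Z G y (δ * n)
    · rw [if_pos hv]
      have h1 : (Finset.univ.filter fun S : Fin s → V => ¬ (G.Adj y v ↔ ¬ Pr G S y v)).card ≤ n ^ s := by
        refine (Finset.card_le_univ _).trans ?_
        simp [hnd]
      have h2 : ((Finset.univ.filter fun S : Fin s → V => ¬ (G.Adj y v ↔ ¬ Pr G S y v)).card : ℝ) ≤ (n : ℝ) ^ s := by
        exact_mod_cast h1
      have h3 : 0 ≤ ρ * (n : ℝ) ^ s := by positivity
      linarith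
    · rw [if_neg hv, add_zero]
      have e : (Finset.univ.filter fun S : Fin s → V => ¬ (G.Adj y v ↔ ¬ Pr G S y v))
          = Finset.univ.filter fun S : Fin s → V => ∀ i, S i ∉ A := by
        apply Finset.filter_congr
        intro S _
        rw [hP S]
        simp [hyv]
      rw [e, samp_miss]
      have h1 : δ * n ≤ A.card := by
        by_contra hcon
        apply hv
        refine ⟨hyv, ?_⟩
        rw [Set.inter_comm, ← hAc]
        exact lt_of_not_ge hcon
      have h2 : A.card ≤ n := Finset.card_le_univ A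
      rw [Nat.cast_pow, Nat.cast_sub h2]
      have h3 : (n : ℝ) - A.card ≤ (1 - δ) * n := by linarith
      have h4 : (0 : ℝ) ≤ (n : ℝ) - A.card := by
        have : (A.card : ℝ) ≤ n := by exact_mod_cast h2
        linarith
      calc ((n : ℝ) - A.card) ^ s ≤ ((1 - δ) * n) ^ s := pow_le_pow_left₀ h4 h3 s
        _ = (1 - δ) ^ s * n ^ s := mul_pow _ _ _
        _ ≤ ρ * n ^ s := mul_le_mul_of_nonneg_right hs hns

/-- (B) sampling -/
theorem sampling {κ δ : ℝ} (hκ : 0 < κ) (hδ : 0 < δ) (C : ℕ) : ∃ K : ℕ, 0 < K ∧ ∃ n₀ : ℕ,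
    ∀ (V : Type) [Finite V], n₀ ≤ Nat.card V → ∀ (G : SimpleGraph V) (E : Set V), Cod G C →
      (∀ u, ((Z G u (δ * Nat.card V)).ncard : ℝ) ≤ κ / 24 * Nat.card V) →
      ∃ X : Set V, X ⊆ E ∧ E.ncard ≤ K * X.ncard ∧ ∀ x ∈ X, ∀ x' ∈ X,
        ((symmDiff (G.neighborSet x) (G.neighborSet x')).ncard : ℝ) ≤ κ * Nat.card V := by
  classical
  set ρ : ℝ := κ / 24 with hρd
  have hρ : 0 < ρ := by positivity
  set δ' : ℝ := min δ (1 / 2) with hδ'd
  have hδ' : 0 < δ' := lt_min hδ (by norm_num)

  obtain ⟨s, hs⟩ := exists_pow_lt_of_lt_one hρ (show 1 - δ' < 1 by linarith)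
  refine ⟨2 * 2 ^ s, by positivity, ⌈(s : ℝ) * C / ρ⌉₊ + 1, ?_⟩
  intro V _ hn₀ G E hC hZ
  haveI := Fintype.ofFinite V
  rw [Nat.card_eq_fintype_card] at hn₀ hZ ⊢
  set n := Fintype.card V with hnd
  have hn : 0 < n := by omega
  have hn' : (0 : ℝ) < n := by exact_mod_cast hn
  have hsC : (s : ℝ) * C ≤ ρ * n := by
    have h1 : (s : ℝ) * C / ρ ≤ n := by
      refine (Nat.le_ceil _).trans ?_
      have : ⌈(s : ℝ) * C / ρ⌉₊ ≤ n := by omega
      exact_mod_cast this
    rw [div_le_iff₀ hρ] at h1
    linarith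
  haveI : Nonempty V := Fintype.card_pos_iff.1 hn
  -- the bad vertices
  let bad : (Fin s → V) → V → Finset V := fun S y => Finset.univ.filter fun v => ¬ (G.Adj y v ↔ ¬ Pr G S y v)
  have hZ' : ∀ u, ((Z G u (δ' * n)).ncard : ℝ) ≤ ρ * n := by
    intro u
    refine le_trans ?_ (hZ u)
    have : (Z G u (δ' * n)).ncard ≤ (Z G u (δ * n)).ncard := by
      refine Set.ncard_le_ncard ?_ (Set.toFinite _)
      rintro y ⟨h1, h2⟩
      exact ⟨h1, h2.trans_le (mul_le_mul_of_nonneg_right (min_le_left _ _) hn'.le)⟩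
    exact_mod_cast this
  have hy : ∀ y, (∑ S : Fin s → V, ((bad S y).card : ℝ)) ≤ 2 * ρ * n * n ^ s := by
    intro y
    have h1 : (∑ S : Fin s → V, ((bad S y).card : ℝ))
        = ∑ v : V, ((Finset.univ.filter fun S : Fin s → V => ¬ (G.Adj y v ↔ ¬ Pr G S y v)).card : ℝ) := by
      have := Finset.sum_card_bipartiteAbove_eq_sum_card_bipartiteBelow (s := (Finset.univ : Finset (Fin s → V)))
        (t := (Finset.univ : Finset V)) (fun S v => ¬ (G.Adj y v ↔ ¬ Pr G S y v))
      exact_mod_cast this
    rw [h1]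
    calc (∑ v : V, ((Finset.univ.filter fun S : Fin s → V => ¬ (G.Adj y v ↔ ¬ Pr G S y v)).card : ℝ))
        ≤ ∑ v : V, (ρ * (n : ℝ) ^ s + (if v ∈ Z G y (δ' * n) then (n : ℝ) ^ s else 0)) :=
          Finset.sum_le_sum fun v _ => samp_pair G hρ hn hC hs.le hsC y v
      _ = n * (ρ * (n : ℝ) ^ s) + (Z G y (δ' * n)).ncard * (n : ℝ) ^ s := by
          rw [Finset.sum_add_distrib, ← Finset.sum_filter]
          simp only [Finset.sum_const, nsmul_eq_mul, Finset.card_univ]
          rw [Set.ncard_eq_toFinset_card']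
          congr 4
          ext v
          simp
      _ ≤ n * (ρ * (n : ℝ) ^ s) + (ρ * n) * (n : ℝ) ^ s := by
          have := mul_le_mul_of_nonneg_right (hZ' y) (by positivity : (0 : ℝ) ≤ (n : ℝ) ^ s)
          linarith
      _ = 2 * ρ * n * n ^ s := by ring
  set Ef : Finset V := E.toFinset with hEf
  have hEc : E.ncard = Ef.card := Set.ncard_eq_toFinset_card' E
  -- a good sequence
  obtain ⟨S, -, hS⟩ : ∃ S ∈ (Finset.univ : Finset (Fin s → V)), (∑ y ∈ Ef, ((bad S y).card : ℝ)) ≤ 2 * ρ * n * Ef.card := by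
    apply Finset.exists_le_of_sum_le Finset.univ_nonempty
    rw [Finset.sum_comm]
    calc (∑ y ∈ Ef, ∑ S : Fin s → V, ((bad S y).card : ℝ)) ≤ ∑ _y ∈ Ef, 2 * ρ * n * n ^ s :=
          Finset.sum_le_sum fun y _ => hy y
      _ = ∑ _S : Fin s → V, 2 * ρ * n * Ef.card := by
          simp only [Finset.sum_const, nsmul_eq_mul, Finset.card_univ, Fintype.card_fun, Fintype.card_fin]
          push_cast
          ring
  set good : Finset V := Ef.filter fun y => ((bad S y).card : ℝ) ≤ 4 * ρ * n with hgood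
  have hg : (Ef.card : ℝ) ≤ 2 * good.card := by
    have h1 : (Ef.filter fun y => ¬ ((bad S y).card : ℝ) ≤ 4 * ρ * n).card • (4 * ρ * n)
        ≤ ∑ y ∈ Ef, ((bad S y).card : ℝ) := by
      refine (Finset.card_nsmul_le_sum _ _ _ ?_).trans
        (Finset.sum_le_sum_of_subset_of_nonneg (Finset.filter_subset _ _) fun _ _ _ => Nat.cast_nonneg _)
      intro y hy
      exact (lt_of_not_ge (Finset.mem_filter.1 hy).2).le
    have h2 : (good.card : ℝ) + (Ef.filter fun y => ¬ ((bad S y).card : ℝ) ≤ 4 * ρ * n).card = Ef.card := by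
      exact_mod_cast Finset.card_filter_add_card_filter_not (s := Ef) (fun y => ((bad S y).card : ℝ) ≤ 4 * ρ * n)
    rw [nsmul_eq_mul] at h1
    have h3 := h1.trans hS
    have h4 : 0 < 2 * ρ * n := by positivity
    have h5 : 2 * ρ * n * (2 * ((Ef.filter fun y => ¬ ((bad S y).card : ℝ) ≤ 4 * ρ * n).card : ℝ)) ≤ 2 * ρ * n * Ef.card := by
      linarith
    have h6 := le_of_mul_le_mul_left h5 h4
    linarith
  -- pigeonhole for the traces
  let tr : V → (Fin s → Bool) := fun y i => decide (G.Adj y (S i))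
  obtain ⟨t, -, ht⟩ : ∃ t ∈ (Finset.univ : Finset (Fin s → Bool)),
      (good.card : ℝ) / 2 ^ s ≤ ((good.filter fun y => tr y = t).card : ℝ) := by
    apply Finset.exists_le_of_sum_le Finset.univ_nonempty
    have h1 : good.card = ∑ t : Fin s → Bool, (good.filter fun y => tr y = t).card :=
      Finset.card_eq_sum_card_fiberwise (fun x _ => Finset.mem_coe.2 (Finset.mem_univ _))
    have h2 : (good.card : ℝ) = ∑ t : Fin s → Bool, ((good.filter fun y => tr y = t).card : ℝ) := by
      exact_mod_cast h1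
    rw [← h2]
    simp only [Finset.sum_const, nsmul_eq_mul, Finset.card_univ, Fintype.card_fun, Fintype.card_fin, Fintype.card_bool]
    push_cast
    have : (0 : ℝ) < 2 ^ s := by positivity
    rw [mul_div_cancel₀ _ this.ne']
  refine ⟨(good.filter fun y => tr y = t : Finset V), ?_, ?_, ?_⟩
  · intro y hy
    have h1 : y ∈ Ef := (Finset.mem_filter.1 (Finset.mem_filter.1 (Finset.mem_coe.1 hy)).1).1
    simpa [hEf] using h1
  · rw [Set.ncard_coe_finset, hEc]
    have h0 : (0 : ℝ) < 2 ^ s := by positivity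
    rw [div_le_iff₀ h0] at ht
    have h1 : (Ef.card : ℝ) ≤ 2 * 2 ^ s * ((good.filter fun y => tr y = t).card : ℝ) := by
      calc (Ef.card : ℝ) ≤ 2 * good.card := hg
        _ ≤ 2 * (((good.filter fun y => tr y = t).card : ℝ) * 2 ^ s) := by linarith
        _ = _ := by ring
    exact_mod_cast h1
  · intro x hx x' hx'
    have hx1 := Finset.mem_filter.1 (Finset.mem_coe.1 hx)
    have hx2 := Finset.mem_filter.1 (Finset.mem_coe.1 hx')
    have hb1 := (Finset.mem_filter.1 hx1.1).2
    have hb2 := (Finset.mem_filter.1 hx2.1).2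
    have htr : ∀ i, G.Adj x (S i) ↔ G.Adj x' (S i) := by
      intro i
      have h1 : tr x i = tr x' i := by rw [hx1.2, hx2.2]
      simpa [tr] using h1
    have hPr : ∀ v, Pr G S x v ↔ Pr G S x' v := by
      intro v
      unfold Pr
      simp only [htr]
    have hsub : symmDiff (G.neighborSet x) (G.neighborSet x') ⊆ ((bad S x ∪ bad S x' : Finset V) : Set V) := by
      intro v hv
      rw [Finset.mem_coe, Finset.mem_union]
      by_contra hcon
      rw [not_or] at hcon
      have h1 : G.Adj x v ↔ ¬ Pr G S x v := by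
        by_contra h
        exact hcon.1 (Finset.mem_filter.2 ⟨Finset.mem_univ _, h⟩)
      have h2 : G.Adj x' v ↔ ¬ Pr G S x' v := by
        by_contra h
        exact hcon.2 (Finset.mem_filter.2 ⟨Finset.mem_univ _, h⟩)
      have h3 : G.Adj x v ↔ G.Adj x' v := by rw [h1, h2, hPr v]
      rw [Set.mem_symmDiff] at hv
      simp only [SimpleGraph.mem_neighborSet] at hv
      tauto
    have h1 : (symmDiff (G.neighborSet x) (G.neighborSet x')).ncard ≤ (bad S x).card + (bad S x').card := by
      refine (Set.ncard_le_ncard hsub (Set.toFinite _)).trans ?_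
      rw [Set.ncard_coe_finset]
      exact Finset.card_union_le _ _
    have h2 : ((symmDiff (G.neighborSet x) (G.neighborSet x')).ncard : ℝ) ≤ (bad S x).card + (bad S x').card := by
      exact_mod_cast h1
    have h3 : (0 : ℝ) ≤ κ * n := by positivity
    calc ((symmDiff (G.neighborSet x) (G.neighborSet x')).ncard : ℝ) ≤ (bad S x).card + (bad S x').card := h2
      _ ≤ 4 * ρ * n + 4 * ρ * n := by linarith
      _ = κ * n / 3 := by rw [hρd]; ring
      _ ≤ κ * n := by linarith

end Pool.Agent.WTE
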