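import Pool.Agent.WTE.Core
import Pool.Agent.WTE.Dense
import Pool.Agent.WTE.Sampling
import Pool.Agent.WTE.RemTri
import Pool.Agent.WTE.Arith

/-!
# [WTE-MainC] tight maximisers of the class `Cod`
-/

set_option autoImplicit false

namespace Pool.Agent.WTE

open Pool.Agent.WT7

variable {α β V : Type}

theorem notAdj_of_close [Finite V] {G : SimpleGraph V} {C : ℕ} (hC : Cod G C) {c₀ κ : ℝ} (hc₀ : 0 < c₀)
    (hκ : κ ≤ c₀ / 2) (hdeg : ∀ x, c₀ * (Nat.card V : ℝ) ≤ ((G.neighborSet x).ncard : ℝ))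
    (hn : (C : ℝ) ≤ c₀ / 4 * Nat.card V) {w x : V}
    (h : ((symmDiff (G.neighborSet w) (G.neighborSet x)).ncard : ℝ) ≤ κ * Nat.card V) : ¬ G.Adj w x := by
  intro hwx
  have hV : Nonempty V := ⟨x⟩
  have hn0 : (0 : ℝ) < (Nat.card V : ℝ) := by exact_mod_cast Nat.card_pos
  have h1 : (G.neighborSet w).ncard ≤ (G.neighborSet w ∩ G.neighborSet x).ncard +
      (symmDiff (G.neighborSet w) (G.neighborSet x)).ncard := by
    refine (Set.ncard_le_ncard ?_ (Set.toFinite _)).trans (Set.ncard_union_le _ _)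
    intro b hb
    by_cases hbx : b ∈ G.neighborSet x
    · exact Or.inl ⟨hb, hbx⟩
    · exact Or.inr (Or.inl ⟨hb, hbx⟩)
  have h2 : ((G.neighborSet w).ncard : ℝ) ≤ (C : ℝ) + κ * Nat.card V := by
    have h3 : ((G.neighborSet w).ncard : ℝ) ≤ ((G.neighborSet w ∩ G.neighborSet x).ncard : ℝ) +
      ((symmDiff (G.neighborSet w) (G.neighborSet x)).ncard : ℝ) := by exact_mod_cast h1
    have h4 : ((G.neighborSet w ∩ G.neighborSet x).ncard : ℝ) ≤ C := by exact_mod_cast hC w x hwx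
    linarith
  have h3 := hdeg w
  have h4 : κ * (Nat.card V : ℝ) ≤ c₀ / 2 * Nat.card V := mul_le_mul_of_nonneg_right hκ hn0.le
  have h5 : 0 < c₀ * (Nat.card V : ℝ) := by positivity
  linarith

/-- a triangle edge `x y` with `x ∈ X` such that `y` is not adjacent to about half of `X` -/
theorem pick [Finite V] {G : SimpleGraph V} {C : ℕ} (hC : Cod G C) {c₀ κ : ℝ} (hc₀ : 0 < c₀)
    (hκ : κ ≤ c₀ / 2) (hdeg : ∀ x, c₀ * (Nat.card V : ℝ) ≤ ((G.neighborSet x).ncard : ℝ))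
    (hn : (C : ℝ) ≤ c₀ / 4 * Nat.card V) (X : Set V) (hXT : X ⊆ Tri G) (hne : X.Nonempty)
    (hX : ∀ x ∈ X, ∀ x' ∈ X, ((symmDiff (G.neighborSet x) (G.neighborSet x')).ncard : ℝ) ≤ κ * Nat.card V) :
    ∃ x y, G.Adj x y ∧ x ∈ X ∧ ∃ X', X' ⊆ X ∧ X.ncard ≤ 2 * X'.ncard + C + 4 ∧
      ∀ w ∈ X', w ≠ x ∧ w ≠ y ∧ ¬ G.Adj w x ∧ ¬ G.Adj w y := by
  classical
  obtain ⟨x, hx⟩ := hne
  obtain ⟨a, b, hxa, hxb, hab⟩ := hXT hx
  have key : ∀ y, G.Adj x y → X.ncard ≤ 2 * (X \ G.neighborSet y).ncard + C →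
      ∃ x y, G.Adj x y ∧ x ∈ X ∧ ∃ X', X' ⊆ X ∧ X.ncard ≤ 2 * X'.ncard + C + 4 ∧
      ∀ w ∈ X', w ≠ x ∧ w ≠ y ∧ ¬ G.Adj w x ∧ ¬ G.Adj w y := by
    intro y hxy hy
    refine ⟨x, y, hxy, hx, (X \ G.neighborSet y) \ {x, y}, ?_, ?_, ?_⟩
    · exact Set.sdiff_subset.trans Set.sdiff_subset
    · have h1 : (X \ G.neighborSet y).ncard ≤ ((X \ G.neighborSet y) \ {x, y}).ncard + 2 := by
        have h2 : (X \ G.neighborSet y) ⊆ ((X \ G.neighborSet y) \ {x, y}) ∪ {x, y} := by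
          intro w hw
          by_cases h3 : w ∈ ({x, y} : Set V)
          · exact Or.inr h3
          · exact Or.inl ⟨hw, h3⟩
        have h3 := (Set.ncard_le_ncard h2 (Set.toFinite _)).trans (Set.ncard_union_le _ _)
        have h4 : ({x, y} : Set V).ncard ≤ 2 := by
          rw [Set.ncard_pair hxy.ne]
        omega
      omega
    · rintro w ⟨⟨hwX, hwy⟩, hw⟩
      have hwx : w ≠ x := fun h => hw (by simp [h])
      have hwy' : w ≠ y := fun h => hw (by simp [h])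
      exact ⟨hwx, hwy', notAdj_of_close hC hc₀ hκ hdeg hn (hX w hwX x hx), fun h => hwy h.symm⟩
  have h1 : X.ncard ≤ (X \ G.neighborSet a).ncard + (X \ G.neighborSet b).ncard + C := by
    have h2 : X ⊆ ((X \ G.neighborSet a) ∪ (X \ G.neighborSet b)) ∪ (G.neighborSet a ∩ G.neighborSet b) := by
      intro w hw
      by_cases ha : w ∈ G.neighborSet a
      · by_cases hb : w ∈ G.neighborSet b
        · exact Or.inr ⟨ha, hb⟩
        · exact Or.inl (Or.inr ⟨hw, hb⟩)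
      · exact Or.inl (Or.inl ⟨hw, ha⟩)
    have h3 := (Set.ncard_le_ncard h2 (Set.toFinite _)).trans (Set.ncard_union_le _ _)
    have h4 := Set.ncard_union_le (X \ G.neighborSet a) (X \ G.neighborSet b)
    have h5 := hC a b hab
    omega
  by_cases h2 : (X \ G.neighborSet b).ncard ≤ (X \ G.neighborSet a).ncard
  · exact key a hxa (by omega)
  · exact key b hxb (by omega)

/-- the contradiction for large `e = |Tri G|` if all `dg` differ by at most `2 c₃ e n^(h-2)` -/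
theorem big [Finite α] [Finite V] (H : SimpleGraph α) (χ : α → Bool) (hχ : ∀ x y, H.Adj x y → χ x ≠ χ y)
    (a₀ b₀ : α) (hab : H.Adj a₀ b₀) (h₀ : χ a₀ = true) (G G' : SimpleGraph V) (hcf : G'.CliqueFree 3)
    {C : ℕ} (hC : Cod G C) {c₀ κ c bt c₃ κ₂ : ℝ} {k : ℕ} (hc₀ : 0 < c₀) (hκ : κ ≤ c₀ / 2) (hκ0 : 0 ≤ κ)
    (hdeg : ∀ x, c₀ * (Nat.card V : ℝ) ≤ ((G.neighborSet x).ncard : ℝ)) (hn : (C : ℝ) ≤ c₀ / 4 * Nat.card V)
    (hc : 0 < c) (hbt : 0 < bt) (hbt1 : bt ≤ 1) (hBb : (Nat.card α : ℝ) ^ 2 * bt ≤ c / 4)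
    (hT : 4 * (Nat.card α : ℝ) ^ 3 * κ ≤ c * bt / 16) (hk : 0 < k) (hc3 : 0 ≤ c₃) (hc₃ : 1024 * c₃ * k ≤ c * bt)
    (hd : (df G G' : ℝ) ≤ κ₂ * ((Tri G).ncard : ℝ) ^ 2)
    (hκ₂ : (Nat.card α : ℝ) ^ 2 * κ₂ * (4096 * (k : ℝ) ^ 2) ≤ c * bt)
    (hDS : ∀ x y, G.Adj x y → c * (Nat.card V : ℝ) ^ (Nat.card α - 2) ≤
      ((DS χ a₀ b₀ G (G.neighborSet y) (G.neighborSet x) y).ncard : ℝ))
    (hinj : a3 H (Nat.card V) ≤ inj H G)
    (hΔ : ∀ v w, (dg H G v : ℝ) ≤ dg H G w +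
      2 * c₃ * ((Tri G).ncard : ℝ) * (Nat.card V : ℝ) ^ (Nat.card α - 2))
    (X : Set V) (hXT : X ⊆ Tri G) (hXc : (Tri G).ncard ≤ k * X.ncard)
    (hX : ∀ x ∈ X, ∀ x' ∈ X, ((symmDiff (G.neighborSet x) (G.neighborSet x')).ncard : ℝ) ≤ κ * Nat.card V)
    (he1 : 2 * k * (C + 6) ≤ (Tri G).ncard) (he2 : 32 * (k : ℝ) / bt ≤ (Tri G).ncard) :
    c * bt * ((Tri G).ncard : ℝ) ≤ 16384 * (k : ℝ) ^ 2 * (Nat.card α : ℝ) ^ 2 * C := by
  classical
  set e : ℕ := (Tri G).ncard with hedef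
  have hepos : 0 < e := by
    have : 0 < 2 * k * (C + 6) := by positivity
    omega
  have hXne : X.Nonempty := by
    rw [← Set.ncard_pos (Set.toFinite _)]
    by_contra h
    have h1 : X.ncard = 0 := by omega
    rw [h1] at hXc
    omega
  obtain ⟨x, y, hxy, hxX, X', hX'X, hX'c, hX'⟩ := pick hC hc₀ hκ hdeg hn X hXT hXne hX
  have hV : Nonempty V := ⟨x⟩
  have hn0 : (0 : ℝ) < (Nat.card V : ℝ) := by exact_mod_cast Nat.card_pos
  set P : ℝ := (Nat.card V : ℝ) ^ (Nat.card α - 2) with hP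
  have hP0 : 0 < P := by positivity
  set m : ℕ := X'.ncard / 2 with hm
  obtain ⟨M, hM1, hM2⟩ := Set.exists_subset_card_eq (s := X') (n := m) (by omega)
  have hX'M : m ≤ (X' \ M).ncard := by
    have h1 := Set.ncard_sdiff_add_ncard_of_subset hM1 (Set.toFinite _)
    omega
  set m' : ℕ := ⌊bt * m⌋₊ with hm'
  have hm'm : m' ≤ m := by
    have h1 : (m' : ℝ) ≤ bt * m := Nat.floor_le (by positivity)
    have h2 : bt * m ≤ m := by
      have : (0 : ℝ) ≤ m := Nat.cast_nonneg m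
      nlinarith
    exact_mod_cast h1.trans h2
  obtain ⟨M', hM'1, hM'2⟩ := Set.exists_subset_card_eq (s := X' \ M) (n := m') (hm'm.trans hX'M)
  have hM'X : M' ⊆ X' := hM'1.trans Set.sdiff_subset
  have hdis : Disjoint M M' := by
    rw [Set.disjoint_left]
    intro w hw hw'
    exact (hM'1 hw').2 hw
  -- sizes
  have hem : e ≤ k * (4 * m + C + 6) := by
    refine hXc.trans (Nat.mul_le_mul_left _ ?_)
    omega
  have hme : m ≤ e := by
    have h1 := Set.ncard_le_ncard (hX'X.trans hXT) (Set.toFinite _)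
    omega
  have hkR : (0 : ℝ) < k := by exact_mod_cast hk
  have heR : (0 : ℝ) < e := by exact_mod_cast hepos
  have hek : (e : ℝ) ≤ 16 * k * m := by
    have h1 : (e : ℝ) ≤ k * (4 * m + C + 6) := by exact_mod_cast hem
    have h2 : 2 * (k : ℝ) * (C + 6) ≤ e := by exact_mod_cast he1
    nlinarith
  have hmpos : (0 : ℝ) < m := by
    by_contra h
    have h1 : (m : ℝ) = 0 := le_antisymm (not_lt.1 h) (Nat.cast_nonneg m)
    rw [h1] at hek
    linarith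
  have hm'1 : (m' : ℝ) ≤ bt * m := Nat.floor_le (by positivity)
  have hm'2 : bt * m / 2 ≤ m' := by
    have h1 : bt * m < m' + 1 := Nat.lt_floor_add_one _
    have h2 : 2 ≤ bt * m := by
      have h3 : 32 * (k : ℝ) ≤ e * bt := by
        rwa [div_le_iff₀ hbt] at he2
      have h4 : 32 * (k : ℝ) ≤ 16 * k * m * bt := h3.trans (mul_le_mul_of_nonneg_right hek hbt.le)
      have h5 : k * (32 : ℝ) ≤ k * (16 * (bt * m)) := by linarith
      have h6 := le_of_mul_le_mul_left h5 hkR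
      linarith
    linarith
  -- core
  have hKX : ∀ w ∈ M, (symmDiff (G.neighborSet w) (G.neighborSet x)).ncard ≤ ⌊κ * Nat.card V⌋₊ := by
    intro w hw
    exact Nat.le_floor (hX w (hX'X (hM1 hw)) x hxX)
  have hcore := core H χ hχ a₀ b₀ hab h₀ G G' hcf hC x y hxy M M' hdis
    (fun h => (hX' x (hM1 h)).1 rfl) (fun h => (hX' y (hM1 h)).2.1 rfl) (fun h => (hX' y (hM'X h)).2.1 rfl)
    (fun w hw => (hX' w (hM1 hw)).2.2.1) (fun w hw => (hX' w (hM'X hw)).2.2.1)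
    (fun w hw => (hX' w (hM1 hw)).2.2.2) ⌊κ * Nat.card V⌋₊ hKX (Nat.floor_le (by positivity)) hκ0 hΔ (hDS x y hxy) hinj
  rw [hM2, hM'2, ← hedef, ← hP] at hcore
  refine arith1 (T := (Nat.card α : ℝ) ^ 3) (κ := κ) (c₃ := c₃) (κ₂ := κ₂) (m := m) (m' := m') (d := df G G')
    hc hbt hbt1 ?_ hBb hT (Nat.cast_nonneg _) hm'1 hm'2 hmpos (by exact_mod_cast hme) hkR hek hc3 hc₃ hd hκ₂
    (Nat.cast_nonneg _) ?_
  · have : (0 : ℝ) < (Nat.card α : ℝ) := by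
      have h1 : Nonempty α := ⟨a₀⟩
      have h2 : Finite α := inferInstance
      exact_mod_cast Nat.card_pos
    positivity
  · refine le_of_mul_le_mul_right ?_ hP0
    calc ((m' : ℝ) * m * c) * P = (m' : ℝ) * m * (c * P) := by ring
      _ ≤ _ := hcore
      _ = _ := by ring

end Pool.Agent.WTE
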