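import Pool.Agent.WTE.MainC

/-!
# [WTE-MainD] the choice of the constants
-/

set_option autoImplicit false

namespace Pool.Agent.WTE

open Pool.Agent.WT7

variable {α β V : Type}

private theorem large {a : ℝ} (ha : 0 < a) (b : ℝ) : ∃ n₀ : ℕ, ∀ n : ℕ, n₀ ≤ n → b ≤ a * (n : ℝ) := by
  obtain ⟨m, hm⟩ := exists_nat_ge (b / a)
  refine ⟨m, fun n hn => ?_⟩
  have h1 : (m : ℝ) ≤ (n : ℝ) := by exact_mod_cast hn
  have h2 : b / a ≤ (n : ℝ) := hm.trans h1
  rw [div_le_iff₀ ha] at h2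
  linarith

/-- a bipartition and an edge -/
theorem exists_chi [Nonempty α] {H : SimpleGraph α} (hH : H.Colorable 2) (hI : NoIso H) :
    ∃ (χ : α → Bool) (a₀ b₀ : α), (∀ x y, H.Adj x y → χ x ≠ χ y) ∧ H.Adj a₀ b₀ ∧ χ a₀ = true := by
  classical
  obtain ⟨x₀⟩ := (inferInstance : Nonempty α)
  obtain ⟨y₀, hy₀⟩ := hI x₀
  obtain ⟨Cl⟩ := hH
  refine ⟨fun x => decide (Cl x = Cl x₀), x₀, y₀, fun x y hxy h => ?_, hy₀, by simp⟩
  have hne := Cl.valid hxy
  have h' : (Cl x = Cl x₀ ↔ Cl y = Cl x₀) := by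
    simpa using h
  have hx : (Cl x : ℕ) < 2 := (Cl x).2
  have hy : (Cl y : ℕ) < 2 := (Cl y).2
  have h0 : (Cl x₀ : ℕ) < 2 := (Cl x₀).2
  rw [Fin.ext_iff, Fin.ext_iff] at h'
  rw [Ne, Fin.ext_iff] at hne
  omega

/-- tight maximisers of the class `Cod` with more than `a3` labelled copies have at most `e₀` vertices in triangles -/
theorem tightE [Finite α] [Nonempty α] {H : SimpleGraph α} (hH : H.Colorable 2) (hI : NoIso H) (C : ℕ) :
    ∃ ε : ℝ, 0 < ε ∧ ∃ e₀ n₀ : ℕ, ∀ (V : Type) [Finite V], n₀ ≤ Nat.card V → ∀ G : SimpleGraph V, Cod G C →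
      bC H C (Nat.card V) ≤ inj H G →
      (∀ x, (pi3 H * Nat.card α - ε) * (Nat.card V : ℝ) ^ (Nat.card α - 1) ≤ dg H G x) →
        a3 H (Nat.card V) < inj H G → (Tri G).ncard ≤ e₀ := by
  classical
  have hπ : 0 < pi3 H := pi_pos (hH.cliqueFree (by norm_num))
  have h2 := two_le_card hI
  obtain ⟨χ, a₀, b₀, hχ, hab, h₀⟩ := exists_chi hH hI
  set B : ℝ := (Nat.card α : ℝ) ^ 2 with hB
  set T : ℝ := (Nat.card α : ℝ) ^ 3 with hTdef
  have hα : (2 : ℝ) ≤ Nat.card α := by exact_mod_cast h2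
  have hB1 : 1 ≤ B := by rw [hB]; nlinarith
  have hB0 : 0 < B := by linarith
  have hT0 : 0 < T := by rw [hTdef]; positivity
  set c₀ : ℝ := pi3 H / 2 with hc₀def
  have hc₀ : 0 < c₀ := by positivity
  -- dense pairs
  obtain ⟨ε₁, hε₁, hε₁π, δ₁, hδ₁, τ₁, hτ₁, n₁, hP₁⟩ := propP hH hI hπ (ρ := c₀ / 4) (by positivity)
  obtain ⟨c', hc', n₂, hdense⟩ := dense χ a₀ b₀ (τ := c₀ / 2 * δ₁) (by positivity)
  set c : ℝ := min c' 1 with hcdef
  have hc : 0 < c := lt_min hc' one_pos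
  have hc1 : c ≤ 1 := min_le_right _ _
  set bt : ℝ := min 1 (c / (4 * B)) with hbtdef
  have hbt : 0 < bt := lt_min one_pos (by positivity)
  have hbt1 : bt ≤ 1 := min_le_left _ _
  have hBb : B * bt ≤ c / 4 := by
    have h1 : bt ≤ c / (4 * B) := min_le_right _ _
    calc B * bt ≤ B * (c / (4 * B)) := mul_le_mul_of_nonneg_left h1 hB0.le
      _ = c / 4 := by field_simp
  set κ : ℝ := min (c * bt / (64 * T)) (c₀ / 2) with hκdef
  have hκ : 0 < κ := lt_min (by positivity) (by positivity)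
  have hκc : κ ≤ c₀ / 2 := min_le_right _ _
  have hTκ : 4 * T * κ ≤ c * bt / 16 := by
    have h1 : κ ≤ c * bt / (64 * T) := min_le_left _ _
    calc 4 * T * κ ≤ 4 * T * (c * bt / (64 * T)) := mul_le_mul_of_nonneg_left h1 (by positivity)
      _ = c * bt / 16 := by field_simp; ring
  obtain ⟨ε₂, hε₂, hε₂π, δ₂, hδ₂, τ₂, hτ₂, n₃, hP₂⟩ := propP hH hI hπ (ρ := κ / 24) (by positivity)
  obtain ⟨k, hk, n₄, hsamp⟩ := sampling hκ hδ₂ C
  have hkR : (0 : ℝ) < k := by exact_mod_cast hk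
  set c₃ : ℝ := c * bt / (1024 * k) with hc₃def
  have hc₃ : 0 < c₃ := by positivity
  have hc₃k : 1024 * c₃ * k ≤ c * bt := by
    rw [hc₃def]
    refine le_of_eq ?_
    field_simp
  have hc₃1 : c₃ ≤ 1 := by
    rw [hc₃def, div_le_one (by positivity)]
    have h1 : (1 : ℝ) ≤ k := by exact_mod_cast hk
    nlinarith
  set κ₂ : ℝ := min (c * bt / (B * (4096 * (k : ℝ) ^ 2))) (c₃ ^ 2 / (8 * B ^ 2)) with hκ₂def
  have hκ₂ : 0 < κ₂ := lt_min (by positivity) (by positivity)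
  have hκ₂1 : B * κ₂ * (4096 * (k : ℝ) ^ 2) ≤ c * bt := by
    have h1 : κ₂ ≤ c * bt / (B * (4096 * (k : ℝ) ^ 2)) := min_le_left _ _
    calc B * κ₂ * (4096 * (k : ℝ) ^ 2) = (B * (4096 * (k : ℝ) ^ 2)) * κ₂ := by ring
      _ ≤ (B * (4096 * (k : ℝ) ^ 2)) * (c * bt / (B * (4096 * (k : ℝ) ^ 2))) :=
          mul_le_mul_of_nonneg_left h1 (by positivity)
      _ = c * bt := by field_simp
  have hκ₂2 : 8 * B ^ 2 * κ₂ ≤ c₃ ^ 2 := by
    have h1 : κ₂ ≤ c₃ ^ 2 / (8 * B ^ 2) := min_le_right _ _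
    calc 8 * B ^ 2 * κ₂ ≤ 8 * B ^ 2 * (c₃ ^ 2 / (8 * B ^ 2)) := mul_le_mul_of_nonneg_left h1 (by positivity)
      _ = c₃ ^ 2 := by field_simp
  obtain ⟨e₃, hrem⟩ := remTri hκ₂ C
  obtain ⟨τ₃, hτ₃, n₅, hstar⟩ := star h2 H (ε := c₃ / 2) (by positivity)
  -- small constants
  set ε : ℝ := min (min ε₁ ε₂) (c₃ / 2) with hεdef
  have hε : 0 < ε := lt_min (lt_min hε₁ hε₂) (by positivity)
  have hεε₁ : ε ≤ ε₁ := (min_le_left _ _).trans (min_le_left _ _)
  have hεε₂ : ε ≤ ε₂ := (min_le_left _ _).trans (min_le_right _ _)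
  have hεc : ε ≤ c₃ / 2 := min_le_right _ _
  set τ : ℝ := min (min τ₁ τ₂) τ₃ with hτdef
  have hτ : 0 < τ := lt_min (lt_min hτ₁ hτ₂) hτ₃
  have hττ₁ : τ ≤ τ₁ := (min_le_left _ _).trans (min_le_left _ _)
  have hττ₂ : τ ≤ τ₂ := (min_le_left _ _).trans (min_le_right _ _)
  have hττ₃ : τ ≤ τ₃ := min_le_right _ _
  obtain ⟨κ', hκ', hremoval⟩ := removal hτ
  obtain ⟨n₆, ha3⟩ := a3_lower H hτ
  obtain ⟨n₇, hn₇⟩ := large (lt_min hκ' hτ) (C : ℝ)
  obtain ⟨n₈, hn₈⟩ := large (show 0 < c₀ / 4 by positivity) (C : ℝ)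
  -- the bound for `e`
  obtain ⟨e₀, he₀⟩ := exists_nat_ge (16384 * (k : ℝ) ^ 2 * B * C / (c * bt) + 8 * B * (c₃ / 2 + B * C) / c₃ ^ 2 +
    B / c₃ + 32 * (k : ℝ) / bt + 2 * k * (C + 6) + e₃ + 1)
  have p1 : 0 ≤ 16384 * (k : ℝ) ^ 2 * B * C / (c * bt) := by positivity
  have p2 : 0 ≤ 8 * B * (c₃ / 2 + B * C) / c₃ ^ 2 := by positivity
  have p3 : 0 ≤ B / c₃ := by positivity
  have p4 : 0 ≤ 32 * (k : ℝ) / bt := by positivity
  have p5 : (0 : ℝ) ≤ 2 * k * (C + 6) := by positivity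
  have p6 : (0 : ℝ) ≤ (e₃ : ℝ) := by positivity
  refine ⟨ε, hε, e₀, 1 + n₁ + n₂ + n₃ + n₄ + n₅ + n₆ + n₇ + n₈, ?_⟩
  intro V _ hn G hC hmax hdg hlt
  have hV : Nonempty V := Finite.card_pos_iff.1 (by omega)
  have hn0 : (0 : ℝ) < (Nat.card V : ℝ) := by exact_mod_cast Nat.card_pos
  have hn1 : (1 : ℝ) ≤ (Nat.card V : ℝ) := by exact_mod_cast Nat.card_pos
  set n : ℝ := (Nat.card V : ℝ) with hndef
  set P : ℝ := n ^ (Nat.card α - 2) with hP
  have hP0 : 0 < P := by positivity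
  have hnP : n ^ (Nat.card α - 1) = n * P := by
    rw [hP, ← pow_succ']
    congr 1
    omega
  have hinj : a3 H (Nat.card V) ≤ inj H G := hlt.le
  by_contra hsmall
  push Not at hsmall
  set e : ℕ := (Tri G).ncard with hedef
  have heR : (e₀ : ℝ) < e := by exact_mod_cast hsmall
  have hepos : (0 : ℝ) < e := by
    have : (0 : ℝ) ≤ (e₀ : ℝ) := Nat.cast_nonneg _
    linarith
  have hen : e ≤ Nat.card V := by
    rw [← Set.ncard_univ]
    exact Set.ncard_le_ncard (Set.subset_univ _) (Set.toFinite _)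
  have henR : (e : ℝ) ≤ n := by
    rw [hndef]
    exact_mod_cast hen
  -- sparse neighbourhoods, removal
  have hsq : (0 : ℝ) ≤ n ^ 2 := by positivity
  have hpe : ∀ x, (pe G (G.neighborSet x) (G.neighborSet x) : ℝ) ≤ min κ' τ * n ^ 2 := by
    intro x
    have h3 : (pe G (G.neighborSet x) (G.neighborSet x) : ℝ) ≤ e * C := by exact_mod_cast pe_tri hC x
    have h4 := hn₇ (Nat.card V) (by omega)
    calc (pe G (G.neighborSet x) (G.neighborSet x) : ℝ) ≤ e * C := h3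
      _ ≤ n * (min κ' τ * n) := mul_le_mul henR h4 (Nat.cast_nonneg _) hn0.le
      _ = _ := by ring
  obtain ⟨G₁, hle₁, hcf₁, hdf₁⟩ := hremoval V G
    (fun x => (hpe x).trans (mul_le_mul_of_nonneg_right (min_le_left _ _) hsq))
  have hpeτ : ∀ x, (pe G (G.neighborSet x) (G.neighborSet x) : ℝ) ≤ τ * n ^ 2 :=
    fun x => (hpe x).trans (mul_le_mul_of_nonneg_right (min_le_right _ _) hsq)
  have hpow : (0 : ℝ) ≤ n ^ Nat.card α := by positivity
  have hinjlow : (pi3 H - τ) * n ^ Nat.card α ≤ inj H G :=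
    (ha3 (Nat.card V) (by omega)).trans (by exact_mod_cast hinj)
  have hmon : ∀ {t : ℝ}, τ ≤ t → (df G G₁ : ℝ) ≤ t * n ^ 2 ∧
      (∀ x, (pe G (G.neighborSet x) (G.neighborSet x) : ℝ) ≤ t * n ^ 2) ∧
      (pi3 H - t) * n ^ Nat.card α ≤ inj H G := by
    intro t ht
    refine ⟨hdf₁.trans (mul_le_mul_of_nonneg_right ht hsq),
      fun x => (hpeτ x).trans (mul_le_mul_of_nonneg_right ht hsq), ?_⟩
    refine le_trans (mul_le_mul_of_nonneg_right ?_ hpow) hinjlow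
    linarith
  have hpw1 : (0 : ℝ) ≤ n ^ (Nat.card α - 1) := by positivity
  have hdgmon : ∀ {t : ℝ}, ε ≤ t → ∀ x, (pi3 H * Nat.card α - t) * n ^ (Nat.card α - 1) ≤ dg H G x := by
    intro t ht x
    refine le_trans (mul_le_mul_of_nonneg_right ?_ hpw1) (hdg x)
    linarith
  have hZ₁ := hP₁ V (by omega) G G₁ hle₁ hcf₁ (hmon hττ₁).1 (hmon hττ₁).2.1 (hmon hττ₁).2.2 (hdgmon hεε₁)
  have hZ₂ := hP₂ V (by omega) G G₁ hle₁ hcf₁ (hmon hττ₂).1 (hmon hττ₂).2.1 (hmon hττ₂).2.2 (hdgmon hεε₂)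
  have hdeg : ∀ x, c₀ * n ≤ ((G.neighborSet x).ncard : ℝ) :=
    fun x => deg_lower hI hπ hε₁π G x (hdgmon hεε₁ x)
  have hnC := hn₈ (Nat.card V) (by omega)
  have hDS : ∀ x y, G.Adj x y → c * P ≤
      ((DS χ a₀ b₀ G (G.neighborSet y) (G.neighborSet x) y).ncard : ℝ) := by
    intro x y hxy
    have h3 := densePair hC hδ₁.le hdeg hZ₁ hnC x y hxy
    have h4 := hdense V (by omega) G (G.neighborSet y) (G.neighborSet x) y h3
    refine le_trans (mul_le_mul_of_nonneg_right (min_le_left _ _) hP0.le) h4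
  -- the set X
  obtain ⟨X, hXT, hXc, hX⟩ := hsamp V (by omega) G (Tri G) hC hZ₂
  -- removal in Tri G
  have he₃ : e₃ ≤ e := by
    have : (e₃ : ℝ) ≤ e := by linarith
    exact_mod_cast this
  obtain ⟨G₂, hle₂, hcf₂, hdf₂⟩ := hrem V G hC he₃
  -- all dg are close
  obtain ⟨v₁, hv₁⟩ : ∃ v₁, ∀ v, dg H G v ≤ dg H G v₁ := Finite.exists_max (dg H G)
  have hlowall : ∀ w, (dg H G v₁ : ℝ) ≤ dg H G w + 2 * c₃ * e * P := by
    by_cases hhalf : 2 * e ≤ Nat.card V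
    · have hex : ∃ v, v ∉ Tri G ∧ (dg H G v₁ : ℝ) < dg H G v + c₃ * e * P := by
        by_contra hcon
        push Not at hcon
        set m : ℕ := ⌊c₃ * e / (2 * B)⌋₊ with hmdef
        have hm1 : (m : ℝ) ≤ c₃ * e / (2 * B) := Nat.floor_le (by positivity)
        have hm2 : c₃ * e / (2 * B) < m + 1 := Nat.lt_floor_add_one _
        have hm1' : 2 * B * m ≤ c₃ * e := by
          rw [le_div_iff₀ (by positivity)] at hm1
          linarith
        have hm2' : c₃ * e ≤ 2 * B * (m + 1) := by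
          rw [div_lt_iff₀ (by positivity)] at hm2
          linarith
        have hme : m ≤ e := by
          have h3 : (m : ℝ) ≤ e := by
            have h4 : 2 * B * (m : ℝ) ≤ 1 * e := hm1'.trans (mul_le_mul_of_nonneg_right hc₃1 hepos.le)
            have h5 : (0 : ℝ) ≤ m := Nat.cast_nonneg _
            nlinarith
          exact_mod_cast h3
        have h3 := low H G G₂ hcf₂ hC hinj v₁ (s := c₃ * e) (by positivity)
          (fun v hv => hcon v hv) m (by omega)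
        have h4 := arith2 (κ₂ := κ₂) (Cr := C) hc₃ hB0 hepos (Nat.cast_nonneg m) hm1' hm2' hdf₂ hκ₂2 h3
        have h5 : (e : ℝ) ≤ 8 * B * (c₃ / 2 + B * C) / c₃ ^ 2 := by
          rw [le_div_iff₀ (by positivity)]
          linarith
        linarith
      obtain ⟨v, hv, hvd⟩ := hex
      intro w
      have h3 : (dg H G v : ℝ) ≤ dg H G w + B * P := by
        have h4 := extremal H hC hmax hv w
        have h5 : ((dg H G v : ℕ) : ℝ) ≤ ((dg H G w + Nat.card α ^ 2 * Nat.card V ^ (Nat.card α - 2) : ℕ) : ℝ) := by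
          exact_mod_cast h4
        push_cast at h5
        exact h5
      have h4 : B * P ≤ c₃ * e * P := by
        refine mul_le_mul_of_nonneg_right ?_ hP0.le
        have h5 : B / c₃ ≤ e := by linarith
        rw [div_le_iff₀ hc₃] at h5
        linarith
      linarith
    · intro w
      have h3 := hstar V (by omega) G G₁ (G.neighborSet v₁) hle₁ hcf₁ (hmon hττ₃).1 (hmon hττ₃).2.2
        ((hmon hττ₃).2.1 v₁)
      have h4 : (dg H G v₁ : ℝ) ≤ D H G (G.neighborSet v₁) := by exact_mod_cast dg_le_D H G v₁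
      have h5 := hdgmon hεc w
      have h6 : n ≤ 2 * e := by
        have h7 : Nat.card V ≤ 2 * e := by omega
        rw [hndef]
        exact_mod_cast h7
      have h7 : c₃ * (n * P) ≤ 2 * c₃ * e * P := by
        have h8 := mul_le_mul_of_nonneg_right h6 (show 0 ≤ c₃ * P by positivity)
        linarith
      rw [hnP] at h3 h5
      nlinarith
  have hΔ : ∀ v w, (dg H G v : ℝ) ≤ dg H G w + 2 * c₃ * e * P := by
    intro v w
    have h3 : (dg H G v : ℝ) ≤ dg H G v₁ := by exact_mod_cast hv₁ v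
    exact h3.trans (hlowall w)
  have he1 : 2 * k * (C + 6) ≤ e := by
    have h3 : 2 * (k : ℝ) * (C + 6) ≤ e := by linarith
    exact_mod_cast h3
  have hbig := big H χ hχ a₀ b₀ hab h₀ G G₂ hcf₂ hC hc₀ hκc hκ.le hdeg hnC hc hbt hbt1 hBb hTκ hk hc₃.le hc₃k
    hdf₂ hκ₂1 hDS hinj hΔ X hXT hXc hX he1 (by linarith)
  have h3 : (e : ℝ) ≤ 16384 * (k : ℝ) ^ 2 * B * C / (c * bt) := by
    rw [le_div_iff₀ (by positivity)]
    linarith
  linarith

/-- tight maximisers of the class `Cod` have at most `a3 + K n^(h-2)` labelled copies -/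
theorem tightC [Finite α] [Nonempty α] {H : SimpleGraph α} (hH : H.Colorable 2) (hI : NoIso H) (C : ℕ) :
    ∃ ε : ℝ, 0 < ε ∧ ∃ K n₀ : ℕ, ∀ (V : Type) [Finite V], n₀ ≤ Nat.card V → ∀ G : SimpleGraph V, Cod G C →
      bC H C (Nat.card V) ≤ inj H G →
      (∀ x, (pi3 H * Nat.card α - ε) * (Nat.card V : ℝ) ^ (Nat.card α - 1) ≤ dg H G x) →
        inj H G ≤ a3 H (Nat.card V) + K * Nat.card V ^ (Nat.card α - 2) := by
  obtain ⟨ε, hε, e₀, n₀, h⟩ := tightE hH hI C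
  refine ⟨ε, hε, Nat.card α ^ 2 * e₀ ^ 2, n₀, ?_⟩
  intro V _ hn G hC hmax hdg
  by_cases hle : inj H G ≤ a3 H (Nat.card V)
  · exact hle.trans (Nat.le_add_right _ _)
  have hsmall := h V hn G hC hmax hdg (by omega)
  refine (inj_le_tri H G).trans ?_
  have h3 : (Tri G).ncard ^ 2 ≤ e₀ ^ 2 := Nat.pow_le_pow_left hsmall 2
  have h4 := Nat.mul_le_mul_left (Nat.card α ^ 2) (Nat.mul_le_mul_right (Nat.card V ^ (Nat.card α - 2)) h3)
  have h5 : Nat.card α ^ 2 * e₀ ^ 2 * Nat.card V ^ (Nat.card α - 2) =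
      Nat.card α ^ 2 * (e₀ ^ 2 * Nat.card V ^ (Nat.card α - 2)) := by ring
  omega

end Pool.Agent.WTE
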