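import Pool.Agent.WTE.Cnt

/-!
# [WTE-Move] moving vertices to clones of a vertex
-/

set_option autoImplicit false

namespace Pool.Agent.WTE

open Pool.Agent.WT7

variable {α β V : Type}

theorem mv_out {G : SimpleGraph V} {M S : Set V} {a b : V} (ha : a ∉ M) (hb : b ∉ M) :
    (Mv G M S).Adj a b ↔ G.Adj a b := by
  constructor
  · rintro (h | h | h)
    · exact h.2.2
    · exact absurd h.1 ha
    · exact absurd h.2.1 hb
  · intro h
    exact Or.inl ⟨ha, hb, h⟩

theorem mv_in {G : SimpleGraph V} {M S : Set V} {a b : V} (ha : a ∈ M) :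
    (Mv G M S).Adj a b ↔ b ∉ M ∧ b ∈ S := by
  constructor
  · rintro (h | h | h)
    · exact absurd ha h.1
    · exact h.2
    · exact absurd ha h.1
  · intro h
    exact Or.inr (Or.inl ⟨ha, h.1, h.2⟩)

theorem mv_in' {G : SimpleGraph V} {M S : Set V} {a b : V} (hb : b ∈ M) :
    (Mv G M S).Adj a b ↔ a ∉ M ∧ a ∈ S := by
  rw [SimpleGraph.adj_comm]
  exact mv_in hb

private theorem mv_union [Finite α] [Finite V] (S T : Set (α → V)) (M : Set V) (E : V → Set (α → V)) (N : ℕ)
    (hE : ∀ w ∈ M, (E w).ncard ≤ N) (h : S ⊆ T ∪ ⋃ w : M, E w) : S.ncard ≤ T.ncard + M.ncard * N := by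
  classical
  have := Fintype.ofFinite V
  have h1 : S.ncard ≤ (T ∪ ⋃ w : M, E w).ncard := Set.ncard_le_ncard h (Set.toFinite _)
  have h2 := Set.ncard_union_le T (⋃ w : M, E w)
  have h3 := Set.ncard_iUnion_le_of_fintype (fun w : M => E w)
  have h4 : ∑ w : M, (E w).ncard ≤ ∑ _w : M, N := Finset.sum_le_sum fun w _ => hE w w.2
  rw [Finset.sum_const, Finset.card_univ, smul_eq_mul, ← Nat.card_eq_fintype_card, Nat.card_coe_set_eq] at h4
  omega

/-- moving the vertices of `M` to clones of `v` -/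
theorem move [Finite α] [Finite V] (H : SimpleGraph α) (G : SimpleGraph V) (M : Set V) (v : V) (hv : v ∉ M)
    (d : ℕ) (hd : ∀ w ∈ M, dg H G w ≤ d) :
    inj H G + M.ncard * dg H G v ≤ inj H (Mv G M (G.neighborSet v)) + M.ncard * d +
      Nat.card α ^ 2 * (M.ncard ^ 2 * Nat.card V ^ (Nat.card α - 2)) := by
  classical
  set G' := Mv G M (G.neighborSet v) with hG'
  set S0 : Set (α → V) := {f | IsInj H G f ∧ ∀ x, f x ∉ M} with hS0
  set Sv : Set (α → V) := {f | IsInj H G f ∧ (∃ x, f x = v) ∧ ∀ x, f x ∉ M} with hSv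
  have h1 : inj H G ≤ S0.ncard + M.ncard * d := by
    refine mv_union _ _ M (fun w => {f | IsInj H G f ∧ ∃ x, f x = w}) d (fun w hw => hd w hw) ?_
    intro f hf
    by_cases hM : ∀ x, f x ∉ M
    · exact Or.inl ⟨hf, hM⟩
    · push Not at hM
      obtain ⟨x, hx⟩ := hM
      exact Or.inr (Set.mem_iUnion.2 ⟨⟨f x, hx⟩, hf, x, rfl⟩)
  have h2 : dg H G v ≤ Sv.ncard + M.ncard * (Nat.card α ^ 2 * Nat.card V ^ (Nat.card α - 2)) := by
    refine mv_union _ _ M (fun w => {f | IsInj H G f ∧ (∃ x, f x = v) ∧ ∃ y, f y = w}) _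
      (fun w hw => two_le H G (fun h => hv (h ▸ hw))) ?_
    rintro f ⟨hf, hx⟩
    by_cases hM : ∀ x, f x ∉ M
    · exact Or.inl ⟨hf, hx, hM⟩
    · push Not at hM
      obtain ⟨x, hxM⟩ := hM
      exact Or.inr (Set.mem_iUnion.2 ⟨⟨f x, hxM⟩, hf, hx, x, rfl⟩)
  have h3 : S0.ncard + M.ncard * Sv.ncard ≤ inj H G' := by
    have h4 : S0.ncard ≤ {f | IsInj H G' f ∧ ∀ x, f x ∉ M}.ncard := by
      refine Set.ncard_le_ncard ?_ (Set.toFinite _)
      rintro f ⟨hf, hM⟩
      exact ⟨⟨hf.1, fun a b hab => (mv_out (hM a) (hM b)).2 (hf.2 a b hab)⟩, hM⟩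
    have h5 : M.ncard * Sv.ncard ≤ {f | IsInj H G' f ∧ ∃ x, f x ∈ M}.ncard := by
      rw [← Set.ncard_prod]
      refine Set.ncard_le_ncard_of_injOn (fun p x => if p.2 x = v then p.1 else p.2 x) ?_ ?_ (Set.toFinite _)
      · rintro ⟨w, f⟩ ⟨hw, hf, ⟨x, hx⟩, hM⟩
        simp only at hw hf hx hM ⊢
        refine ⟨⟨?_, ?_⟩, x, by simp [hx, hw]⟩
        · intro a b hab
          simp only at hab
          by_cases ha : f a = v <;> by_cases hb : f b = v
          · exact hf.1 (ha.trans hb.symm)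
          · rw [if_pos ha, if_neg hb] at hab
            exact absurd (hab ▸ hw) (hM b)
          · rw [if_neg ha, if_pos hb] at hab
            exact absurd (hab.symm ▸ hw) (hM a)
          · rw [if_neg ha, if_neg hb] at hab
            exact hf.1 hab
        · intro a b hab
          have h6 := hf.2 a b hab
          simp only
          by_cases ha : f a = v <;> by_cases hb : f b = v
          · rw [ha, hb] at h6
            exact absurd h6 (G.loopless.irrefl _)
          · rw [if_pos ha, if_neg hb]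
            rw [ha] at h6
            exact (mv_in hw).2 ⟨hM b, h6⟩
          · rw [if_neg ha, if_pos hb]
            rw [hb] at h6
            exact (mv_in' hw).2 ⟨hM a, h6.symm⟩
          · rw [if_neg ha, if_neg hb]
            exact (mv_out (hM a) (hM b)).2 h6
      · rintro ⟨w, f⟩ ⟨hw, hf, ⟨x, hx⟩, hM⟩ ⟨w', f'⟩ ⟨hw', hf', ⟨x', hx'⟩, hM'⟩ heq
        simp only at hw hf hx hM hw' hf' hx' hM' heq
        have h6 : ∀ z, f z = v ↔ f' z = v := by
          intro z
          have h7 := congrFun heq z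
          by_cases ha : f z = v <;> by_cases hb : f' z = v
          · simp [ha, hb]
          · rw [if_pos ha, if_neg hb] at h7
            exact absurd (h7 ▸ hw) (hM' z)
          · rw [if_neg ha, if_pos hb] at h7
            exact absurd (h7.symm ▸ hw') (hM z)
          · simp [ha, hb]
        have hww : w = w' := by
          have h7 := congrFun heq x
          rwa [if_pos hx, if_pos ((h6 x).1 hx)] at h7
        have hff : f = f' := by
          funext z
          have h7 := congrFun heq z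
          by_cases ha : f z = v
          · rw [ha, (h6 z).1 ha]
          · rwa [if_neg ha, if_neg (fun h => ha ((h6 z).2 h))] at h7
        rw [hww, hff]
    have h6 : {f | IsInj H G' f ∧ ∀ x, f x ∉ M}.ncard + {f | IsInj H G' f ∧ ∃ x, f x ∈ M}.ncard ≤ inj H G' := by
      unfold inj
      rw [← Set.ncard_union_eq]
      · refine Set.ncard_le_ncard ?_ (Set.toFinite _)
        rintro f (h | h)
        · exact h.1
        · exact h.1
      · rw [Set.disjoint_left]
        rintro f h ⟨-, x, hx⟩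
        exact h.2 x hx
    omega
  have h7 : M.ncard * dg H G v ≤ M.ncard * Sv.ncard +
      Nat.card α ^ 2 * (M.ncard ^ 2 * Nat.card V ^ (Nat.card α - 2)) := by
    calc M.ncard * dg H G v ≤ M.ncard * (Sv.ncard + M.ncard * (Nat.card α ^ 2 * Nat.card V ^ (Nat.card α - 2))) :=
          Nat.mul_le_mul_left _ h2
      _ = _ := by ring
  omega

/-- one step: two graphs which agree outside of `w` -/
theorem step_eq [Finite α] [Finite V] (H : SimpleGraph α) (G G' : SimpleGraph V) (w : V)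
    (h : ∀ a b, a ≠ w → b ≠ w → (G.Adj a b ↔ G'.Adj a b)) : inj H G + dg H G' w = inj H G' + dg H G w := by
  classical
  have hs : ∀ Γ : SimpleGraph V, inj H Γ = {f : α → V | IsInj H Γ f ∧ ∀ x, f x ≠ w}.ncard + dg H Γ w := by
    intro Γ
    unfold inj dg
    rw [← Set.ncard_union_eq]
    · congr 1
      ext f
      simp only [Set.mem_ofPred_eq, Set.mem_union]
      constructor
      · intro hf
        by_cases hx : ∃ x, f x = w
        · exact Or.inr ⟨hf, hx⟩
        · push Not at hx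
          exact Or.inl ⟨hf, hx⟩
      · rintro (h | h)
        · exact h.1
        · exact h.1
    · rw [Set.disjoint_left]
      rintro f h ⟨-, x, hx⟩
      exact h.2 x hx
  have h1 : {f : α → V | IsInj H G f ∧ ∀ x, f x ≠ w} = {f : α → V | IsInj H G' f ∧ ∀ x, f x ≠ w} := by
    ext f
    simp only [Set.mem_ofPred_eq]
    constructor
    · rintro ⟨hf, hx⟩
      exact ⟨⟨hf.1, fun a b hab => (h _ _ (hx a) (hx b)).1 (hf.2 a b hab)⟩, hx⟩
    · rintro ⟨hf, hx⟩
      exact ⟨⟨hf.1, fun a b hab => (h _ _ (hx a) (hx b)).2 (hf.2 a b hab)⟩, hx⟩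
  rw [hs G, hs G', h1]
  ring

/-- twins have the same `dg` -/
theorem dg_twin [Finite α] [Finite V] (H : SimpleGraph α) (G : SimpleGraph V) (x w : V) (hxw : x ≠ w)
    (hN : ∀ b, G.Adj x b ↔ G.Adj w b) : dg H G x ≤ dg H G w := by
  classical
  have hxw' : ¬ G.Adj x w := by
    intro h
    exact G.loopless.irrefl _ ((hN w).1 h)
  have key : ∀ a b, G.Adj a b → G.Adj (Equiv.swap x w a) (Equiv.swap x w b) := by
    intro a b hab
    by_cases hax : a = x
    · subst hax
      have hbx : b ≠ a := hab.ne'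
      have hbw : b ≠ w := fun h => hxw' (h ▸ hab)
      rw [Equiv.swap_apply_left, Equiv.swap_apply_of_ne_of_ne hbx hbw]
      exact (hN b).1 hab
    · by_cases haw : a = w
      · subst haw
        have hba : b ≠ a := hab.ne'
        have hbx : b ≠ x := fun h => hxw' (h ▸ hab.symm)
        rw [Equiv.swap_apply_right, Equiv.swap_apply_of_ne_of_ne hbx hba]
        exact (hN b).2 hab
      · rw [Equiv.swap_apply_of_ne_of_ne hax haw]
        by_cases hbx : b = x
        · subst hbx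
          rw [Equiv.swap_apply_left]
          exact ((hN a).1 hab.symm).symm
        · by_cases hbw : b = w
          · subst hbw
            rw [Equiv.swap_apply_right]
            exact ((hN a).2 hab.symm).symm
          · rw [Equiv.swap_apply_of_ne_of_ne hbx hbw]
            exact hab
  unfold dg
  refine Set.ncard_le_ncard_of_injOn (fun f z => Equiv.swap x w (f z)) ?_ ?_ (Set.toFinite _)
  · rintro f ⟨hf, z, hz⟩
    refine ⟨⟨?_, fun a b hab => key _ _ (hf.2 a b hab)⟩, z, ?_⟩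
    · intro a b hab
      exact hf.1 ((Equiv.swap x w).injective hab)
    · simp [hz]
  · intro f _ g _ hfg
    funext z
    exact (Equiv.swap x w).injective (congrFun hfg z)

theorem df_mv_le [Finite V] (G : SimpleGraph V) (M : Set V) (x : V) (K : ℕ)
    (hK : ∀ w ∈ M, (symmDiff (G.neighborSet w) (G.neighborSet x)).ncard ≤ K) (hx : ∀ w ∈ M, ¬ G.Adj w x) :
    df G (Mv G M (G.neighborSet x)) ≤ 2 * (M.ncard * K) ∧ df (Mv G M (G.neighborSet x)) G ≤ 2 * (M.ncard * K) := by
  classical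
  have := Fintype.ofFinite V
  have hU : (⋃ w : M, (fun b => ((w : V), b)) '' (symmDiff (G.neighborSet w) (G.neighborSet x))).ncard ≤ M.ncard * K := by
    refine (Set.ncard_iUnion_le_of_fintype _).trans ?_
    have h4 : ∑ w : M, ((fun b => ((w : V), b)) '' (symmDiff (G.neighborSet w) (G.neighborSet x))).ncard ≤ ∑ _w : M, K :=
      Finset.sum_le_sum fun w _ => (Set.ncard_image_le (Set.toFinite _)).trans (hK w w.2)
    rw [Finset.sum_const, Finset.card_univ, smul_eq_mul, ← Nat.card_eq_fintype_card, Nat.card_coe_set_eq] at h4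
    exact h4
  set U := ⋃ w : M, (fun b => ((w : V), b)) '' (symmDiff (G.neighborSet w) (G.neighborSet x)) with hUdef
  have hmem : ∀ w ∈ M, ∀ b, (G.Adj w b ∧ ¬ G.Adj x b) ∨ (¬ G.Adj w b ∧ G.Adj x b) → (w, b) ∈ U := by
    intro w hw b h
    refine Set.mem_iUnion.2 ⟨⟨w, hw⟩, b, ?_, rfl⟩
    rcases h with h | h
    · exact Or.inl ⟨h.1, h.2⟩
    · exact Or.inr ⟨h.2, h.1⟩
  have hswap : (Prod.swap '' U).ncard ≤ M.ncard * K := (Set.ncard_image_le (Set.toFinite _)).trans hU
  have hUU : (U ∪ Prod.swap '' U).ncard ≤ 2 * (M.ncard * K) := by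
    have := Set.ncard_union_le U (Prod.swap '' U)
    omega
  refine ⟨(Set.ncard_le_ncard ?_ (Set.toFinite _)).trans hUU, (Set.ncard_le_ncard ?_ (Set.toFinite _)).trans hUU⟩
  · rintro ⟨a, b⟩ ⟨h1, h2⟩
    simp only at h1 h2
    by_cases ha : a ∈ M
    · left
      refine hmem a ha b (Or.inl ⟨h1, fun h3 => ?_⟩)
      by_cases hb : b ∈ M
      · exact hx b hb h3.symm
      · exact h2 ((mv_in ha).2 ⟨hb, h3⟩)
    · by_cases hb : b ∈ M
      · right
        refine ⟨(b, a), hmem b hb a (Or.inl ⟨h1.symm, fun h3 => ?_⟩), rfl⟩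
        exact h2 ((mv_in' hb).2 ⟨ha, h3⟩)
      · exact absurd ((mv_out ha hb).2 h1) h2
  · rintro ⟨a, b⟩ ⟨h1, h2⟩
    simp only at h1 h2
    by_cases ha : a ∈ M
    · left
      exact hmem a ha b (Or.inr ⟨h2, ((mv_in ha).1 h1).2⟩)
    · by_cases hb : b ∈ M
      · right
        exact ⟨(b, a), hmem b hb a (Or.inr ⟨fun h => h2 h.symm, ((mv_in' hb).1 h1).2⟩), rfl⟩
      · exact absurd ((mv_out ha hb).1 h1) h2

/-- the pairs lost or won by the move do not contain a vertex `v ∉ M` which is not adjacent to any vertex of `M` -/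
theorem lost_ne {G : SimpleGraph V} {M : Set V} {x v : V} (hvM : v ∉ M) (hv : ∀ w ∈ M, ¬ G.Adj w v) (a b : V)
    (h1 : G.Adj a b) (h2 : ¬ (Mv G M (G.neighborSet x)).Adj a b) : a ≠ v ∧ b ≠ v := by
  constructor
  · rintro rfl
    by_cases hb : b ∈ M
    · exact hv b hb h1.symm
    · exact h2 ((mv_out hvM hb).2 h1)
  · rintro rfl
    by_cases ha : a ∈ M
    · exact hv a ha h1
    · exact h2 ((mv_out ha hvM).2 h1)

theorem won_ne {G : SimpleGraph V} {M : Set V} {x v : V} (hvM : v ∉ M) (hv : ¬ G.Adj x v) (a b : V)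
    (h1 : (Mv G M (G.neighborSet x)).Adj a b) (h2 : ¬ G.Adj a b) : a ≠ v ∧ b ≠ v := by
  constructor
  · rintro rfl
    by_cases hb : b ∈ M
    · exact hv ((mv_in' hb).1 h1).2
    · exact h2 ((mv_out hvM hb).1 h1)
  · rintro rfl
    by_cases ha : a ∈ M
    · exact hv ((mv_in ha).1 h1).2
    · exact h2 ((mv_out ha hvM).1 h1)

theorem dg_ge_mv [Finite α] [Finite V] (H : SimpleGraph α) (G : SimpleGraph V) (M : Set V) (x v : V) (K : ℕ)
    (hK : ∀ w ∈ M, (symmDiff (G.neighborSet w) (G.neighborSet x)).ncard ≤ K) (hx : ∀ w ∈ M, ¬ G.Adj w x)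
    (hvM : v ∉ M) (hv : ∀ w ∈ M, ¬ G.Adj w v) :
    (Nat.card V : ℝ) * dg H G v ≤ (Nat.card V : ℝ) * dg H (Mv G M (G.neighborSet x)) v +
      (Nat.card α : ℝ) ^ 3 * (2 * (M.ncard * K : ℝ) * (Nat.card V : ℝ) ^ (Nat.card α - 2)) := by
  have h1 := dg_cmp H G (Mv G M (G.neighborSet x)) v (lost_ne hvM hv)
    {f | IsInj H (Mv G M (G.neighborSet x)) f ∧ ∃ z, f z = v} (fun f _ hz hf => ⟨hf, hz⟩)
  have h2 : ((df G (Mv G M (G.neighborSet x)) : ℕ) : ℝ) ≤ 2 * (M.ncard * K : ℝ) := by
    exact_mod_cast (df_mv_le G M x K hK hx).1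
  refine h1.trans ?_
  have h3 : (0 : ℝ) ≤ (Nat.card V : ℝ) ^ (Nat.card α - 2) := by positivity
  have h4 : (0 : ℝ) ≤ (Nat.card α : ℝ) ^ 3 := by positivity
  have h5 := mul_le_mul_of_nonneg_left (mul_le_mul_of_nonneg_right h2 h3) h4
  unfold dg
  linarith

theorem dg_le_mv [Finite α] [Finite V] (H : SimpleGraph α) (G : SimpleGraph V) (M : Set V) (x v : V) (K : ℕ)
    (hK : ∀ w ∈ M, (symmDiff (G.neighborSet w) (G.neighborSet x)).ncard ≤ K) (hx : ∀ w ∈ M, ¬ G.Adj w x)
    (hvM : v ∉ M) (hv : ¬ G.Adj x v) :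
    (Nat.card V : ℝ) * dg H (Mv G M (G.neighborSet x)) v ≤ (Nat.card V : ℝ) * dg H G v +
      (Nat.card α : ℝ) ^ 3 * (2 * (M.ncard * K : ℝ) * (Nat.card V : ℝ) ^ (Nat.card α - 2)) := by
  have h1 := dg_cmp H (Mv G M (G.neighborSet x)) G v (won_ne hvM hv)
    {f | IsInj H G f ∧ ∃ z, f z = v} (fun f _ hz hf => ⟨hf, hz⟩)
  have h2 : ((df (Mv G M (G.neighborSet x)) G : ℕ) : ℝ) ≤ 2 * (M.ncard * K : ℝ) := by
    exact_mod_cast (df_mv_le G M x K hK hx).2
  refine h1.trans ?_
  have h3 : (0 : ℝ) ≤ (Nat.card V : ℝ) ^ (Nat.card α - 2) := by positivity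
  have h4 : (0 : ℝ) ≤ (Nat.card α : ℝ) ^ 3 := by positivity
  have h5 := mul_le_mul_of_nonneg_left (mul_le_mul_of_nonneg_right h2 h3) h4
  unfold dg
  linarith

end Pool.Agent.WTE
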