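import Pool.Agent.WTE.Extr
import Pool.Agent.WTE.CodC

/-!
# [WTE-Prog] progressive induction (helper57)

`prog`: if for all large `n` either `f (n+1) ≤ a3 H (n+1) + K (n+1)^(h-2)` or `f (n+1) ≤ f n + d` with `d ≤ (π h - ε) (n+1)^(h-1)`, then
`f n ≤ a3 H n + K' n^(h-2)` for all `n` (`growth`). `progC`: `f = bC H C`; it is enough to bound `inj H G` for the maximisers `G` of the class
`Cod` in which all `dg` are large. `progF`: `f = bF H F`, from the bound for `bC`, by `codConst`.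
-/

set_option autoImplicit false

namespace Pool.Agent.WTE

open Pool.Agent.WT7

variable {α β V : Type}

/-- progressive induction -/
theorem prog [Finite α] [Nonempty α] (H : SimpleGraph α) {f : ℕ → ℕ} {ε : ℝ} (hε : 0 < ε) {n₁ K : ℕ}
    (hstep : ∀ n ≥ n₁, f (n + 1) ≤ a3 H (n + 1) + K * (n + 1) ^ (Nat.card α - 2) ∨
      ∃ d : ℕ, f (n + 1) ≤ f n + d ∧ (d : ℝ) ≤ (pi3 H * Nat.card α - ε) * ((n : ℝ) + 1) ^ (Nat.card α - 1))
    (h0 : f 0 = 0) : ∃ K' : ℕ, ∀ n, f n ≤ a3 H n + K' * n ^ (Nat.card α - 2) := by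
  obtain ⟨n₂, hgr⟩ := growth H hε
  set N := max n₁ n₂ with hN
  set B := ∑ m ∈ Finset.range (N + 1), f m with hB
  have hfB : ∀ n ≤ N, f n ≤ B := fun n hn =>
    Finset.single_le_sum (f := f) (fun _ _ => Nat.zero_le _) (Finset.mem_range.2 (by omega))
  have hmain : ∀ n ≥ N, f n ≤ a3 H n + (B + K * n ^ (Nat.card α - 2)) := by
    intro n hn
    induction n, hn using Nat.le_induction with
    | base =>
      have := hfB N le_rfl
      omega
    | succ n hn ih =>
      have hn1 : n₁ ≤ n := (le_max_left _ _).trans hn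
      have hn2 : n₂ ≤ n := (le_max_right _ _).trans hn
      rcases hstep n hn1 with h | ⟨d, h1, h2⟩
      · refine h.trans (Nat.add_le_add_left (Nat.le_add_left _ _) _)
      · have h3 := hgr n hn2
        have h4 : ((a3 H n + d : ℕ) : ℝ) ≤ ((a3 H (n + 1) : ℕ) : ℝ) := by
          push_cast
          linarith
        have h5 : a3 H n + d ≤ a3 H (n + 1) := by exact_mod_cast h4
        have h6 : K * n ^ (Nat.card α - 2) ≤ K * (n + 1) ^ (Nat.card α - 2) :=
          Nat.mul_le_mul_left _ (Nat.pow_le_pow_left (Nat.le_succ n) _)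
        omega
  refine ⟨B + K, fun n => ?_⟩
  rcases Nat.eq_zero_or_pos n with rfl | hn
  · rw [h0]
    exact Nat.zero_le _
  · have h1 : 1 ≤ n ^ (Nat.card α - 2) := Nat.one_le_pow _ _ hn
    have h2 : B ≤ B * n ^ (Nat.card α - 2) := Nat.le_mul_of_pos_right _ h1
    have h3 : f n ≤ a3 H n + (B + K * n ^ (Nat.card α - 2)) := by
      rcases le_total N n with h | h
      · exact hmain n h
      · have := hfB n h
        omega
    refine h3.trans ?_
    rw [add_mul]
    omega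

private theorem pr_zero [Finite α] [Nonempty α] (H : SimpleGraph α) (G : SimpleGraph (Fin 0)) : inj H G = 0 := by
  have h := (inj_le_hom H G).trans (hom_le_pow H G)
  rw [Nat.card_fin, zero_pow (Nat.card_pos (α := α)).ne'] at h
  omega

theorem bC_zero [Finite α] [Nonempty α] (H : SimpleGraph α) (C : ℕ) : bC H C 0 = 0 := by
  obtain ⟨G, -, hG⟩ := exists_bC H C 0
  rw [← hG]
  exact pr_zero H G

theorem bF_zero [Finite α] [Nonempty α] (H : SimpleGraph α) {F : SimpleGraph β} (hF : ∃ a b, F.Adj a b) :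
    bF H F 0 = 0 := by
  obtain ⟨G, -, hG⟩ := exists_bF H hF 0
  rw [← hG]
  exact pr_zero H G

/-- (P1) it is enough to bound the maximisers in the class `Cod` in which all `dg` are large -/
theorem progC [Finite α] [Nonempty α] {H : SimpleGraph α} (C : ℕ)
    (hstep : ∃ ε : ℝ, 0 < ε ∧ ∃ K n₀ : ℕ, ∀ (V : Type) [Finite V], n₀ ≤ Nat.card V → ∀ G : SimpleGraph V, Cod G C →
      bC H C (Nat.card V) ≤ inj H G →
      (∀ x, (pi3 H * Nat.card α - ε) * (Nat.card V : ℝ) ^ (Nat.card α - 1) ≤ dg H G x) →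
        inj H G ≤ a3 H (Nat.card V) + K * Nat.card V ^ (Nat.card α - 2)) :
    ∃ K : ℕ, ∀ n, bC H C n ≤ a3 H n + K * n ^ (Nat.card α - 2) := by
  obtain ⟨ε, hε, K, n₁, hmain⟩ := hstep
  refine prog H (f := bC H C) hε (n₁ := n₁) (K := K) ?_ (bC_zero H C)
  intro n hn
  obtain ⟨G, hG, hGb⟩ := exists_bC H C (n + 1)
  by_cases hall : ∀ x, (pi3 H * Nat.card α - ε) * ((Nat.card (Fin (n + 1)) : ℕ) : ℝ) ^ (Nat.card α - 1) ≤ dg H G x
  · left
    have h1 := hmain (Fin (n + 1)) (by rw [Nat.card_fin]; omega) G hG (by rw [Nat.card_fin, hGb]) hall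
    rw [Nat.card_fin, hGb] at h1
    exact h1
  · right
    push Not at hall
    obtain ⟨x, hx⟩ := hall
    refine ⟨dg H G x, ?_, ?_⟩
    · have h1 := bC_step H hG x
      rw [Nat.card_fin, Nat.add_sub_cancel, hGb] at h1
      exact h1
    · rw [Nat.card_fin] at hx
      push_cast at hx
      exact hx.le

/-- (P2) from `Cod` to `F`-free graphs -/
theorem progF [Finite α] [Nonempty α] {H : SimpleGraph α} (hH : H.Colorable 2) (hI : NoIso H) [Finite β]
    {F : SimpleGraph β} {u v : β} {c : β → Bool} (hF : Crt F u v c)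
    (hC : ∀ C : ℕ, ∃ K : ℕ, ∀ n, bC H C n ≤ a3 H n + K * n ^ (Nat.card α - 2)) :
    ∃ K : ℕ, ∀ n, bF H F n ≤ a3 H n + K * n ^ (Nat.card α - 2) := by
  have hFe : ∃ a b, F.Adj a b := ⟨u, v, hF.adj⟩
  have hπ : 0 < pi3 H := pi_pos (hH.cliqueFree (by norm_num))
  obtain ⟨C, n₁, hCod⟩ := codConst hF (c₀ := pi3 H / 2) (by positivity)
  obtain ⟨K, hK⟩ := hC C
  refine prog H (f := bF H F) hπ (n₁ := n₁) (K := K) ?_ (bF_zero H hFe)
  intro n hn
  obtain ⟨G, hG, hGb⟩ := exists_bF H hFe (n + 1)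
  by_cases hall : ∀ x, (pi3 H * Nat.card α - pi3 H) * ((Nat.card (Fin (n + 1)) : ℕ) : ℝ) ^ (Nat.card α - 1) ≤ dg H G x
  · left
    have hcG : Cod G C := hCod (Fin (n + 1)) (by rw [Nat.card_fin]; omega) G hG
      (fun x => deg_lower hI hπ le_rfl G x (hall x))
    have h1 := inj_le_bC H hcG
    rw [Nat.card_fin, hGb] at h1
    exact h1.trans (hK (n + 1))
  · right
    push Not at hall
    obtain ⟨x, hx⟩ := hall
    refine ⟨dg H G x, ?_, ?_⟩
    · have h1 := bF_step H hG x
      rw [Nat.card_fin, Nat.add_sub_cancel, hGb] at h1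
      exact h1
    · rw [Nat.card_fin] at hx
      push_cast at hx
      exact hx.le

end Pool.Agent.WTE
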