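import Pool.Agent.WTE.MainD
import Pool.Agent.WTE.Prog
import Pool.Agent.WTE.Fin

/-!
# [WTE-ProgX] exact results from the case of few vertices in triangles

`FewTri H`: for all `e`, for all large `n`, a graph on `n` vertices with at most `e` vertices in triangles has at most `a3 H n` labelled copies of `H`.
`exactC`, `exactF`: then `bC H C n ≤ a3 H n` and `bF H F n ≤ a3 H n` for all large `n` (progressive induction with `tightE` and `codConst`).
-/

set_option autoImplicit false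

namespace Pool.Agent.WTE

open Pool.Agent.WT7

variable {α β V : Type}

/-- graphs with few vertices in triangles have at most `a3` labelled copies -/
def FewTri (H : SimpleGraph α) : Prop :=
  ∀ e : ℕ, ∃ n₀ : ℕ, ∀ n ≥ n₀, ∀ G : SimpleGraph (_root_.Fin n), (Tri G).ncard ≤ e → inj H G ≤ a3 H n

/-- progressive induction, exact form -/
theorem progX [Finite α] [Nonempty α] (H : SimpleGraph α) {f : ℕ → ℕ} {ε : ℝ} (hε : 0 < ε) {n₁ : ℕ}
    (hstep : ∀ n ≥ n₁, a3 H (n + 1) < f (n + 1) → ∃ d : ℕ, f (n + 1) ≤ f n + d ∧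
      (d : ℝ) < (pi3 H * Nat.card α - ε) * ((n : ℝ) + 1) ^ (Nat.card α - 1)) :
    ∃ n₀ : ℕ, ∀ n ≥ n₀, f n ≤ a3 H n := by
  obtain ⟨n₂, hgr⟩ := growth H hε
  have hA : ∀ n, n₁ + n₂ ≤ n → a3 H (n + 1) < f (n + 1) → f (n + 1) + a3 H n < f n + a3 H (n + 1) := by
    intro n hn hlt
    obtain ⟨d, h1, hx⟩ := hstep n (by omega) hlt
    have h2 := hgr n (by omega)
    have h3 : ((f (n + 1) : ℕ) : ℝ) ≤ f n + d := by exact_mod_cast h1
    have h4 : ((f (n + 1) + a3 H n : ℕ) : ℝ) < ((f n + a3 H (n + 1) : ℕ) : ℝ) := by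
      push_cast
      linarith
    exact_mod_cast h4
  refine ⟨n₁ + n₂ + f (n₁ + n₂), fun n hn => ?_⟩
  by_contra hcon
  push Not at hcon
  have hB : ∀ d, n₁ + n₂ + d ≤ n → a3 H (n - d) + d + 1 ≤ f (n - d) := by
    intro d
    induction d with
    | zero =>
      intro _
      rw [Nat.sub_zero]
      omega
    | succ d ih =>
      intro hd
      have h1 := ih (by omega)
      have h2 : n - d = n - (d + 1) + 1 := by omega
      rw [h2] at h1
      have h3 := hA (n - (d + 1)) (by omega) (by omega)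
      omega
  have h1 := hB (n - (n₁ + n₂)) (by omega)
  have h2 : n - (n - (n₁ + n₂)) = n₁ + n₂ := by omega
  rw [h2] at h1
  omega

theorem exactC [Finite α] [Nonempty α] {H : SimpleGraph α} (hH : H.Colorable 2) (hI : NoIso H) (hc : FewTri H)
    (C : ℕ) : ∃ n₀ : ℕ, ∀ n ≥ n₀, bC H C n ≤ a3 H n := by
  obtain ⟨ε, hε, e₀, n₁, hE⟩ := tightE hH hI C
  obtain ⟨n₂, hn₂⟩ := hc e₀
  refine progX H (f := bC H C) hε (n₁ := n₁ + n₂) ?_
  intro n hn hlt
  obtain ⟨G, hG, hGb⟩ := exists_bC H C (n + 1)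
  by_contra hcon
  have hall : ∀ x, (pi3 H * Nat.card α - ε) * ((Nat.card (Fin (n + 1)) : ℕ) : ℝ) ^ (Nat.card α - 1) ≤ dg H G x := by
    intro x
    by_contra hx
    refine hcon ⟨dg H G x, ?_, ?_⟩
    · have h1 := bC_step H hG x
      rw [Nat.card_fin, Nat.add_sub_cancel, hGb] at h1
      exact h1
    · rw [Nat.card_fin] at hx
      push_cast at hx
      exact not_le.1 hx
  have h1 := hE (Fin (n + 1)) (by rw [Nat.card_fin]; omega) G hG (by rw [Nat.card_fin, hGb]) hall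
    (by rw [Nat.card_fin, hGb]; exact hlt)
  have h2 := hn₂ (n + 1) (by omega) G h1
  omega

theorem exactF [Finite α] [Nonempty α] {H : SimpleGraph α} (hH : H.Colorable 2) (hI : NoIso H) (hc : FewTri H)
    [Finite β] {F : SimpleGraph β} {u v : β} {c : β → Bool} (hF : Crt F u v c) :
    ∃ n₀ : ℕ, ∀ n ≥ n₀, bF H F n ≤ a3 H n := by
  have hFe : ∃ a b, F.Adj a b := ⟨u, v, hF.adj⟩
  have hπ : 0 < pi3 H := pi_pos (hH.cliqueFree (by norm_num))
  obtain ⟨C, n₁, hCod⟩ := codConst hF (c₀ := pi3 H / 2) (by positivity)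
  obtain ⟨n₂, hn₂⟩ := exactC hH hI hc C
  refine progX H (f := bF H F) hπ (n₁ := n₁ + n₂) ?_
  intro n hn hlt
  obtain ⟨G, hG, hGb⟩ := exists_bF H hFe (n + 1)
  by_contra hcon
  have hall : ∀ x, (pi3 H * Nat.card α - pi3 H) * ((Nat.card (Fin (n + 1)) : ℕ) : ℝ) ^ (Nat.card α - 1) ≤
      dg H G x := by
    intro x
    by_contra hx
    refine hcon ⟨dg H G x, ?_, ?_⟩
    · have h1 := bF_step H hG x
      rw [Nat.card_fin, Nat.add_sub_cancel, hGb] at h1
      exact h1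
    · rw [Nat.card_fin] at hx
      push_cast at hx
      exact not_le.1 hx
  have hcG : Cod G C := hCod (Fin (n + 1)) (by rw [Nat.card_fin]; omega) G hG
    (fun x => deg_lower hI hπ le_rfl G x (hall x))
  have h1 := inj_le_bC H hcG
  rw [Nat.card_fin, hGb] at h1
  have h2 := hn₂ (n + 1) (by omega)
  omega

/-- isolated vertices of `H` -/
theorem fewTri_induce [Finite α] {H : SimpleGraph α} (hc : FewTri H) : FewTri (H.induce {x | ∃ y, H.Adj x y}) := by
  intro e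
  obtain ⟨n₀, hn₀⟩ := hc e
  refine ⟨n₀ + Nat.card α, fun n hn G hG => ?_⟩
  have h1 := hn₀ n (by omega) G hG
  obtain ⟨G₁, hG₁, hG₁'⟩ := exists_a3 H n
  rw [← hG₁', inj_iso H G, inj_iso H G₁, Nat.card_fin] at h1
  have hs : ({x | ∃ y, H.Adj x y} : Set α).ncard ≤ Nat.card α := by
    have h2 := Set.ncard_le_ncard (Set.subset_univ {x | ∃ y, H.Adj x y}) (Set.toFinite _)
    rwa [Set.ncard_univ] at h2
  have hq : 0 < (n - ({x | ∃ y, H.Adj x y} : Set α).ncard).descFactorial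
      (Nat.card α - ({x | ∃ y, H.Adj x y} : Set α).ncard) := by
    rw [Nat.pos_iff_ne_zero, Ne, Nat.descFactorial_eq_zero_iff_lt]
    omega
  have h3 := Nat.le_of_mul_le_mul_right h1 hq
  have h4 := inj_le_a3 (H.induce {x | ∃ y, H.Adj x y}) hG₁
  rw [Nat.card_fin] at h4
  exact h3.trans h4

private theorem px_empty {γ : Type} [IsEmpty γ] (K : SimpleGraph γ) (G G₁ : SimpleGraph V) :
    inj K G ≤ inj K G₁ := by
  unfold inj
  have h : {f : γ → V | IsInj K G f} = {f : γ → V | IsInj K G₁ f} := by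
    ext f
    constructor
    · intro hf
      exact ⟨hf.1, fun x => isEmptyElim x⟩
    · intro hf
      exact ⟨hf.1, fun x => isEmptyElim x⟩
  rw [h]

theorem exactAll [Finite α] {H : SimpleGraph α} (hH : H.Colorable 2) (hc : FewTri H) [Finite β]
    {F : SimpleGraph β} {u v : β} {c : β → Bool} (hF : Crt F u v c) : ∃ n₀ : ℕ, ∀ n ≥ n₀, bF H F n ≤ a3 H n := by
  classical
  have hFe : ∃ a b, F.Adj a b := ⟨u, v, hF.adj⟩
  rcases Set.eq_empty_or_nonempty {x | ∃ y, H.Adj x y} with hS | ⟨x₀, hx₀⟩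
  · refine ⟨0, fun n _ => ?_⟩
    obtain ⟨G, -, hG⟩ := exists_bF H hFe n
    have hbot : (⊥ : SimpleGraph (Fin n)).CliqueFree 3 := SimpleGraph.cliqueFree_bot (by norm_num)
    have h1 : inj H G ≤ inj H (⊥ : SimpleGraph (Fin n)) := by
      rw [inj_iso H G, inj_iso H (⊥ : SimpleGraph (Fin n))]
      refine Nat.mul_le_mul_right _ ?_
      have : IsEmpty ↥{x | ∃ y, H.Adj x y} := by
        rw [hS]
        infer_instance
      exact px_empty _ _ _
    have h2 := inj_le_a3 H hbot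
    rw [Nat.card_fin] at h2
    rw [← hG]
    exact h1.trans h2
  · have hne : Nonempty ↥{x | ∃ y, H.Adj x y} := ⟨⟨x₀, hx₀⟩⟩
    have hH' : (H.induce {x | ∃ y, H.Adj x y}).Colorable 2 := by
      obtain ⟨C⟩ := hH
      exact ⟨C.comp (SimpleGraph.Embedding.induce _).toHom⟩
    have hI : NoIso (H.induce {x | ∃ y, H.Adj x y}) := by
      rintro ⟨x, y, hxy⟩
      exact ⟨⟨y, x, hxy.symm⟩, hxy⟩
    obtain ⟨n₀, hn₀⟩ := exactF hH' hI (fewTri_induce hc) hF
    refine ⟨n₀, fun n hn => ?_⟩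
    obtain ⟨G, hGF, hG⟩ := exists_bF H hFe n
    obtain ⟨G₁, hG₁f, hG₁⟩ := exists_a3 (H.induce {x | ∃ y, H.Adj x y}) n
    have h1 := inj_le_bF (H.induce {x | ∃ y, H.Adj x y}) F hGF
    rw [Nat.card_fin] at h1
    have h2 := h1.trans (hn₀ n hn)
    rw [← hG₁] at h2
    have h4 := inj_le_a3 H hG₁f
    rw [Nat.card_fin] at h4
    rw [← hG]
    refine le_trans ?_ h4
    rw [inj_iso H G, inj_iso H G₁]
    exact Nat.mul_le_mul_right _ h2

private theorem px_bdd [Finite α] (H : SimpleGraph α) (n : ℕ) (P : SimpleGraph (_root_.Fin n) → Prop) :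
    BddAbove {m | ∃ G : SimpleGraph (_root_.Fin n), P G ∧ G.copyCount H = m} := by
  refine ⟨Nat.card (_root_.Fin n) ^ Nat.card α, ?_⟩
  rintro m ⟨G, -, rfl⟩
  have h1 := (inj_le_hom H G).trans (hom_le_pow H G)
  rw [inj_eq_aut_mul] at h1
  exact (Nat.le_mul_of_pos_left _ (aut_pos H)).trans h1

theorem le_ex [Finite α] (H : SimpleGraph α) (F : SimpleGraph β) {n : ℕ}
    {G : SimpleGraph (_root_.Fin n)} (hG : F.Free G) : G.copyCount H ≤ ex n H F :=
  le_csSup (px_bdd H n _) ⟨G, hG, rfl⟩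

theorem exists_ex [Finite α] (H : SimpleGraph α) {F : SimpleGraph β} (hF : F ≠ ⊥) (n : ℕ) :
    ∃ G : SimpleGraph (_root_.Fin n), F.Free G ∧ G.copyCount H = ex n H F :=
  Nat.sSup_mem (s := {m | ∃ G : SimpleGraph (_root_.Fin n), F.Free G ∧ G.copyCount H = m})
    ⟨_, ⊥, SimpleGraph.free_bot hF, rfl⟩ (px_bdd H n _)

theorem top3_free {G : SimpleGraph V} : (⊤ : SimpleGraph (_root_.Fin 3)).Free G ↔ G.CliqueFree 3 := by
  rw [SimpleGraph.cliqueFree_iff]
  constructor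
  · intro h
    exact ⟨fun f => h ⟨f⟩⟩
  · rintro h ⟨f⟩
    exact h.elim f

theorem top3_ne_bot : (⊤ : SimpleGraph (_root_.Fin 3)) ≠ ⊥ := by
  intro h
  have h1 : (⊤ : SimpleGraph (_root_.Fin 3)).Adj 0 1 := by decide
  rw [h] at h1
  exact h1

/-- unlabelled copies -/
theorem fewTri_of [Finite α] {H : SimpleGraph α} (hc : ∀ e : ℕ, ∃ n₀ : ℕ, ∀ n ≥ n₀, ∀ G : SimpleGraph (_root_.Fin n),
    (Tri G).ncard ≤ e → G.copyCount H ≤ ex n H (⊤ : SimpleGraph (_root_.Fin 3))) : FewTri H := by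
  intro e
  obtain ⟨n₀, hn₀⟩ := hc e
  refine ⟨n₀, fun n hn G hG => ?_⟩
  obtain ⟨G₁, hG₁, hG₁'⟩ := exists_ex H top3_ne_bot n
  have h1 := hn₀ n hn G hG
  rw [← hG₁'] at h1
  have h2 := inj_le_a3 H (top3_free.1 hG₁)
  rw [Nat.card_fin] at h2
  refine le_trans ?_ h2
  rw [inj_eq_aut_mul, inj_eq_aut_mul]
  exact Nat.mul_le_mul_left _ h1

/-- (c) implies (a) for bipartite `H` -/
theorem c_to_a [Finite α] {H : SimpleGraph α} (hH : H.Colorable 2)
    (hg : WeaklyTuranGood H (⊤ : SimpleGraph (_root_.Fin 3)))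
    (hc : ∀ e : ℕ, ∃ n₀ : ℕ, ∀ n ≥ n₀, ∀ G : SimpleGraph (_root_.Fin n), (Tri G).ncard ≤ e →
      G.copyCount H ≤ ex n H (⊤ : SimpleGraph (_root_.Fin 3)))
    [Finite β] {F : SimpleGraph β} (hF : F.chromaticNumber = 3) (he : ∃ e, IsColorCritical F e) :
    WeaklyTuranGood H F := by
  obtain ⟨e, he⟩ := he
  induction e with
  | _ u v =>
    obtain ⟨c, hcr⟩ := exists_crt hF he
    have hF' : F ≠ ⊥ := by
      rintro rfl
      exact hcr.adj
    obtain ⟨n₁, hn₁⟩ := exactAll hH (fewTri_of hc) hcr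
    obtain ⟨k, hk, n₀, hn₀⟩ := hg
    have hk2 : k = 2 := by
      rw [SimpleGraph.chromaticNumber_top, Fintype.card_fin] at hk
      have h := Nat.cast_injective (R := ℕ∞) hk
      omega
    subst hk2
    refine ⟨2, ?_, n₀ + n₁, fun n hn => ?_⟩
    · rw [hF]
      norm_num
    · obtain ⟨G, hG, hG'⟩ := hn₀ n (by omega)
      refine ⟨G, hG, le_antisymm (le_ex H F ?_) ?_⟩
      · rintro ⟨f⟩
        obtain ⟨d, -, hd⟩ := hG
        have h2 : F.Colorable 2 := by
          refine ⟨SimpleGraph.Coloring.mk (fun x => d (f x)) ?_⟩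
          intro x y hxy
          exact (hd _ _).1 (f.toHom.map_adj hxy)
        have h' := SimpleGraph.chromaticNumber_le_iff_colorable.2 h2
        rw [hF] at h'
        exact absurd h' (by decide)
      · obtain ⟨G₂, hG₂, hG₂'⟩ := exists_ex H hF' n
        obtain ⟨G₁, hG₁, hG₁'⟩ := exists_a3 H n
        have h1 := inj_le_bF H F hG₂
        rw [Nat.card_fin] at h1
        have h2 := h1.trans (hn₁ n (by omega))
        rw [← hG₁', inj_eq_aut_mul, inj_eq_aut_mul] at h2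
        have h3 := Nat.le_of_mul_le_mul_left h2 (aut_pos H)
        rw [hG', ← hG₂']
        exact h3.trans (le_ex H _ (top3_free.2 hG₁))

end Pool.Agent.WTE
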