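import Pool.Agent.WTE.Move

/-!
# [WTE-Twin] moving vertices to clones of an almost-twin, with a small second order error
-/

set_option autoImplicit false

namespace Pool.Agent.WTE

open Pool.Agent.WT7

variable {α β V : Type}

theorem div_aux {n a b T m K P κ m₀ : ℝ} (hn : 0 < n) (hT : 0 ≤ T) (hP : 0 ≤ P) (hm : m ≤ m₀) (hm0 : 0 ≤ m)
    (hK0 : 0 ≤ K) (hK : K ≤ κ * n) (h : n * a ≤ n * b + T * (2 * (m * K) * P)) : a ≤ b + 2 * T * κ * m₀ * P := by
  have h1 : m * K ≤ m₀ * (κ * n) := mul_le_mul hm hK hK0 (hm0.trans hm)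
  have h2 : T * (2 * (m * K) * P) ≤ n * (2 * T * κ * m₀ * P) := by
    have h3 : T * (2 * (m * K) * P) = (m * K) * (2 * T * P) := by ring
    have h4 : n * (2 * T * κ * m₀ * P) = m₀ * (κ * n) * (2 * T * P) := by ring
    rw [h3, h4]
    exact mul_le_mul_of_nonneg_right h1 (by positivity)
  have h5 : n * a ≤ n * (b + 2 * T * κ * m₀ * P) := by
    rw [mul_add]
    linarith
  exact le_of_mul_le_mul_left h5 hn

/-- moving the vertices of `M` to clones of the almost-twin `x` -/
theorem move_twin [Finite α] [Finite V] (H : SimpleGraph α) (G : SimpleGraph V) (M : Set V) (x : V) (hxM : x ∉ M)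
    (K : ℕ) {κ : ℝ} (hκ : (K : ℝ) ≤ κ * Nat.card V)
    (hK : ∀ w ∈ M, (symmDiff (G.neighborSet w) (G.neighborSet x)).ncard ≤ K) (hx : ∀ w ∈ M, ¬ G.Adj w x)
    (d : ℕ) (hd : ∀ w ∈ M, dg H G w ≤ d) :
    (inj H G : ℝ) + M.ncard * dg H G x ≤ inj H (Mv G M (G.neighborSet x)) + M.ncard * d +
      4 * (Nat.card α : ℝ) ^ 3 * κ * (M.ncard : ℝ) ^ 2 * (Nat.card V : ℝ) ^ (Nat.card α - 2) := by
  classical
  haveI := Fintype.ofFinite V
  have hV : Nonempty V := ⟨x⟩
  have hn : (0 : ℝ) < (Nat.card V : ℝ) := by exact_mod_cast Nat.card_pos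
  set P : ℝ := (Nat.card V : ℝ) ^ (Nat.card α - 2) with hP
  have hP0 : 0 ≤ P := by positivity
  have hT0 : (0 : ℝ) ≤ (Nat.card α : ℝ) ^ 3 := by positivity
  set m₀ : ℝ := (M.ncard : ℝ) with hm₀
  have key : ∀ s : Finset V, (s : Set V) ⊆ M → (inj H G : ℝ) + s.card * dg H G x ≤
      inj H (Mv G (s : Set V) (G.neighborSet x)) + s.card * d +
        s.card * (4 * (Nat.card α : ℝ) ^ 3 * κ * m₀ * P) := by
    intro s
    induction s using Finset.induction_on with
    | empty =>
      intro _
      have h1 : Mv G ((∅ : Finset V) : Set V) (G.neighborSet x) = G := by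
        ext a b
        exact mv_out (by simp) (by simp)
      rw [h1]
      simp
    | insert w s hws ih =>
      intro hsM
      have hwM : w ∈ M := hsM (by simp)
      have hsM' : (s : Set V) ⊆ M := fun a ha => hsM (by simp [Finset.mem_coe.1 ha])
      have h0 := ih hsM'
      have hxs' : x ∉ ((insert w s : Finset V) : Set V) := fun h => hxM (hsM h)
      have hws' : w ∈ ((insert w s : Finset V) : Set V) := by simp
      have hwx : w ≠ x := fun h => hxM (h ▸ hwM)
      have hcard : ((insert w s : Finset V) : Set V).ncard = s.card + 1 := by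
        rw [Set.ncard_coe_finset, Finset.card_insert_of_notMem hws]
      have hle : ((s.card + 1 : ℕ) : ℝ) ≤ m₀ := by
        rw [hm₀, ← hcard]
        exact_mod_cast Set.ncard_le_ncard hsM (Set.toFinite _)
      have hle' : (s.card : ℝ) ≤ m₀ := by
        push_cast at hle
        linarith
      have h1 := step_eq H (Mv G (s : Set V) (G.neighborSet x))
        (Mv G ((insert w s : Finset V) : Set V) (G.neighborSet x)) w (by
          intro a b ha hb
          have ha' : a ∈ ((insert w s : Finset V) : Set V) ↔ a ∈ (s : Set V) := by simp [ha]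
          have hb' : b ∈ ((insert w s : Finset V) : Set V) ↔ b ∈ (s : Set V) := by simp [hb]
          show ((a ∉ (s : Set V) ∧ b ∉ (s : Set V) ∧ G.Adj a b) ∨ (a ∈ (s : Set V) ∧ b ∉ (s : Set V) ∧ b ∈ G.neighborSet x) ∨
            (a ∉ (s : Set V) ∧ b ∈ (s : Set V) ∧ a ∈ G.neighborSet x)) ↔
            ((a ∉ ((insert w s : Finset V) : Set V) ∧ b ∉ ((insert w s : Finset V) : Set V) ∧ G.Adj a b) ∨
            (a ∈ ((insert w s : Finset V) : Set V) ∧ b ∉ ((insert w s : Finset V) : Set V) ∧ b ∈ G.neighborSet x) ∨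
            (a ∉ ((insert w s : Finset V) : Set V) ∧ b ∈ ((insert w s : Finset V) : Set V) ∧ a ∈ G.neighborSet x))
          rw [ha', hb'])
      have h2 := dg_twin H (Mv G ((insert w s : Finset V) : Set V) (G.neighborSet x)) x w hwx.symm (by
        intro b
        rw [mv_in hws']
        by_cases hb : b ∈ ((insert w s : Finset V) : Set V)
        · rw [mv_in' hb]
          simp only [hb, not_true_eq_false, false_and, iff_false, not_and]
          intro _ h
          exact G.loopless.irrefl _ h
        · rw [mv_out hxs' hb]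
          simp only [hb, not_false_eq_true, true_and]
          rfl)
      have h3 := dg_ge_mv H G ((insert w s : Finset V) : Set V) x x K (fun a ha => hK a (hsM ha))
        (fun a ha => hx a (hsM ha)) hxs' (fun a ha => hx a (hsM ha))
      have h4 := dg_le_mv H G (s : Set V) x w K (fun a ha => hK a (hsM' ha)) (fun a ha => hx a (hsM' ha))
        (by simpa using hws) (fun h => hx w hwM h.symm)
      rw [hcard] at h3
      rw [Set.ncard_coe_finset] at h4
      have h3' := div_aux hn hT0 hP0 hle (by positivity) (Nat.cast_nonneg K) hκ h3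
      have h4' := div_aux hn hT0 hP0 hle' (by positivity) (Nat.cast_nonneg K) hκ h4
      have h5 : (dg H G w : ℝ) ≤ d := by exact_mod_cast hd w hwM
      have h1' : (inj H (Mv G (s : Set V) (G.neighborSet x)) : ℝ) +
          dg H (Mv G ((insert w s : Finset V) : Set V) (G.neighborSet x)) w =
          inj H (Mv G ((insert w s : Finset V) : Set V) (G.neighborSet x)) +
            dg H (Mv G (s : Set V) (G.neighborSet x)) w := by exact_mod_cast h1
      have h2' : (dg H (Mv G ((insert w s : Finset V) : Set V) (G.neighborSet x)) x : ℝ) ≤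
        dg H (Mv G ((insert w s : Finset V) : Set V) (G.neighborSet x)) w := by exact_mod_cast h2
      rw [Finset.card_insert_of_notMem hws, Nat.cast_add, Nat.cast_one]
      have h6 : ((s.card : ℝ) + 1) * (4 * (Nat.card α : ℝ) ^ 3 * κ * m₀ * P) =
          s.card * (4 * (Nat.card α : ℝ) ^ 3 * κ * m₀ * P) + 2 * (2 * (Nat.card α : ℝ) ^ 3 * κ * m₀ * P) := by ring
      rw [h6, add_mul, add_mul]
      linarith
  have h := key M.toFinset (by simp)
  have hc : M.toFinset.card = M.ncard := (Set.ncard_eq_toFinset_card' M).symm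
  rw [hc] at h
  simp only [Set.coe_toFinset] at h
  refine h.trans (le_of_eq ?_)
  rw [hm₀]
  ring

end Pool.Agent.WTE
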