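import Pool.Agent.WTE.Move

/-!
# [WTE-Up] the graph after a move is almost triangle-free; the dense pair at an edge
-/

set_option autoImplicit false

namespace Pool.Agent.WTE

open Pool.Agent.WT7

variable {α β V : Type}

/-- after the move the graph is triangle-free up to few pairs -/
theorem up1 [Finite V] (G G' : SimpleGraph V) (hcf : G'.CliqueFree 3) (M : Set V) (v : V) :
    ∃ Γ : SimpleGraph V, Γ.CliqueFree 3 ∧
      df (Mv G M (G.neighborSet v)) Γ ≤ df G G' + pe G (G.neighborSet v) (G.neighborSet v) := by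
  classical
  set S := G.neighborSet v with hS
  set G1 := Mv G M S with hG1
  let Γ : SimpleGraph V :=
    { Adj := fun a b => G1.Adj a b ∧ (a ∉ M → b ∉ M → G'.Adj a b ∧ ¬ (a ∈ S ∧ b ∈ S))
      symm := ⟨fun a b h => ⟨h.1.symm, fun hb ha => ⟨(h.2 ha hb).1.symm, fun h' => (h.2 ha hb).2 ⟨h'.2, h'.1⟩⟩⟩⟩
      loopless := ⟨fun a h => G1.loopless.irrefl _ h.1⟩ }
  have hM2 : ∀ a b, a ∈ M → b ∈ M → ¬ Γ.Adj a b := fun a b ha hb h => ((mv_in ha).1 h.1).1 hb
  have hMo : ∀ a b, a ∈ M → Γ.Adj a b → b ∉ M ∧ b ∈ S := fun a b ha h => (mv_in ha).1 h.1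
  have hone : ∀ a b c, a ∈ M → Γ.Adj a b → Γ.Adj a c → Γ.Adj b c → False := by
    intro a b c ha hab hac hbc
    have h1 := hMo a b ha hab
    have h2 := hMo a c ha hac
    exact (hbc.2 h1.1 h2.1).2 ⟨h1.2, h2.2⟩
  refine ⟨Γ, ?_, ?_⟩
  · intro s hs
    rw [SimpleGraph.is3Clique_iff] at hs
    obtain ⟨a, b, c, hab, hac, hbc, -⟩ := hs
    by_cases ha : a ∈ M
    · exact hone a b c ha hab hac hbc
    · by_cases hb : b ∈ M
      · exact hone b a c hb hab.symm hbc hac
      · by_cases hc : c ∈ M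
        · exact hone c a b hc hac.symm hbc.symm hab
        · exact hcf {a, b, c} (SimpleGraph.is3Clique_triple_iff.2
            ⟨(hab.2 ha hb).1, (hac.2 ha hc).1, (hbc.2 hb hc).1⟩)
  · unfold df pe
    refine (Set.ncard_le_ncard ?_ (Set.toFinite _)).trans (Set.ncard_union_le _ _)
    rintro ⟨a, b⟩ ⟨h1, h2⟩
    simp only at h1 h2
    by_cases ha : a ∈ M
    · exact absurd (show Γ.Adj a b from ⟨h1, fun h => absurd ha h⟩) h2
    · by_cases hb : b ∈ M
      · exact absurd (show Γ.Adj a b from ⟨h1, fun _ h => absurd hb h⟩) h2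
      · have h3 : G.Adj a b := (mv_out ha hb).1 h1
        by_cases h4 : G'.Adj a b
        · right
          by_contra h5
          refine h2 ⟨h1, fun _ _ => ⟨h4, fun h6 => h5 ⟨h6.1, h6.2, h3⟩⟩⟩
        · left
          exact ⟨h3, h4⟩

/-- ordered pairs, fibre by fibre -/
theorem pairs_le [Finite V] (S : Set (V × V)) (W : Set V) (k : ℕ) (hW : ∀ p ∈ S, p.1 ∈ W)
    (hk : ∀ w ∈ W, {b | (w, b) ∈ S}.ncard ≤ k) : S.ncard ≤ W.ncard * k := by
  classical
  have := Fintype.ofFinite V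
  have h1 : S ⊆ ⋃ w : W, (fun b => ((w : V), b)) '' {b | ((w : V), b) ∈ S} := by
    rintro ⟨a, b⟩ h
    exact Set.mem_iUnion.2 ⟨⟨a, hW _ h⟩, b, h, rfl⟩
  refine (Set.ncard_le_ncard h1 (Set.toFinite _)).trans ((Set.ncard_iUnion_le_of_fintype _).trans ?_)
  have h4 : ∑ w : W, ((fun b => ((w : V), b)) '' {b | ((w : V), b) ∈ S}).ncard ≤ ∑ _w : W, k :=
    Finset.sum_le_sum fun w _ => (Set.ncard_image_le (Set.toFinite _)).trans (hk w w.2)
  rw [Finset.sum_const, Finset.card_univ, smul_eq_mul, ← Nat.card_eq_fintype_card, Nat.card_coe_set_eq] at h4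
  exact h4

theorem pe_tri [Finite V] {G : SimpleGraph V} {C : ℕ} (hC : Cod G C) (v : V) :
    pe G (G.neighborSet v) (G.neighborSet v) ≤ (Tri G).ncard * C := by
  classical
  have h : pe G (G.neighborSet v) (G.neighborSet v) ≤ (Tri G ∩ G.neighborSet v).ncard * C := by
    unfold pe
    refine pairs_le _ _ C ?_ ?_
    · rintro ⟨a, b⟩ ⟨h1, h2, h3⟩
      exact ⟨⟨b, v, h3, SimpleGraph.Adj.symm h1, SimpleGraph.Adj.symm h2⟩, h1⟩
    · rintro w ⟨-, hw⟩
      refine (Set.ncard_le_ncard ?_ (Set.toFinite _)).trans (hC v w hw)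
      rintro b ⟨-, h2, h3⟩
      exact ⟨h2, h3⟩
  exact h.trans (Nat.mul_le_mul_right _ (Set.ncard_le_ncard Set.inter_subset_left (Set.toFinite _)))

theorem pe_mv [Finite V] {G : SimpleGraph V} {C : ℕ} (hC : Cod G C) (M : Set V) (x y : V) (hxy : G.Adj x y)
    (hyM : y ∉ M) :
    pe (Mv G M (G.neighborSet x)) ((Mv G M (G.neighborSet x)).neighborSet y) ((Mv G M (G.neighborSet x)).neighborSet y) ≤
      pe G (G.neighborSet y) (G.neighborSet y) + 2 * (M.ncard * C) := by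
  classical
  set G1 := Mv G M (G.neighborSet x) with hG1
  set R : Set (V × V) := {p | p.1 ∈ M ∧ p.2 ∈ G.neighborSet x ∩ G.neighborSet y} with hR
  have hRc : R.ncard ≤ M.ncard * C := by
    refine pairs_le _ _ C (fun p hp => hp.1) ?_
    intro w _
    refine (Set.ncard_le_ncard ?_ (Set.toFinite _)).trans (hC x y hxy)
    intro b hb
    exact hb.2
  have hRs : (Prod.swap '' R).ncard ≤ M.ncard * C := (Set.ncard_image_le (Set.toFinite _)).trans hRc
  have h1 : pe G1 (G1.neighborSet y) (G1.neighborSet y) ≤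
      ({p : V × V | p.1 ∈ G.neighborSet y ∧ p.2 ∈ G.neighborSet y ∧ G.Adj p.1 p.2} ∪ (R ∪ Prod.swap '' R)).ncard := by
    unfold pe
    refine Set.ncard_le_ncard ?_ (Set.toFinite _)
    rintro ⟨a, b⟩ ⟨h1, h2, h3⟩
    simp only [SimpleGraph.mem_neighborSet] at h1 h2 h3
    by_cases ha : a ∈ M
    · right; left
      have hb := (mv_in ha).1 h3
      exact ⟨ha, hb.2, (mv_out hyM hb.1).1 h2⟩
    · by_cases hb : b ∈ M
      · right; right
        have ha' := (mv_in' hb).1 h3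
        exact ⟨(b, a), ⟨hb, ha'.2, (mv_out hyM ha).1 h1⟩, rfl⟩
      · left
        exact ⟨(mv_out hyM ha).1 h1, (mv_out hyM hb).1 h2, (mv_out ha hb).1 h3⟩
  have h2 := Set.ncard_union_le {p : V × V | p.1 ∈ G.neighborSet y ∧ p.2 ∈ G.neighborSet y ∧ G.Adj p.1 p.2}
    (R ∪ Prod.swap '' R)
  have h3 := Set.ncard_union_le R (Prod.swap '' R)
  have h4 : {p : V × V | p.1 ∈ G.neighborSet y ∧ p.2 ∈ G.neighborSet y ∧ G.Adj p.1 p.2}.ncard =
    pe G (G.neighborSet y) (G.neighborSet y) := rfl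
  omega

/-- many pairs, fibre by fibre -/
theorem le_pairs [Finite V] (S : Set (V × V)) (W : Set V) {d : ℝ} (hd : ∀ w ∈ W, d ≤ ({b | (w, b) ∈ S}.ncard : ℝ)) :
    (W.ncard : ℝ) * d ≤ S.ncard := by
  classical
  have := Fintype.ofFinite V
  have h1 : (⋃ w : W, (fun b => ((w : V), b)) '' {b | ((w : V), b) ∈ S}) ⊆ S := by
    intro p hp
    obtain ⟨w, b, hb, rfl⟩ := Set.mem_iUnion.1 hp
    exact hb
  have h2 : ∑ w ∈ W.toFinset, {b | (w, b) ∈ S}.ncard ≤ S.ncard := by
    have h3 : ∀ w, {b | (w, b) ∈ S}.ncard = ((Finset.univ : Finset (V × V)).filter (fun p => p ∈ S ∧ p.1 = w)).card := by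
      intro w
      rw [← Set.ncard_coe_finset]
      have : ((((Finset.univ : Finset (V × V)).filter (fun p => p ∈ S ∧ p.1 = w)) : Finset (V × V)) : Set (V × V)) =
          (fun b => (w, b)) '' {b | (w, b) ∈ S} := by
        ext ⟨a, b⟩
        simp only [Finset.coe_filter, Finset.mem_univ, true_and, Set.mem_ofPred_eq, Set.mem_image, Prod.mk.injEq]
        constructor
        · rintro ⟨h4, rfl⟩
          exact ⟨b, h4, rfl, rfl⟩
        · rintro ⟨b', h4, rfl, rfl⟩
          exact ⟨h4, rfl⟩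
      rw [this, Set.ncard_image_of_injective]
      intro b b' h
      exact (Prod.mk.inj h).2
    simp_rw [h3]
    rw [Set.ncard_eq_toFinset_card' S]
    rw [← Finset.card_biUnion]
    · refine Finset.card_le_card ?_
      intro p hp
      rw [Finset.mem_biUnion] at hp
      obtain ⟨w, -, hw⟩ := hp
      rw [Set.mem_toFinset]
      exact (Finset.mem_filter.1 hw).2.1
    · intro w _ w' _ hww
      rw [Function.onFun, Finset.disjoint_left]
      intro p hp hp'
      exact hww (((Finset.mem_filter.1 hp).2.2).symm.trans (Finset.mem_filter.1 hp').2.2)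
  have h3 : (∑ w ∈ W.toFinset, ({b | (w, b) ∈ S}.ncard : ℝ)) ≤ S.ncard := by exact_mod_cast h2
  refine le_trans ?_ h3
  have h4 := Finset.card_nsmul_le_sum W.toFinset (fun w => ({b | (w, b) ∈ S}.ncard : ℝ)) d
    (fun w hw => hd w (Set.mem_toFinset.1 hw))
  rw [nsmul_eq_mul, ← Set.ncard_eq_toFinset_card'] at h4
  exact h4

/-- the pair `(N(y), N(x))` is dense for every edge `x y` -/
theorem densePair [Finite V] {G : SimpleGraph V} {C : ℕ} (hC : Cod G C) {c₀ δ : ℝ} (hδ : 0 ≤ δ)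
    (hdeg : ∀ x, c₀ * (Nat.card V : ℝ) ≤ ((G.neighborSet x).ncard : ℝ))
    (hZ : ∀ u, ((Z G u (δ * Nat.card V)).ncard : ℝ) ≤ c₀ / 4 * Nat.card V) (hn : (C : ℝ) ≤ c₀ / 4 * Nat.card V)
    (x y : V) (hxy : G.Adj x y) :
    c₀ / 2 * δ * (Nat.card V : ℝ) ^ 2 ≤ pe G (G.neighborSet y) (G.neighborSet x) := by
  classical
  set W := G.neighborSet y \ (G.neighborSet x ∪ Z G x (δ * Nat.card V)) with hW
  have h1 : c₀ / 2 * (Nat.card V : ℝ) ≤ (W.ncard : ℝ) := by
    have h2 : (G.neighborSet y).ncard ≤ W.ncard + ((G.neighborSet x ∩ G.neighborSet y).ncard + (Z G x (δ * Nat.card V)).ncard) := by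
      have h3 : G.neighborSet y ⊆ W ∪ ((G.neighborSet x ∩ G.neighborSet y) ∪ Z G x (δ * Nat.card V)) := by
        intro b hb
        by_cases hbx : b ∈ G.neighborSet x
        · exact Or.inr (Or.inl ⟨hbx, hb⟩)
        · by_cases hbz : b ∈ Z G x (δ * Nat.card V)
          · exact Or.inr (Or.inr hbz)
          · exact Or.inl ⟨hb, fun h => h.elim hbx hbz⟩
      refine (Set.ncard_le_ncard h3 (Set.toFinite _)).trans ((Set.ncard_union_le _ _).trans ?_)
      exact Nat.add_le_add_left (Set.ncard_union_le _ _) _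
    have h3 : ((G.neighborSet y).ncard : ℝ) ≤ W.ncard + (((G.neighborSet x ∩ G.neighborSet y).ncard : ℝ) +
        ((Z G x (δ * Nat.card V)).ncard : ℝ)) := by exact_mod_cast h2
    have h4 : ((G.neighborSet x ∩ G.neighborSet y).ncard : ℝ) ≤ C := by exact_mod_cast hC x y hxy
    have h5 := hZ x
    have h6 := hdeg y
    linarith
  have h2 : (W.ncard : ℝ) * (δ * Nat.card V) ≤ pe G (G.neighborSet y) (G.neighborSet x) := by
    unfold pe
    refine le_pairs _ W ?_
    rintro w ⟨hw1, hw2⟩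
    have hwx : ¬ G.Adj x w := fun h => hw2 (Or.inl h)
    have hwz : ¬ ((G.neighborSet w ∩ G.neighborSet x).ncard : ℝ) < δ * Nat.card V :=
      fun h => hw2 (Or.inr ⟨hwx, h⟩)
    push Not at hwz
    refine hwz.trans ?_
    have h3 : (G.neighborSet w ∩ G.neighborSet x).ncard ≤
        {b | (w, b) ∈ {p : V × V | p.1 ∈ G.neighborSet y ∧ p.2 ∈ G.neighborSet x ∧ G.Adj p.1 p.2}}.ncard := by
      refine Set.ncard_le_ncard ?_ (Set.toFinite _)
      rintro b ⟨h4, h5⟩
      exact ⟨hw1, h5, h4⟩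
    exact_mod_cast h3
  refine le_trans ?_ h2
  have h3 : 0 ≤ δ * (Nat.card V : ℝ) := by positivity
  calc c₀ / 2 * δ * (Nat.card V : ℝ) ^ 2 = (c₀ / 2 * Nat.card V) * (δ * Nat.card V) := by ring
    _ ≤ _ := mul_le_mul_of_nonneg_right h1 h3

end Pool.Agent.WTE
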